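import Pool.Agent.helper91.SB.Def

/-! Squares inscribed in the 16-gon: classes of edge quadruples, part 0. -/

namespace Boat

theorem q_0_0_0_0 {m : ℝ} (hm : 0 ≤ m) : Q m .e0 .e0 .e0 .e0 := by
  refine sing ?_
  have h : dx m .e0 ^ 2 + dy m .e0 ^ 2 = (5*m + 246)^2 + (1)^2 := by
    simp only [dx, dy] <;> ring
  rw [h]; positivity

theorem q_0_0_0_1 {m : ℝ} (hm : 0 ≤ m) : Q m .e0 .e0 .e0 .e1 := by
  intro t0 t1 t2 t3 a0 b0 a1 b1 a2 b2 a3 b3 h1 h2 h3 h4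
  simp only [px, py, dx, dy] at h1 h2 h3 h4 ⊢
  have wx : (25*m^2 + 2460*m + 60517)*((-4) + t1*(-5*m - 246) - ((-4) + t0*(-5*m - 246))) = 0 := by
    linear_combination (5*m + 246)*h1 + (-25*m^2 - 2460*m - 60516)*h2 + (5*m + 246)*h3 + (-25*m^2 - 2460*m - 60516)*h4
  have Dx : (0:ℝ) < (25*m^2 + 2460*m + 60517) := by positivity
  have wy : (25*m^2 + 2460*m + 60517)*((0) + t1*(-1) - ((0) + t0*(-1))) = 0 := by
    linear_combination 1*h1 + (-5*m - 246)*h2 + 1*h3 + (-5*m - 246)*h4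
  have Dy : (0:ℝ) < (25*m^2 + 2460*m + 60517) := by positivity
  exact Or.inl ⟨sub_eq_zero.mp ((mul_eq_zero.mp wx).resolve_left Dx.ne'),
    sub_eq_zero.mp ((mul_eq_zero.mp wy).resolve_left Dy.ne')⟩

theorem q_0_0_0_14 {m : ℝ} (hm : 0 ≤ m) : Q m .e0 .e0 .e0 .e14 := by
  intro t0 t1 t2 t3 a0 b0 a1 b1 a2 b2 a3 b3 h1 h2 h3 h4
  simp only [px, py, dx, dy] at h1 h2 h3 h4 ⊢
  exfalso
  have h : (25*m^2 + 2475*m + 61254)*(1 - t3) + (9*m + 442) = 0 := by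
    linear_combination 1*h1 + (-5*m - 246)*h2
  have h5 : (0:ℝ) ≤ (25*m^2 + 2475*m + 61254)*(1 - t3) := mul_nonneg (by positivity) (by linarith)
  have h6 : (0:ℝ) < (9*m + 442) := by positivity
  linarith

theorem q_0_0_0_15 {m : ℝ} (hm : 0 ≤ m) : Q m .e0 .e0 .e0 .e15 := by
  intro t0 t1 t2 t3 a0 b0 a1 b1 a2 b2 a3 b3 h1 h2 h3 h4
  simp only [px, py, dx, dy] at h1 h2 h3 h4 ⊢
  have wx : (25*m^2 + 2460*m + 60517)*((-4) + t1*(-5*m - 246) - ((-4) + t0*(-5*m - 246))) = 0 := by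
    linear_combination (5*m + 246)*h1 + (-25*m^2 - 2460*m - 60516)*h2 + (5*m + 246)*h3 + (-25*m^2 - 2460*m - 60516)*h4
  have Dx : (0:ℝ) < (25*m^2 + 2460*m + 60517) := by positivity
  have wy : (25*m^2 + 2460*m + 60517)*((0) + t1*(-1) - ((0) + t0*(-1))) = 0 := by
    linear_combination 1*h1 + (-5*m - 246)*h2 + 1*h3 + (-5*m - 246)*h4
  have Dy : (0:ℝ) < (25*m^2 + 2460*m + 60517) := by positivity
  exact Or.inl ⟨sub_eq_zero.mp ((mul_eq_zero.mp wx).resolve_left Dx.ne'),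
    sub_eq_zero.mp ((mul_eq_zero.mp wy).resolve_left Dy.ne')⟩

theorem q_0_0_1_1 {m : ℝ} (hm : 0 ≤ m) : Q m .e0 .e0 .e1 .e1 := by
  intro t0 t1 t2 t3 a0 b0 a1 b1 a2 b2 a3 b3 h1 h2 h3 h4
  simp only [px, py, dx, dy] at h1 h2 h3 h4 ⊢
  have wx : (20*m^2 + 1980*m + 49004)*((-4) + t1*(-5*m - 246) - ((-4) + t0*(-5*m - 246))) = 0 := by
    linear_combination (-20*m^2 - 1979*m - 48954)*h1 + (-5*m^2 - 496*m - 12300)*h2
  have Dx : (0:ℝ) < (20*m^2 + 1980*m + 49004) := by positivity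
  have wy : (20*m^2 + 1980*m + 49004)*((0) + t1*(-1) - ((0) + t0*(-1))) = 0 := by
    linear_combination (-4*m - 199)*h1 + (-m - 50)*h2
  have Dy : (0:ℝ) < (20*m^2 + 1980*m + 49004) := by positivity
  exact Or.inl ⟨sub_eq_zero.mp ((mul_eq_zero.mp wx).resolve_left Dx.ne'),
    sub_eq_zero.mp ((mul_eq_zero.mp wy).resolve_left Dy.ne')⟩

theorem q_0_0_15_14 {m : ℝ} (hm : 0 ≤ m) : Q m .e0 .e0 .e15 .e14 := by
  intro t0 t1 t2 t3 a0 b0 a1 b1 a2 b2 a3 b3 h1 h2 h3 h4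
  simp only [px, py, dx, dy] at h1 h2 h3 h4 ⊢
  exfalso
  have h : (500*m^4 + 98825*m^3 + 7324725*m^2 + 241284668*m + 2980545936)*(1 - t3) + (81*m^2 + 7956*m + 195364) = 0 := by
    linear_combination (-25*m^2 - 2460*m - 60517)*h1 + (-100*m^3 - 14740*m^2 - 724228*m - 11861332)*h2 + (-9*m - 442)*h3 + (45*m^2 + 4424*m + 108732)*h4
  have h5 : (0:ℝ) ≤ (500*m^4 + 98825*m^3 + 7324725*m^2 + 241284668*m + 2980545936)*(1 - t3) := mul_nonneg (by positivity) (by linarith)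
  have h6 : (0:ℝ) < (81*m^2 + 7956*m + 195364) := by positivity
  linarith

theorem q_0_0_15_15 {m : ℝ} (hm : 0 ≤ m) : Q m .e0 .e0 .e15 .e15 := by
  intro t0 t1 t2 t3 a0 b0 a1 b1 a2 b2 a3 b3 h1 h2 h3 h4
  simp only [px, py, dx, dy] at h1 h2 h3 h4 ⊢
  have wx : (9*m + 442)*((-4) + t1*(-5*m - 246) - ((-4) + t0*(-5*m - 246))) = 0 := by
    linear_combination (-5*m - 246)*h1 + (-20*m^2 - 1964*m - 48216)*h2
  have Dx : (0:ℝ) < (9*m + 442) := by positivity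
  have wy : (9*m + 442)*((0) + t1*(-1) - ((0) + t0*(-1))) = 0 := by
    linear_combination (-1)*h1 + (-4*m - 196)*h2
  have Dy : (0:ℝ) < (9*m + 442) := by positivity
  exact Or.inl ⟨sub_eq_zero.mp ((mul_eq_zero.mp wx).resolve_left Dx.ne'),
    sub_eq_zero.mp ((mul_eq_zero.mp wy).resolve_left Dy.ne')⟩

theorem q_0_1_0_1 {m : ℝ} (hm : 0 ≤ m) : Q m .e0 .e1 .e0 .e1 := by
  intro t0 t1 t2 t3 a0 b0 a1 b1 a2 b2 a3 b3 h1 h2 h3 h4
  simp only [px, py, dx, dy] at h1 h2 h3 h4 ⊢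
  have wx : (10*m^2 + 984*m + 24202)*((-5*m - 250) + t1*(m + 50) - ((-4) + t0*(-5*m - 246))) = 0 := by
    linear_combination (5*m + 249)*h1 + (-25*m^2 - 2475*m - 61254)*h2 + (-20*m^2 - 1978*m - 48904)*h3 + (-30*m^2 - 2972*m - 73604)*h4
  have Dx : (0:ℝ) < (10*m^2 + 984*m + 24202) := by positivity
  have wy : (10*m^2 + 984*m + 24202)*((-1) + t1*(-4*m - 199) - ((0) + t0*(-1))) = 0 := by
    linear_combination (-3*m - 149)*h1 + (15*m^2 + 1483*m + 36654)*h2 + (20*m^2 + 1972*m + 48606)*h3 + (20*m^2 + 1978*m + 48904)*h4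
  have Dy : (0:ℝ) < (10*m^2 + 984*m + 24202) := by positivity
  exact Or.inl ⟨sub_eq_zero.mp ((mul_eq_zero.mp wx).resolve_left Dx.ne'),
    sub_eq_zero.mp ((mul_eq_zero.mp wy).resolve_left Dy.ne')⟩

theorem q_0_1_0_14 {m : ℝ} (hm : 0 ≤ m) : Q m .e0 .e1 .e0 .e14 := by
  intro t0 t1 t2 t3 a0 b0 a1 b1 a2 b2 a3 b3 h1 h2 h3 h4
  simp only [px, py, dx, dy] at h1 h2 h3 h4 ⊢
  exfalso
  have h : (25*m^3 + 3670*m^2 + 179557*m + 2927842)*t2 + (52*m^2 + 5148*m + 127408) = 0 := by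
    linear_combination (-5*m^2 - 493*m - 12151)*h1 + (25*m^2 + 2476*m + 61304)*h2 + (20*m^2 + 1979*m + 48954)*h3 + (25*m^2 + 2476*m + 61304)*h4
  have h5 : (0:ℝ) ≤ (25*m^3 + 3670*m^2 + 179557*m + 2927842)*t2 := mul_nonneg (by positivity) a2
  have h6 : (0:ℝ) < (52*m^2 + 5148*m + 127408) := by positivity
  linarith

theorem q_0_1_1_1 {m : ℝ} (hm : 0 ≤ m) : Q m .e0 .e1 .e1 .e1 := by
  intro t0 t1 t2 t3 a0 b0 a1 b1 a2 b2 a3 b3 h1 h2 h3 h4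
  simp only [px, py, dx, dy] at h1 h2 h3 h4 ⊢
  have wx : (17*m^2 + 1692*m + 42101)*((-5*m - 250) + t1*(m + 50) - ((-4) + t0*(-5*m - 246))) = 0 := by
    linear_combination (-20*m^2 - 1991*m - 49551)*h1 + (-5*m^2 - 499*m - 12450)*h2 + (-4*m^2 - 399*m - 9950)*h3 + (-m^2 - 100*m - 2500)*h4
  have Dx : (0:ℝ) < (17*m^2 + 1692*m + 42101) := by positivity
  have wy : (17*m^2 + 1692*m + 42101)*((-1) + t1*(-4*m - 199) - ((0) + t0*(-1))) = 0 := by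
    linear_combination (12*m^2 + 1193*m + 29651)*h1 + (3*m^2 + 299*m + 7450)*h2 + (16*m^2 + 1592*m + 39601)*h3 + (4*m^2 + 399*m + 9950)*h4
  have Dy : (0:ℝ) < (17*m^2 + 1692*m + 42101) := by positivity
  exact Or.inl ⟨sub_eq_zero.mp ((mul_eq_zero.mp wx).resolve_left Dx.ne'),
    sub_eq_zero.mp ((mul_eq_zero.mp wy).resolve_left Dy.ne')⟩

theorem q_0_1_2_3 {m : ℝ} (hm : 0 ≤ m) : Q m .e0 .e1 .e2 .e3 := by
  intro t0 t1 t2 t3 a0 b0 a1 b1 a2 b2 a3 b3 h1 h2 h3 h4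
  simp only [px, py, dx, dy] at h1 h2 h3 h4 ⊢
  exfalso
  have h : (80*m^4 + 15728*m^3 + 1159353*m^2 + 37975343*m + 466384636)*(1 - t3) + (128*m^3 + 19144*m^2 + 954319*m + 15855969) = 0 := by
    linear_combination (25*m^2 + 2472*m + 61105)*h1 + (100*m^3 + 14863*m^2 + 736348*m + 12159895)*h2 + (80*m^3 + 11884*m^2 + 588445*m + 9712245)*h3 + (80*m^3 + 11871*m^2 + 587161*m + 9680542)*h4
  have h5 : (0:ℝ) ≤ (80*m^4 + 15728*m^3 + 1159353*m^2 + 37975343*m + 466384636)*(1 - t3) := mul_nonneg (by positivity) (by linarith)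
  have h6 : (0:ℝ) < (128*m^3 + 19144*m^2 + 954319*m + 15855969) := by positivity
  linarith

theorem q_0_1_2_4 {m : ℝ} (hm : 0 ≤ m) : Q m .e0 .e1 .e2 .e4 := by
  intro t0 t1 t2 t3 a0 b0 a1 b1 a2 b2 a3 b3 h1 h2 h3 h4
  simp only [px, py, dx, dy] at h1 h2 h3 h4 ⊢
  exfalso
  have h : (80*m^4 + 15928*m^3 + 1189055*m^2 + 39445663*m + 490645622)*t3 + (128*m^3 + 19144*m^2 + 954319*m + 15855969) = 0 := by
    linear_combination (25*m^2 + 2472*m + 61105)*h1 + (100*m^3 + 14863*m^2 + 736348*m + 12159895)*h2 + (80*m^3 + 11884*m^2 + 588445*m + 9712245)*h3 + (80*m^3 + 11871*m^2 + 587161*m + 9680542)*h4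
  have h5 : (0:ℝ) ≤ (80*m^4 + 15928*m^3 + 1189055*m^2 + 39445663*m + 490645622)*t3 := mul_nonneg (by positivity) a3
  have h6 : (0:ℝ) < (128*m^3 + 19144*m^2 + 954319*m + 15855969) := by positivity
  linarith

theorem q_0_2_5_7 {m : ℝ} (hm : 0 ≤ m) : Q m .e0 .e2 .e5 .e7 := by
  intro t0 t1 t2 t3 a0 b0 a1 b1 a2 b2 a3 b3 h1 h2 h3 h4
  simp only [px, py, dx, dy] at h1 h2 h3 h4 ⊢
  exfalso
  have h : (685*m^3 + 101935*m^2 + 5056249*m + 83599934)*t0 + (136*m^3 + 20673*m^2 + 1047136*m + 17674314) = 0 := by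
    linear_combination (36*m^2 + 3579*m + 88954)*h1 + (-180*m^3 - 26859*m^2 - 1335941*m - 22149546)*h2 + (56*m^2 + 5561*m + 138056)*h3 + (-81*m^2 - 8069*m - 200952)*h4
  have h5 : (0:ℝ) ≤ (685*m^3 + 101935*m^2 + 5056249*m + 83599934)*t0 := mul_nonneg (by positivity) a0
  have h6 : (0:ℝ) < (136*m^3 + 20673*m^2 + 1047136*m + 17674314) := by positivity
  linarith

theorem q_0_2_5_8 {m : ℝ} (hm : 0 ≤ m) : Q m .e0 .e2 .e5 .e8 := by
  intro t0 t1 t2 t3 a0 b0 a1 b1 a2 b2 a3 b3 h1 h2 h3 h4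
  simp only [px, py, dx, dy] at h1 h2 h3 h4 ⊢
  exfalso
  have h : (20*m^3 + 3085*m^2 + 158411*m + 2708061)*(1 - t0) + (148*m^3 + 21801*m^2 + 1070285*m + 17511732) = 0 := by
    linear_combination (8*m^2 + 788*m + 19401)*h1 + (-40*m^3 - 5932*m^2 - 293217*m - 4830849)*h2 + (-22*m^2 - 2185*m - 54252)*h3 + (-18*m^2 - 1768*m - 43404)*h4
  have h5 : (0:ℝ) ≤ (20*m^3 + 3085*m^2 + 158411*m + 2708061)*(1 - t0) := mul_nonneg (by positivity) (by linarith)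
  have h6 : (0:ℝ) < (148*m^3 + 21801*m^2 + 1070285*m + 17511732) := by positivity
  linarith

theorem q_0_2_7_12 {m : ℝ} (hm : 0 ≤ m) : Q m .e0 .e2 .e7 .e12 := by
  intro t0 t1 t2 t3 a0 b0 a1 b1 a2 b2 a3 b3 h1 h2 h3 h4
  simp only [px, py, dx, dy] at h1 h2 h3 h4 ⊢
  exfalso
  have h : (1620*m^4 + 321363*m^3 + 23905989*m^2 + 790375987*m + 9799201904)*(1 - t1) + (369*m^3 + 55080*m^2 + 2740436*m + 45446848) = 0 := by
    linear_combination (45*m^2 + 4443*m + 109670)*h1 + (405*m^3 + 60102*m^2 + 2973051*m + 49022490)*h2 + (405*m^3 + 60111*m^2 + 2973897*m + 49042315)*h3 + (405*m^3 + 60147*m^2 + 2977500*m + 49132451)*h4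
  have h5 : (0:ℝ) ≤ (1620*m^4 + 321363*m^3 + 23905989*m^2 + 790375987*m + 9799201904)*(1 - t1) := mul_nonneg (by positivity) (by linarith)
  have h6 : (0:ℝ) < (369*m^3 + 55080*m^2 + 2740436*m + 45446848) := by positivity
  linarith

theorem q_0_3_7_11 {m : ℝ} (hm : 0 ≤ m) : Q m .e0 .e3 .e7 .e11 := by
  intro t0 t1 t2 t3 a0 b0 a1 b1 a2 b2 a3 b3 h1 h2 h3 h4
  simp only [px, py, dx, dy] at h1 h2 h3 h4 ⊢
  exfalso
  have h : (784*m^3 + 115114*m^2 + 5633570*m + 91893029)*(1 - t1) + (465*m^2 + 45758*m + 1125601) = 0 := by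
    linear_combination (20*m^2 + 1973*m + 48653)*h1 + (180*m^3 + 26697*m^2 + 1319808*m + 21747891)*h2 + (180*m^3 + 26546*m^2 + 1304923*m + 21381087)*h3 + (180*m^3 + 26562*m^2 + 1306461*m + 21418008)*h4
  have h5 : (0:ℝ) ≤ (784*m^3 + 115114*m^2 + 5633570*m + 91893029)*(1 - t1) := mul_nonneg (by positivity) (by linarith)
  have h6 : (0:ℝ) < (465*m^2 + 45758*m + 1125601) := by positivity
  linarith

theorem q_0_3_7_12 {m : ℝ} (hm : 0 ≤ m) : Q m .e0 .e3 .e7 .e12 := by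
  intro t0 t1 t2 t3 a0 b0 a1 b1 a2 b2 a3 b3 h1 h2 h3 h4
  simp only [px, py, dx, dy] at h1 h2 h3 h4 ⊢
  exfalso
  have h : (369*m^3 + 55080*m^2 + 2740211*m + 45435721)*(1 - t1) + (225*m + 11127) = 0 := by
    linear_combination (45*m^2 + 4443*m + 109670)*h1 + (405*m^3 + 60102*m^2 + 2973051*m + 49022490)*h2 + (405*m^3 + 60111*m^2 + 2973897*m + 49042315)*h3 + (405*m^3 + 60147*m^2 + 2977500*m + 49132451)*h4
  have h5 : (0:ℝ) ≤ (369*m^3 + 55080*m^2 + 2740211*m + 45435721)*(1 - t1) := mul_nonneg (by positivity) (by linarith)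
  have h6 : (0:ℝ) < (225*m + 11127) := by positivity
  linarith

theorem q_0_3_8_11 {m : ℝ} (hm : 0 ≤ m) : Q m .e0 .e3 .e8 .e11 := by
  intro t0 t1 t2 t3 a0 b0 a1 b1 a2 b2 a3 b3 h1 h2 h3 h4
  simp only [px, py, dx, dy] at h1 h2 h3 h4 ⊢
  exfalso
  have h : (624*m^3 + 91096*m^2 + 4432655*m + 71891601)*(1 - t1) + (620*m^2 + 60805*m + 1490781) = 0 := by
    linear_combination (-60*m^2 - 5919*m - 145959)*h1 + (80*m^3 + 11792*m^2 + 579347*m + 9487335)*h2 + (80*m^3 + 11656*m^2 + 566019*m + 9160803)*h3 + (80*m^3 + 11732*m^2 + 573470*m + 9343416)*h4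
  have h5 : (0:ℝ) ≤ (624*m^3 + 91096*m^2 + 4432655*m + 71891601)*(1 - t1) := mul_nonneg (by positivity) (by linarith)
  have h6 : (0:ℝ) < (620*m^2 + 60805*m + 1490781) := by positivity
  linarith

theorem q_0_3_8_12 {m : ℝ} (hm : 0 ≤ m) : Q m .e0 .e3 .e8 .e12 := by
  intro t0 t1 t2 t3 a0 b0 a1 b1 a2 b2 a3 b3 h1 h2 h3 h4
  simp only [px, py, dx, dy] at h1 h2 h3 h4 ⊢
  exfalso
  have h : (784*m^3 + 114952*m^2 + 5617739*m + 91506213)*t3 + (152*m^2 + 14666*m + 353634) = 0 := by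
    linear_combination (-60*m^2 - 5805*m - 140379)*h1 + (80*m^3 + 11640*m^2 + 564497*m + 9124635)*h2 + (80*m^3 + 11660*m^2 + 566456*m + 9172608)*h3 + (80*m^3 + 11736*m^2 + 573825*m + 9351195)*h4
  have h5 : (0:ℝ) ≤ (784*m^3 + 114952*m^2 + 5617739*m + 91506213)*t3 := mul_nonneg (by positivity) a3
  have h6 : (0:ℝ) < (152*m^2 + 14666*m + 353634) := by positivity
  linarith

theorem q_0_3_9_12 {m : ℝ} (hm : 0 ≤ m) : Q m .e0 .e3 .e9 .e12 := by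
  intro t0 t1 t2 t3 a0 b0 a1 b1 a2 b2 a3 b3 h1 h2 h3 h4
  simp only [px, py, dx, dy] at h1 h2 h3 h4 ⊢
  exfalso
  have h : (720*m^4 + 140784*m^3 + 10322286*m^2 + 336345753*m + 4109573291)*t2 + (784*m^3 + 114706*m^2 + 5593378*m + 90903133) = 0 := by
    linear_combination (61*m^2 + 6016*m + 148316)*h1 + (180*m^3 + 26331*m^2 + 1283785*m + 20861531)*h2 + (180*m^3 + 26376*m^2 + 1288228*m + 20971201)*h3 + (180*m^3 + 26351*m^2 + 1285720*m + 20908324)*h4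
  have h5 : (0:ℝ) ≤ (720*m^4 + 140784*m^3 + 10322286*m^2 + 336345753*m + 4109573291)*t2 := mul_nonneg (by positivity) a2
  have h6 : (0:ℝ) < (784*m^3 + 114706*m^2 + 5593378*m + 90903133) := by positivity
  linarith

theorem q_0_3_10_14 {m : ℝ} (hm : 0 ≤ m) : Q m .e0 .e3 .e10 .e14 := by
  intro t0 t1 t2 t3 a0 b0 a1 b1 a2 b2 a3 b3 h1 h2 h3 h4
  simp only [px, py, dx, dy] at h1 h2 h3 h4 ⊢
  exfalso
  have h : (9*m + 439)*(1 - t1) + (4*m + 205) = 0 := by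
    linear_combination (5*m + 247)*h2 + (5*m + 246)*h3 + (5*m + 247)*h4
  have h5 : (0:ℝ) ≤ (9*m + 439)*(1 - t1) := mul_nonneg (by positivity) (by linarith)
  have h6 : (0:ℝ) < (4*m + 205) := by positivity
  linarith

theorem q_0_4_7_11 {m : ℝ} (hm : 0 ≤ m) : Q m .e0 .e4 .e7 .e11 := by
  intro t0 t1 t2 t3 a0 b0 a1 b1 a2 b2 a3 b3 h1 h2 h3 h4
  simp only [px, py, dx, dy] at h1 h2 h3 h4 ⊢
  exfalso
  have h : (424*m^3 + 62252*m^2 + 3046472*m + 49693315)*t1 + (465*m^2 + 45758*m + 1125601) = 0 := by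
    linear_combination (20*m^2 + 1973*m + 48653)*h1 + (180*m^3 + 26697*m^2 + 1319808*m + 21747891)*h2 + (180*m^3 + 26546*m^2 + 1304923*m + 21381087)*h3 + (180*m^3 + 26562*m^2 + 1306461*m + 21418008)*h4
  have h5 : (0:ℝ) ≤ (424*m^3 + 62252*m^2 + 3046472*m + 49693315)*t1 := mul_nonneg (by positivity) a1
  have h6 : (0:ℝ) < (465*m^2 + 45758*m + 1125601) := by positivity
  linarith

theorem q_0_4_7_12 {m : ℝ} (hm : 0 ≤ m) : Q m .e0 .e4 .e7 .e12 := by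
  intro t0 t1 t2 t3 a0 b0 a1 b1 a2 b2 a3 b3 h1 h2 h3 h4
  simp only [px, py, dx, dy] at h1 h2 h3 h4 ⊢
  right; left
  have hD := (den_pos hm).ne'
  refine ⟨?_, ?_, ?_, ?_⟩
  · have e : zx m + vx m = ((-7938*m^3 - 1177008*m^2 - 58174478*m - 958452060) / 1) / den m := by
      simp only [zx, zy, vx, vy]; ring
    rw [e, eq_div_iff hD]
    simp only [den]
    linear_combination (1 / 1 : ℝ) * ((360*m^3 + 52972*m^2 + 2598102*m + 42474852)*h1 + (3240*m^4 + 637668*m^3 + 47061402*m^2 + 1543625262*m + 18986258844)*h2 + (3240*m^4 + 636858*m^3 + 46941090*m^2 + 1537668570*m + 18887954292)*h3 + (3240*m^4 + 638028*m^3 + 47114324*m^2 + 1546218354*m + 19028608236)*h4)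
  · have e : zy m + vy m = ((-882*m^2 - 87492*m - 2169702) / 1) / den m := by
      simp only [zx, zy, vx, vy]; ring
    rw [e, eq_div_iff hD]
    simp only [den]
    linear_combination (1 / 1 : ℝ) * ((72*m^2 + 7052*m + 172662)*h1 + (648*m^3 + 95652*m^2 + 4706202*m + 77179914)*h2 + (648*m^3 + 95490*m^2 + 4690110*m + 76780302)*h3 + (648*m^3 + 95724*m^2 + 4713244*m + 77352066)*h4)
  · have e : zx m - vy m = ((450*m + 22254) / 1) / den m := by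
      simp only [zx, zy, vx, vy]; ring
    rw [e, eq_div_iff hD]
    simp only [den]
    linear_combination (1 / 1 : ℝ) * ((-90*m^2 - 8886*m - 219340)*h1 + (-810*m^3 - 120204*m^2 - 5946102*m - 98044980)*h2 + (-810*m^3 - 120222*m^2 - 5947794*m - 98084630)*h3 + (-810*m^3 - 120294*m^2 - 5955000*m - 98264902)*h4)
  · have e : zy m + vx m = ((-7938*m^3 - 1177596*m^2 - 58232922*m - 959904354) / 1) / den m := by
      simp only [zx, zy, vx, vy]; ring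
    rw [e, eq_div_iff hD]
    simp only [den]
    linear_combination (1 / 1 : ℝ) * ((360*m^3 + 53004*m^2 + 2601244*m + 42551960)*h1 + (3240*m^4 + 637956*m^3 + 47103984*m^2 + 1545723708*m + 19020726120)*h2 + (3240*m^4 + 638028*m^3 + 47114244*m^2 + 1546210556*m + 19028418220)*h3 + (3240*m^4 + 638316*m^3 + 47157036*m^2 + 1548329608*m + 19063390988)*h4)

theorem q_0_4_8_11 {m : ℝ} (hm : 0 ≤ m) : Q m .e0 .e4 .e8 .e11 := by
  intro t0 t1 t2 t3 a0 b0 a1 b1 a2 b2 a3 b3 h1 h2 h3 h4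
  simp only [px, py, dx, dy] at h1 h2 h3 h4 ⊢
  exfalso
  have h : (464*m^3 + 68024*m^2 + 3324209*m + 54149751)*t0 + (32*m^2 + 2932*m + 66849) = 0 := by
    linear_combination (-48*m^2 - 4656*m - 112899)*h1 + (64*m^3 + 9328*m^2 + 453172*m + 7338435)*h2 + (64*m^3 + 9312*m^2 + 451640*m + 7301781)*h3 + (64*m^3 + 9280*m^2 + 448480*m + 7223775)*h4
  have h5 : (0:ℝ) ≤ (464*m^3 + 68024*m^2 + 3324209*m + 54149751)*t0 := mul_nonneg (by positivity) a0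
  have h6 : (0:ℝ) < (32*m^2 + 2932*m + 66849) := by positivity
  linarith

theorem q_0_4_8_12 {m : ℝ} (hm : 0 ≤ m) : Q m .e0 .e4 .e8 .e12 := by
  intro t0 t1 t2 t3 a0 b0 a1 b1 a2 b2 a3 b3 h1 h2 h3 h4
  simp only [px, py, dx, dy] at h1 h2 h3 h4 ⊢
  exfalso
  have h : (424*m^3 + 62390*m^2 + 3060113*m + 50030337)*t3 + (272*m^2 + 26600*m + 650352) = 0 := by
    linear_combination (-60*m^2 - 5865*m - 143331)*h1 + (80*m^3 + 11720*m^2 + 572333*m + 9316515)*h2 + (80*m^3 + 11700*m^2 + 570374*m + 9268542)*h3 + (80*m^3 + 11776*m^2 + 577803*m + 9450093)*h4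
  have h5 : (0:ℝ) ≤ (424*m^3 + 62390*m^2 + 3060113*m + 50030337)*t3 := mul_nonneg (by positivity) a3
  have h6 : (0:ℝ) < (272*m^2 + 26600*m + 650352) := by positivity
  linarith

theorem q_0_4_9_12 {m : ℝ} (hm : 0 ≤ m) : Q m .e0 .e4 .e9 .e12 := by
  intro t0 t1 t2 t3 a0 b0 a1 b1 a2 b2 a3 b3 h1 h2 h3 h4
  simp only [px, py, dx, dy] at h1 h2 h3 h4 ⊢
  exfalso
  have h : (720*m^4 + 141504*m^3 + 10428852*m^2 + 341603331*m + 4196036959)*t2 + (424*m^3 + 62684*m^2 + 3089110*m + 50745357) = 0 := by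
    linear_combination (-29*m^2 - 2872*m - 71116)*h1 + (180*m^3 + 26511*m^2 + 1301539*m + 21299319)*h2 + (180*m^3 + 26466*m^2 + 1297096*m + 21189649)*h3 + (180*m^3 + 26531*m^2 + 1303494*m + 21347096)*h4
  have h5 : (0:ℝ) ≤ (720*m^4 + 141504*m^3 + 10428852*m^2 + 341603331*m + 4196036959)*t2 := mul_nonneg (by positivity) a2
  have h6 : (0:ℝ) < (424*m^3 + 62684*m^2 + 3089110*m + 50745357) := by positivity
  linarith

theorem q_0_4_10_14 {m : ℝ} (hm : 0 ≤ m) : Q m .e0 .e4 .e10 .e14 := by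
  intro t0 t1 t2 t3 a0 b0 a1 b1 a2 b2 a3 b3 h1 h2 h3 h4
  simp only [px, py, dx, dy] at h1 h2 h3 h4 ⊢
  exfalso
  have h : (m + 53)*(1 - t0) + (3*m + 152) = 0 := by
    linear_combination (4*m + 194)*h2 + (4*m + 193)*h3 + (4*m + 194)*h4
  have h5 : (0:ℝ) ≤ (m + 53)*(1 - t0) := mul_nonneg (by positivity) (by linarith)
  have h6 : (0:ℝ) < (3*m + 152) := by positivity
  linarith

theorem q_0_5_7_10 {m : ℝ} (hm : 0 ≤ m) : Q m .e0 .e5 .e7 .e10 := by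
  intro t0 t1 t2 t3 a0 b0 a1 b1 a2 b2 a3 b3 h1 h2 h3 h4
  simp only [px, py, dx, dy] at h1 h2 h3 h4 ⊢
  exfalso
  have h : (25*m^2 + 2434*m + 59221)*t2 + (30*m^2 + 2989*m + 74447) = 0 := by
    linear_combination 4*h1 + (25*m^2 + 2470*m + 61009)*h2 + 4*h3 + (-5*m - 249)*h4
  have h5 : (0:ℝ) ≤ (25*m^2 + 2434*m + 59221)*t2 := mul_nonneg (by positivity) a2
  have h6 : (0:ℝ) < (30*m^2 + 2989*m + 74447) := by positivity
  linarith

end Boat
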