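import Pool.Agent.helper91.SB.Def

/-! Squares inscribed in the 16-gon: classes of edge quadruples, part 1. -/

namespace Boat

theorem q_0_5_7_11 {m : ℝ} (hm : 0 ≤ m) : Q m .e0 .e5 .e7 .e11 := by
  intro t0 t1 t2 t3 a0 b0 a1 b1 a2 b2 a3 b3 h1 h2 h3 h4
  simp only [px, py, dx, dy] at h1 h2 h3 h4 ⊢
  exfalso
  have h : (900*m^4 + 177730*m^3 + 13161239*m^2 + 433148256*m + 5345565393)*t3 + (395*m^3 + 58715*m^2 + 2909326*m + 48053731) = 0 := by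
    linear_combination (25*m^2 + 2475*m + 61258)*h1 + (225*m^3 + 33450*m^2 + 1657647*m + 27382326)*h2 + (41*m + 2037)*h3 + (-70*m^2 - 6924*m - 171219)*h4
  have h5 : (0:ℝ) ≤ (900*m^4 + 177730*m^3 + 13161239*m^2 + 433148256*m + 5345565393)*t3 := mul_nonneg (by positivity) a3
  have h6 : (0:ℝ) < (395*m^3 + 58715*m^2 + 2909326*m + 48053731) := by positivity
  linarith

theorem q_0_5_7_12 {m : ℝ} (hm : 0 ≤ m) : Q m .e0 .e5 .e7 .e12 := by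
  intro t0 t1 t2 t3 a0 b0 a1 b1 a2 b2 a3 b3 h1 h2 h3 h4
  simp only [px, py, dx, dy] at h1 h2 h3 h4 ⊢
  exfalso
  have h : (2025*m^4 + 401805*m^3 + 29897514*m^2 + 988713566*m + 12261268304)*t1 + (441*m^3 + 65322*m^2 + 3225142*m + 53077044) = 0 := by
    linear_combination (-45*m^2 - 4443*m - 109670)*h1 + (-405*m^3 - 60102*m^2 - 2973051*m - 49022490)*h2 + (-405*m^3 - 60111*m^2 - 2973897*m - 49042315)*h3 + (-405*m^3 - 60147*m^2 - 2977500*m - 49132451)*h4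
  have h5 : (0:ℝ) ≤ (2025*m^4 + 401805*m^3 + 29897514*m^2 + 988713566*m + 12261268304)*t1 := mul_nonneg (by positivity) a1
  have h6 : (0:ℝ) < (441*m^3 + 65322*m^2 + 3225142*m + 53077044) := by positivity
  linarith

theorem q_0_9_12_14 {m : ℝ} (hm : 0 ≤ m) : Q m .e0 .e9 .e12 .e14 := by
  intro t0 t1 t2 t3 a0 b0 a1 b1 a2 b2 a3 b3 h1 h2 h3 h4
  simp only [px, py, dx, dy] at h1 h2 h3 h4 ⊢
  exfalso
  have h : (180*m^3 + 26666*m^2 + 1316812*m + 21675555)*t0 + (68*m^2 + 6729*m + 166476) = 0 := by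
    linear_combination (-36*m^2 - 3553*m - 87665)*h1 + (-4*m - 197)*h2 + (5*m + 249)*h3 + (-4*m - 197)*h4
  have h5 : (0:ℝ) ≤ (180*m^3 + 26666*m^2 + 1316812*m + 21675555)*t0 := mul_nonneg (by positivity) a0
  have h6 : (0:ℝ) < (68*m^2 + 6729*m + 166476) := by positivity
  linarith

theorem q_0_14_1_1 {m : ℝ} (hm : 0 ≤ m) : Q m .e0 .e14 .e1 .e1 := by
  intro t0 t1 t2 t3 a0 b0 a1 b1 a2 b2 a3 b3 h1 h2 h3 h4
  simp only [px, py, dx, dy] at h1 h2 h3 h4 ⊢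
  exfalso
  have h : (65*m^3 + 9662*m^2 + 478733*m + 7906646)*t2 + (15*m^3 + 2238*m^2 + 111303*m + 1845150) = 0 := by
    linear_combination (5*m^2 + 491*m + 12051)*h1 + (-15*m^2 - 1484*m - 36704)*h2 + (-15*m^2 - 1484*m - 36704)*h3 + (-20*m^2 - 1979*m - 48954)*h4
  have h5 : (0:ℝ) ≤ (65*m^3 + 9662*m^2 + 478733*m + 7906646)*t2 := mul_nonneg (by positivity) a2
  have h6 : (0:ℝ) < (15*m^3 + 2238*m^2 + 111303*m + 1845150) := by positivity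
  linarith

theorem q_0_15_0_15 {m : ℝ} (hm : 0 ≤ m) : Q m .e0 .e15 .e0 .e15 := by
  intro t0 t1 t2 t3 a0 b0 a1 b1 a2 b2 a3 b3 h1 h2 h3 h4
  simp only [px, py, dx, dy] at h1 h2 h3 h4 ⊢
  have wx : (40*m^2 + 3928*m + 96430)*((-4*m - 200) + t1*(4*m + 196) - ((-4) + t0*(-5*m - 246))) = 0 := by
    linear_combination (4*m + 197)*h1 + (-20*m^2 - 1969*m - 48462)*h2 + (-m - 50)*h3 + (-40*m^2 - 3937*m - 96874)*h4
  have Dx : (0:ℝ) < (40*m^2 + 3928*m + 96430) := by positivity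
  have wy : (40*m^2 + 3928*m + 96430)*((1) + t1*(-1) - ((0) + t0*(-1))) = 0 := by
    linear_combination (4*m + 195)*h1 + (-20*m^2 - 1959*m - 47970)*h2 + (9*m + 440)*h3 + (m + 50)*h4
  have Dy : (0:ℝ) < (40*m^2 + 3928*m + 96430) := by positivity
  exact Or.inl ⟨sub_eq_zero.mp ((mul_eq_zero.mp wx).resolve_left Dx.ne'),
    sub_eq_zero.mp ((mul_eq_zero.mp wy).resolve_left Dy.ne')⟩

theorem q_0_15_15_14 {m : ℝ} (hm : 0 ≤ m) : Q m .e0 .e15 .e15 .e14 := by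
  intro t0 t1 t2 t3 a0 b0 a1 b1 a2 b2 a3 b3 h1 h2 h3 h4
  simp only [px, py, dx, dy] at h1 h2 h3 h4 ⊢
  exfalso
  have h : (400*m^4 + 78980*m^3 + 5847913*m^2 + 192440975*m + 2374766286)*(1 - t3) + (144*m^3 + 21184*m^2 + 1038809*m + 16980314) = 0 := by
    linear_combination (-20*m^2 - 1973*m - 48657)*h1 + (-80*m^3 - 11812*m^2 - 581336*m - 9536772)*h2 + (-36*m^2 - 3532*m - 86632)*h3 + (9*m + 442)*h4
  have h5 : (0:ℝ) ≤ (400*m^4 + 78980*m^3 + 5847913*m^2 + 192440975*m + 2374766286)*(1 - t3) := mul_nonneg (by positivity) (by linarith)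
  have h6 : (0:ℝ) < (144*m^3 + 21184*m^2 + 1038809*m + 16980314) := by positivity
  linarith

theorem q_0_15_15_15 {m : ℝ} (hm : 0 ≤ m) : Q m .e0 .e15 .e15 .e15 := by
  intro t0 t1 t2 t3 a0 b0 a1 b1 a2 b2 a3 b3 h1 h2 h3 h4
  simp only [px, py, dx, dy] at h1 h2 h3 h4 ⊢
  have wx : (16*m^2 + 1568*m + 38417)*((-4*m - 200) + t1*(4*m + 196) - ((-4) + t0*(-5*m - 246))) = 0 := by
    linear_combination (-4*m - 197)*h1 + (-16*m^2 - 1572*m - 38612)*h2 + (-4*m - 196)*h3 + (-16*m^2 - 1568*m - 38416)*h4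
  have Dx : (0:ℝ) < (16*m^2 + 1568*m + 38417) := by positivity
  have wy : (16*m^2 + 1568*m + 38417)*((1) + t1*(-1) - ((0) + t0*(-1))) = 0 := by
    linear_combination (-4*m - 195)*h1 + (-16*m^2 - 1564*m - 38220)*h2 + 1*h3 + (4*m + 196)*h4
  have Dy : (0:ℝ) < (16*m^2 + 1568*m + 38417) := by positivity
  exact Or.inl ⟨sub_eq_zero.mp ((mul_eq_zero.mp wx).resolve_left Dx.ne'),
    sub_eq_zero.mp ((mul_eq_zero.mp wy).resolve_left Dy.ne')⟩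

theorem q_1_1_1_1 {m : ℝ} (hm : 0 ≤ m) : Q m .e1 .e1 .e1 .e1 := by
  refine sing ?_
  have h : dx m .e1 ^ 2 + dy m .e1 ^ 2 = (m + 50)^2 + (4*m + 199)^2 := by
    simp only [dx, dy] <;> ring
  rw [h]; positivity

theorem q_1_1_1_2 {m : ℝ} (hm : 0 ≤ m) : Q m .e1 .e1 .e1 .e2 := by
  intro t0 t1 t2 t3 a0 b0 a1 b1 a2 b2 a3 b3 h1 h2 h3 h4
  simp only [px, py, dx, dy] at h1 h2 h3 h4 ⊢
  have wx : (17*m^2 + 1692*m + 42101)*((-5*m - 250) + t1*(m + 50) - ((-5*m - 250) + t0*(m + 50))) = 0 := by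
    linear_combination (-4*m^2 - 399*m - 9950)*h1 + (-m^2 - 100*m - 2500)*h2 + (-4*m^2 - 399*m - 9950)*h3 + (-m^2 - 100*m - 2500)*h4
  have Dx : (0:ℝ) < (17*m^2 + 1692*m + 42101) := by positivity
  have wy : (17*m^2 + 1692*m + 42101)*((-1) + t1*(-4*m - 199) - ((-1) + t0*(-4*m - 199))) = 0 := by
    linear_combination (16*m^2 + 1592*m + 39601)*h1 + (4*m^2 + 399*m + 9950)*h2 + (16*m^2 + 1592*m + 39601)*h3 + (4*m^2 + 399*m + 9950)*h4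
  have Dy : (0:ℝ) < (17*m^2 + 1692*m + 42101) := by positivity
  exact Or.inl ⟨sub_eq_zero.mp ((mul_eq_zero.mp wx).resolve_left Dx.ne'),
    sub_eq_zero.mp ((mul_eq_zero.mp wy).resolve_left Dy.ne')⟩

theorem q_1_1_2_2 {m : ℝ} (hm : 0 ≤ m) : Q m .e1 .e1 .e2 .e2 := by
  intro t0 t1 t2 t3 a0 b0 a1 b1 a2 b2 a3 b3 h1 h2 h3 h4
  simp only [px, py, dx, dy] at h1 h2 h3 h4 ⊢
  have wx : (16*m^2 + 1591*m + 39551)*((-5*m - 250) + t1*(m + 50) - ((-5*m - 250) + t0*(m + 50))) = 0 := by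
    linear_combination (m + 50)*h1 + (4*m^2 + 399*m + 9950)*h2
  have Dx : (0:ℝ) < (16*m^2 + 1591*m + 39551) := by positivity
  have wy : (16*m^2 + 1591*m + 39551)*((-1) + t1*(-4*m - 199) - ((-1) + t0*(-4*m - 199))) = 0 := by
    linear_combination (-4*m - 199)*h1 + (-16*m^2 - 1592*m - 39601)*h2
  have Dy : (0:ℝ) < (16*m^2 + 1591*m + 39551) := by positivity
  exact Or.inl ⟨sub_eq_zero.mp ((mul_eq_zero.mp wx).resolve_left Dx.ne'),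
    sub_eq_zero.mp ((mul_eq_zero.mp wy).resolve_left Dy.ne')⟩

theorem q_1_2_1_2 {m : ℝ} (hm : 0 ≤ m) : Q m .e1 .e2 .e1 .e2 := by
  intro t0 t1 t2 t3 a0 b0 a1 b1 a2 b2 a3 b3 h1 h2 h3 h4
  simp only [px, py, dx, dy] at h1 h2 h3 h4 ⊢
  have wx : (8*m^2 + 806*m + 20298)*((-4*m - 200) + t1*(4*m + 199) - ((-5*m - 250) + t0*(m + 50))) = 0 := by
    linear_combination (-16*m^2 - 1596*m - 39800)*h1 + (-4*m^2 - 400*m - 10000)*h2 + (-16*m^2 - 1593*m - 39651)*h3 + (8*m^2 + 793*m + 19651)*h4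
  have Dx : (0:ℝ) < (8*m^2 + 806*m + 20298) := by positivity
  have wy : (8*m^2 + 806*m + 20298)*((-4*m - 200) + t1*(-1) - ((-1) + t0*(-4*m - 199))) = 0 := by
    linear_combination (-16*m^2 - 1588*m - 39402)*h1 + (-4*m^2 - 398*m - 9900)*h2 + (-16*m^2 - 1583*m - 39153)*h3 + (16*m^2 + 1593*m + 39651)*h4
  have Dy : (0:ℝ) < (8*m^2 + 806*m + 20298) := by positivity
  exact Or.inl ⟨sub_eq_zero.mp ((mul_eq_zero.mp wx).resolve_left Dx.ne'),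
    sub_eq_zero.mp ((mul_eq_zero.mp wy).resolve_left Dy.ne')⟩

theorem q_1_2_2_2 {m : ℝ} (hm : 0 ≤ m) : Q m .e1 .e2 .e2 .e2 := by
  intro t0 t1 t2 t3 a0 b0 a1 b1 a2 b2 a3 b3 h1 h2 h3 h4
  simp only [px, py, dx, dy] at h1 h2 h3 h4 ⊢
  have wx : (16*m^2 + 1592*m + 39602)*((-4*m - 200) + t1*(4*m + 199) - ((-5*m - 250) + t0*(m + 50))) = 0 := by
    linear_combination (-4*m - 200)*h1 + (-16*m^2 - 1596*m - 39800)*h2 + (-4*m - 199)*h3 + (-16*m^2 - 1592*m - 39601)*h4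
  have Dx : (0:ℝ) < (16*m^2 + 1592*m + 39602) := by positivity
  have wy : (16*m^2 + 1592*m + 39602)*((-4*m - 200) + t1*(-1) - ((-1) + t0*(-4*m - 199))) = 0 := by
    linear_combination (-4*m - 198)*h1 + (-16*m^2 - 1588*m - 39402)*h2 + 1*h3 + (4*m + 199)*h4
  have Dy : (0:ℝ) < (16*m^2 + 1592*m + 39602) := by positivity
  exact Or.inl ⟨sub_eq_zero.mp ((mul_eq_zero.mp wx).resolve_left Dx.ne'),
    sub_eq_zero.mp ((mul_eq_zero.mp wy).resolve_left Dy.ne')⟩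

theorem q_1_2_3_15 {m : ℝ} (hm : 0 ≤ m) : Q m .e1 .e2 .e3 .e15 := by
  intro t0 t1 t2 t3 a0 b0 a1 b1 a2 b2 a3 b3 h1 h2 h3 h4
  simp only [px, py, dx, dy] at h1 h2 h3 h4 ⊢
  exfalso
  have h : (64*m^4 + 12656*m^3 + 938296*m^2 + 30909795*m + 381749716)*(1 - t2) + (16*m^3 + 2688*m^2 + 148480*m + 2704053) = 0 := by
    linear_combination (64*m^3 + 9496*m^2 + 469649*m + 7742444)*h1 + (-16*m^3 - 2412*m^2 - 121172*m - 2028605)*h2 + (64*m^3 + 9484*m^2 + 468461*m + 7713042)*h3 + (-64*m^3 - 9516*m^2 - 471628*m - 7791397)*h4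
  have h5 : (0:ℝ) ≤ (64*m^4 + 12656*m^3 + 938296*m^2 + 30909795*m + 381749716)*(1 - t2) := mul_nonneg (by positivity) (by linarith)
  have h6 : (0:ℝ) < (16*m^3 + 2688*m^2 + 148480*m + 2704053) := by positivity
  linarith

theorem q_1_2_4_15 {m : ℝ} (hm : 0 ≤ m) : Q m .e1 .e2 .e4 .e15 := by
  intro t0 t1 t2 t3 a0 b0 a1 b1 a2 b2 a3 b3 h1 h2 h3 h4
  simp only [px, py, dx, dy] at h1 h2 h3 h4 ⊢
  exfalso
  have h : (64*m^4 + 12816*m^3 + 962112*m^2 + 32091437*m + 401291814)*t2 + (16*m^3 + 2688*m^2 + 148480*m + 2704053) = 0 := by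
    linear_combination (64*m^3 + 9496*m^2 + 469649*m + 7742444)*h1 + (-16*m^3 - 2412*m^2 - 121172*m - 2028605)*h2 + (64*m^3 + 9484*m^2 + 468461*m + 7713042)*h3 + (-64*m^3 - 9516*m^2 - 471628*m - 7791397)*h4
  have h5 : (0:ℝ) ≤ (64*m^4 + 12816*m^3 + 962112*m^2 + 32091437*m + 401291814)*t2 := mul_nonneg (by positivity) a2
  have h6 : (0:ℝ) < (16*m^3 + 2688*m^2 + 148480*m + 2704053) := by positivity
  linarith

theorem q_1_3_10_14 {m : ℝ} (hm : 0 ≤ m) : Q m .e1 .e3 .e10 .e14 := by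
  intro t0 t1 t2 t3 a0 b0 a1 b1 a2 b2 a3 b3 h1 h2 h3 h4
  simp only [px, py, dx, dy] at h1 h2 h3 h4 ⊢
  exfalso
  have h : (16*m^2 + 1567*m + 38357)*t0 + (5*m + 234) = 0 := by
    linear_combination (4*m + 192)*h2 + (4*m + 193)*h3 + (4*m + 192)*h4
  have h5 : (0:ℝ) ≤ (16*m^2 + 1567*m + 38357)*t0 := mul_nonneg (by positivity) a0
  have h6 : (0:ℝ) < (5*m + 234) := by positivity
  linarith

theorem q_1_3_11_14 {m : ℝ} (hm : 0 ≤ m) : Q m .e1 .e3 .e11 .e14 := by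
  intro t0 t1 t2 t3 a0 b0 a1 b1 a2 b2 a3 b3 h1 h2 h3 h4
  simp only [px, py, dx, dy] at h1 h2 h3 h4 ⊢
  exfalso
  have h : (16*m^3 + 2308*m^2 + 110925*m + 1776235)*(1 - t2) + (12*m^2 + 1201*m + 30035) = 0 := by
    linear_combination (-16*m^2 - 1567*m - 38357)*h1 + (4*m^2 + 395*m + 9749)*h2 + (4*m^2 + 392*m + 9600)*h3 + (4*m^2 + 395*m + 9749)*h4
  have h5 : (0:ℝ) ≤ (16*m^3 + 2308*m^2 + 110925*m + 1776235)*(1 - t2) := mul_nonneg (by positivity) (by linarith)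
  have h6 : (0:ℝ) < (12*m^2 + 1201*m + 30035) := by positivity
  linarith

theorem q_1_3_12_14 {m : ℝ} (hm : 0 ≤ m) : Q m .e1 .e3 .e12 .e14 := by
  intro t0 t1 t2 t3 a0 b0 a1 b1 a2 b2 a3 b3 h1 h2 h3 h4
  simp only [px, py, dx, dy] at h1 h2 h3 h4 ⊢
  exfalso
  have h : (36*m^3 + 5351*m^2 + 265083*m + 4376662)*t2 + (12*m^2 + 1201*m + 30035) = 0 := by
    linear_combination (-16*m^2 - 1567*m - 38357)*h1 + (4*m^2 + 395*m + 9749)*h2 + (4*m^2 + 392*m + 9600)*h3 + (4*m^2 + 395*m + 9749)*h4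
  have h5 : (0:ℝ) ≤ (36*m^3 + 5351*m^2 + 265083*m + 4376662)*t2 := mul_nonneg (by positivity) a2
  have h6 : (0:ℝ) < (12*m^2 + 1201*m + 30035) := by positivity
  linarith

theorem q_1_4_10_14 {m : ℝ} (hm : 0 ≤ m) : Q m .e1 .e4 .e10 .e14 := by
  intro t0 t1 t2 t3 a0 b0 a1 b1 a2 b2 a3 b3 h1 h2 h3 h4
  simp only [px, py, dx, dy] at h1 h2 h3 h4 ⊢
  exfalso
  have h : (16*m^2 + 1569*m + 38457)*t0 + (3*m + 152) = 0 := by
    linear_combination (4*m + 194)*h2 + (4*m + 193)*h3 + (4*m + 194)*h4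
  have h5 : (0:ℝ) ≤ (16*m^2 + 1569*m + 38457)*t0 := mul_nonneg (by positivity) a0
  have h6 : (0:ℝ) < (3*m + 152) := by positivity
  linarith

theorem q_1_4_11_14 {m : ℝ} (hm : 0 ≤ m) : Q m .e1 .e4 .e11 .e14 := by
  intro t0 t1 t2 t3 a0 b0 a1 b1 a2 b2 a3 b3 h1 h2 h3 h4
  simp only [px, py, dx, dy] at h1 h2 h3 h4 ⊢
  exfalso
  have h : (16*m^3 + 2292*m^2 + 109351*m + 1737523)*(1 - t0) + (16*m^2 + 1600*m + 39973) = 0 := by
    linear_combination (-16*m^2 - 1552*m - 37636)*h1 + (12*m + 582)*h2 + (16*m + 773)*h3 + (12*m + 582)*h4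
  have h5 : (0:ℝ) ≤ (16*m^3 + 2292*m^2 + 109351*m + 1737523)*(1 - t0) := mul_nonneg (by positivity) (by linarith)
  have h6 : (0:ℝ) < (16*m^2 + 1600*m + 39973) := by positivity
  linarith

theorem q_1_4_12_14 {m : ℝ} (hm : 0 ≤ m) : Q m .e1 .e4 .e12 .e14 := by
  intro t0 t1 t2 t3 a0 b0 a1 b1 a2 b2 a3 b3 h1 h2 h3 h4
  simp only [px, py, dx, dy] at h1 h2 h3 h4 ⊢
  exfalso
  have h : (36*m^3 + 5315*m^2 + 261523*m + 4288652)*(1 - t0) + (36*m^2 + 3479*m + 84022) = 0 := by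
    linear_combination (-36*m^2 - 3526*m - 86330)*h1 + (-4*m - 194)*h2 + (5*m + 252)*h3 + (-4*m - 194)*h4
  have h5 : (0:ℝ) ≤ (36*m^3 + 5315*m^2 + 261523*m + 4288652)*(1 - t0) := mul_nonneg (by positivity) (by linarith)
  have h6 : (0:ℝ) < (36*m^2 + 3479*m + 84022) := by positivity
  linarith

theorem q_2_2_2_2 {m : ℝ} (hm : 0 ≤ m) : Q m .e2 .e2 .e2 .e2 := by
  refine sing ?_
  have h : dx m .e2 ^ 2 + dy m .e2 ^ 2 = (4*m + 199)^2 + (1)^2 := by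
    simp only [dx, dy] <;> ring
  rw [h]; positivity

theorem q_2_2_2_3 {m : ℝ} (hm : 0 ≤ m) : Q m .e2 .e2 .e2 .e3 := by
  intro t0 t1 t2 t3 a0 b0 a1 b1 a2 b2 a3 b3 h1 h2 h3 h4
  simp only [px, py, dx, dy] at h1 h2 h3 h4 ⊢
  have wx : (16*m^2 + 1592*m + 39602)*((-4*m - 200) + t1*(4*m + 199) - ((-4*m - 200) + t0*(4*m + 199))) = 0 := by
    linear_combination (-4*m - 199)*h1 + (-16*m^2 - 1592*m - 39601)*h2 + (-4*m - 199)*h3 + (-16*m^2 - 1592*m - 39601)*h4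
  have Dx : (0:ℝ) < (16*m^2 + 1592*m + 39602) := by positivity
  have wy : (16*m^2 + 1592*m + 39602)*((-4*m - 200) + t1*(-1) - ((-4*m - 200) + t0*(-1))) = 0 := by
    linear_combination 1*h1 + (4*m + 199)*h2 + 1*h3 + (4*m + 199)*h4
  have Dy : (0:ℝ) < (16*m^2 + 1592*m + 39602) := by positivity
  exact Or.inl ⟨sub_eq_zero.mp ((mul_eq_zero.mp wx).resolve_left Dx.ne'),
    sub_eq_zero.mp ((mul_eq_zero.mp wy).resolve_left Dy.ne')⟩

theorem q_2_2_3_3 {m : ℝ} (hm : 0 ≤ m) : Q m .e2 .e2 .e3 .e3 := by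
  intro t0 t1 t2 t3 a0 b0 a1 b1 a2 b2 a3 b3 h1 h2 h3 h4
  simp only [px, py, dx, dy] at h1 h2 h3 h4 ⊢
  have wx : (16*m^2 + 1564*m + 38209)*((-4*m - 200) + t1*(4*m + 199) - ((-4*m - 200) + t0*(4*m + 199))) = 0 := by
    linear_combination (-16*m^2 - 1564*m - 38208)*h1 + (4*m + 199)*h2
  have Dx : (0:ℝ) < (16*m^2 + 1564*m + 38209) := by positivity
  have wy : (16*m^2 + 1564*m + 38209)*((-4*m - 200) + t1*(-1) - ((-4*m - 200) + t0*(-1))) = 0 := by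
    linear_combination (4*m + 192)*h1 + (-1)*h2
  have Dy : (0:ℝ) < (16*m^2 + 1564*m + 38209) := by positivity
  exact Or.inl ⟨sub_eq_zero.mp ((mul_eq_zero.mp wx).resolve_left Dx.ne'),
    sub_eq_zero.mp ((mul_eq_zero.mp wy).resolve_left Dy.ne')⟩

theorem q_2_3_2_3 {m : ℝ} (hm : 0 ≤ m) : Q m .e2 .e3 .e2 .e3 := by
  intro t0 t1 t2 t3 a0 b0 a1 b1 a2 b2 a3 b3 h1 h2 h3 h4
  simp only [px, py, dx, dy] at h1 h2 h3 h4 ⊢
  have wx : 14*((-1) + t1*(1) - ((-4*m - 200) + t0*(4*m + 199))) = 0 := by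
    linear_combination (4*m + 191)*h1 + (16*m^2 + 1560*m + 38009)*h2 + (16*m^2 + 1564*m + 38207)*h3 + (16*m^2 + 1556*m + 37811)*h4
  have Dx : (0:ℝ) < 14 := by positivity
  have wy : 14*((-4*m - 201) + t1*(4*m + 192) - ((-4*m - 200) + t0*(-1))) = 0 := by
    linear_combination (-4*m - 193)*h1 + (-16*m^2 - 1568*m - 38407)*h2 + (-16*m^2 - 1572*m - 38593)*h3 + (-16*m^2 - 1564*m - 38207)*h4
  have Dy : (0:ℝ) < 14 := by positivity
  exact Or.inl ⟨sub_eq_zero.mp ((mul_eq_zero.mp wx).resolve_left Dx.ne'),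
    sub_eq_zero.mp ((mul_eq_zero.mp wy).resolve_left Dy.ne')⟩

theorem q_2_3_3_3 {m : ℝ} (hm : 0 ≤ m) : Q m .e2 .e3 .e3 .e3 := by
  intro t0 t1 t2 t3 a0 b0 a1 b1 a2 b2 a3 b3 h1 h2 h3 h4
  simp only [px, py, dx, dy] at h1 h2 h3 h4 ⊢
  have wx : (16*m^2 + 1536*m + 36865)*((-1) + t1*(1) - ((-4*m - 200) + t0*(4*m + 199))) = 0 := by
    linear_combination (-16*m^2 - 1532*m - 36672)*h1 + (4*m + 191)*h2 + (4*m + 192)*h3 + (-1)*h4
  have Dx : (0:ℝ) < (16*m^2 + 1536*m + 36865) := by positivity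
  have wy : (16*m^2 + 1536*m + 36865)*((-4*m - 201) + t1*(4*m + 192) - ((-4*m - 200) + t0*(-1))) = 0 := by
    linear_combination (16*m^2 + 1540*m + 37056)*h1 + (-4*m - 193)*h2 + (16*m^2 + 1536*m + 36864)*h3 + (-4*m - 192)*h4
  have Dy : (0:ℝ) < (16*m^2 + 1536*m + 36865) := by positivity
  exact Or.inl ⟨sub_eq_zero.mp ((mul_eq_zero.mp wx).resolve_left Dx.ne'),
    sub_eq_zero.mp ((mul_eq_zero.mp wy).resolve_left Dy.ne')⟩

theorem q_2_4_3_3 {m : ℝ} (hm : 0 ≤ m) : Q m .e2 .e4 .e3 .e3 := by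
  intro t0 t1 t2 t3 a0 b0 a1 b1 a2 b2 a3 b3 h1 h2 h3 h4
  simp only [px, py, dx, dy] at h1 h2 h3 h4 ⊢
  exfalso
  have h : (256*m^4 + 49856*m^3 + 3640800*m^2 + 118158436*m + 1437921999)*(1 - t0) + (128*m^3 + 18464*m^2 + 887816*m + 14229890) = 0 := by
    linear_combination (-64*m^3 - 9248*m^2 - 445436*m - 7151424)*h1 + (16*m^2 + 1544*m + 37247)*h2 + (32*m^2 + 3080*m + 74112)*h3 + (-8*m - 386)*h4
  have h5 : (0:ℝ) ≤ (256*m^4 + 49856*m^3 + 3640800*m^2 + 118158436*m + 1437921999)*(1 - t0) := mul_nonneg (by positivity) (by linarith)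
  have h6 : (0:ℝ) < (128*m^3 + 18464*m^2 + 887816*m + 14229890) := by positivity
  linarith

theorem q_2_4_4_3 {m : ℝ} (hm : 0 ≤ m) : Q m .e2 .e4 .e4 .e3 := by
  intro t0 t1 t2 t3 a0 b0 a1 b1 a2 b2 a3 b3 h1 h2 h3 h4
  simp only [px, py, dx, dy] at h1 h2 h3 h4 ⊢
  exfalso
  have h : (256*m^4 + 49984*m^3 + 3659616*m^2 + 119080268*m + 1452973663)*(1 - t0) + (64*m^2 + 6176*m + 148996) = 0 := by
    linear_combination (-64*m^3 - 9280*m^2 - 448524*m - 7225918)*h1 + (-16*m^2 - 1544*m - 37247)*h2 + (8*m + 386)*h3 + (-32*m^2 - 3096*m - 74884)*h4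
  have h5 : (0:ℝ) ≤ (256*m^4 + 49984*m^3 + 3659616*m^2 + 119080268*m + 1452973663)*(1 - t0) := mul_nonneg (by positivity) (by linarith)
  have h6 : (0:ℝ) < (64*m^2 + 6176*m + 148996) := by positivity
  linarith

theorem q_2_4_4_4 {m : ℝ} (hm : 0 ≤ m) : Q m .e2 .e4 .e4 .e4 := by
  intro t0 t1 t2 t3 a0 b0 a1 b1 a2 b2 a3 b3 h1 h2 h3 h4
  simp only [px, py, dx, dy] at h1 h2 h3 h4 ⊢
  exfalso
  have h : (16*m^2 + 1572*m + 38605)*(1 - t0) + (8*m + 386) = 0 := by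
    linear_combination (-4*m - 194)*h1 + (-1)*h2
  have h5 : (0:ℝ) ≤ (16*m^2 + 1572*m + 38605)*(1 - t0) := mul_nonneg (by positivity) (by linarith)
  have h6 : (0:ℝ) < (8*m + 386) := by positivity
  linarith

end Boat
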