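import Pool.Agent.helper91.SB.Def

/-! Squares inscribed in the 16-gon: classes of edge quadruples, part 2. -/

namespace Boat

theorem q_2_5_7_11 {m : ℝ} (hm : 0 ≤ m) : Q m .e2 .e5 .e7 .e11 := by
  intro t0 t1 t2 t3 a0 b0 a1 b1 a2 b2 a3 b3 h1 h2 h3 h4
  simp only [px, py, dx, dy] at h1 h2 h3 h4 ⊢
  exfalso
  have h : (720*m^4 + 142256*m^3 + 10539831*m^2 + 347062755*m + 4285560262)*(1 - t3) + (944*m^3 + 140735*m^2 + 6993666*m + 115845802) = 0 := by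
    linear_combination (-20*m^2 - 1982*m - 49102)*h1 + (-180*m^3 - 26778*m^2 - 1327872*m - 21948594)*h2 + (81*m^2 + 8069*m + 200952)*h3 + (56*m^2 + 5561*m + 138056)*h4
  have h5 : (0:ℝ) ≤ (720*m^4 + 142256*m^3 + 10539831*m^2 + 347062755*m + 4285560262)*(1 - t3) := mul_nonneg (by positivity) (by linarith)
  have h6 : (0:ℝ) < (944*m^3 + 140735*m^2 + 6993666*m + 115845802) := by positivity
  linarith

theorem q_2_5_7_12 {m : ℝ} (hm : 0 ≤ m) : Q m .e2 .e5 .e7 .e12 := by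
  intro t0 t1 t2 t3 a0 b0 a1 b1 a2 b2 a3 b3 h1 h2 h3 h4
  simp only [px, py, dx, dy] at h1 h2 h3 h4 ⊢
  exfalso
  have h : (1620*m^4 + 321606*m^3 + 23941926*m^2 + 792147484*m + 9828309196)*t3 + (944*m^3 + 140735*m^2 + 6993666*m + 115845802) = 0 := by
    linear_combination (-20*m^2 - 1982*m - 49102)*h1 + (-180*m^3 - 26778*m^2 - 1327872*m - 21948594)*h2 + (81*m^2 + 8069*m + 200952)*h3 + (56*m^2 + 5561*m + 138056)*h4
  have h5 : (0:ℝ) ≤ (1620*m^4 + 321606*m^3 + 23941926*m^2 + 792147484*m + 9828309196)*t3 := mul_nonneg (by positivity) a3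
  have h6 : (0:ℝ) < (944*m^3 + 140735*m^2 + 6993666*m + 115845802) := by positivity
  linarith

theorem q_2_5_7_15 {m : ℝ} (hm : 0 ≤ m) : Q m .e2 .e5 .e7 .e15 := by
  intro t0 t1 t2 t3 a0 b0 a1 b1 a2 b2 a3 b3 h1 h2 h3 h4
  simp only [px, py, dx, dy] at h1 h2 h3 h4 ⊢
  exfalso
  have h : (224*m^3 + 33166*m^2 + 1636779*m + 26923934)*(1 - t1) + (64*m^3 + 9670*m^2 + 486934*m + 8171714) = 0 := by
    linear_combination (16*m^2 + 1580*m + 39002)*h1 + (144*m^3 + 21372*m^2 + 1057278*m + 17433894)*h2 + (-20*m^2 - 1999*m - 49952)*h3 + (-22*m - 1090)*h4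
  have h5 : (0:ℝ) ≤ (224*m^3 + 33166*m^2 + 1636779*m + 26923934)*(1 - t1) := mul_nonneg (by positivity) (by linarith)
  have h6 : (0:ℝ) < (64*m^3 + 9670*m^2 + 486934*m + 8171714) := by positivity
  linarith

theorem q_2_5_8_15 {m : ℝ} (hm : 0 ≤ m) : Q m .e2 .e5 .e8 .e15 := by
  intro t0 t1 t2 t3 a0 b0 a1 b1 a2 b2 a3 b3 h1 h2 h3 h4
  simp only [px, py, dx, dy] at h1 h2 h3 h4 ⊢
  exfalso
  have h : (88*m^3 + 13064*m^2 + 646440*m + 10661997)*t1 + (64*m^3 + 9488*m^2 + 468842*m + 7722096) = 0 := by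
    linear_combination (-24*m^2 - 2370*m - 58503)*h1 + (32*m^3 + 4720*m^2 + 232054*m + 3802695)*h2 + (-32*m^2 - 3158*m - 77904)*h3 + (2*m + 99)*h4
  have h5 : (0:ℝ) ≤ (88*m^3 + 13064*m^2 + 646440*m + 10661997)*t1 := mul_nonneg (by positivity) a1
  have h6 : (0:ℝ) < (64*m^3 + 9488*m^2 + 468842*m + 7722096) := by positivity
  linarith

theorem q_3_3_3_3 {m : ℝ} (hm : 0 ≤ m) : Q m .e3 .e3 .e3 .e3 := by
  refine sing ?_
  have h : dx m .e3 ^ 2 + dy m .e3 ^ 2 = (1)^2 + (4*m + 192)^2 := by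
    simp only [dx, dy] <;> ring
  rw [h]; positivity

theorem q_3_3_3_4 {m : ℝ} (hm : 0 ≤ m) : Q m .e3 .e3 .e3 .e4 := by
  intro t0 t1 t2 t3 a0 b0 a1 b1 a2 b2 a3 b3 h1 h2 h3 h4
  simp only [px, py, dx, dy] at h1 h2 h3 h4 ⊢
  have wx : (16*m^2 + 1536*m + 36865)*((-1) + t1*(1) - ((-1) + t0*(1))) = 0 := by
    linear_combination (4*m + 192)*h1 + (-1)*h2 + (4*m + 192)*h3 + (-1)*h4
  have Dx : (0:ℝ) < (16*m^2 + 1536*m + 36865) := by positivity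
  have wy : (16*m^2 + 1536*m + 36865)*((-4*m - 201) + t1*(4*m + 192) - ((-4*m - 201) + t0*(4*m + 192))) = 0 := by
    linear_combination (16*m^2 + 1536*m + 36864)*h1 + (-4*m - 192)*h2 + (16*m^2 + 1536*m + 36864)*h3 + (-4*m - 192)*h4
  have Dy : (0:ℝ) < (16*m^2 + 1536*m + 36865) := by positivity
  exact Or.inl ⟨sub_eq_zero.mp ((mul_eq_zero.mp wx).resolve_left Dx.ne'),
    sub_eq_zero.mp ((mul_eq_zero.mp wy).resolve_left Dy.ne')⟩

theorem q_3_3_4_4 {m : ℝ} (hm : 0 ≤ m) : Q m .e3 .e3 .e4 .e4 := by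
  intro t0 t1 t2 t3 a0 b0 a1 b1 a2 b2 a3 b3 h1 h2 h3 h4
  simp only [px, py, dx, dy] at h1 h2 h3 h4 ⊢
  have wx : (8*m + 386)*((-1) + t1*(1) - ((-1) + t0*(1))) = 0 := by
    linear_combination (-4*m - 194)*h1 + (-1)*h2
  have Dx : (0:ℝ) < (8*m + 386) := by positivity
  have wy : (4*m + 193)*((-4*m - 201) + t1*(4*m + 192) - ((-4*m - 201) + t0*(4*m + 192))) = 0 := by
    linear_combination (-8*m^2 - 772*m - 18624)*h1 + (-2*m - 96)*h2
  have Dy : (0:ℝ) < (4*m + 193) := by positivity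
  exact Or.inl ⟨sub_eq_zero.mp ((mul_eq_zero.mp wx).resolve_left Dx.ne'),
    sub_eq_zero.mp ((mul_eq_zero.mp wy).resolve_left Dy.ne')⟩

theorem q_3_4_3_4 {m : ℝ} (hm : 0 ≤ m) : Q m .e3 .e4 .e3 .e4 := by
  intro t0 t1 t2 t3 a0 b0 a1 b1 a2 b2 a3 b3 h1 h2 h3 h4
  simp only [px, py, dx, dy] at h1 h2 h3 h4 ⊢
  have wx : (32*m^2 + 3088*m + 74494)*((0) + t1*(1) - ((-1) + t0*(1))) = 0 := by
    linear_combination (-16*m^2 - 1548*m - 37440)*h1 + (4*m + 195)*h2 + 2*h3 + (8*m + 388)*h4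
  have Dx : (0:ℝ) < (32*m^2 + 3088*m + 74494) := by positivity
  have wy : (32*m^2 + 3088*m + 74494)*((-9) + t1*(-4*m - 194) - ((-4*m - 201) + t0*(4*m + 192))) = 0 := by
    linear_combination (16*m^2 + 1540*m + 37056)*h1 + (-4*m - 193)*h2 + (32*m^2 + 3080*m + 74110)*h3 + (-2)*h4
  have Dy : (0:ℝ) < (32*m^2 + 3088*m + 74494) := by positivity
  exact Or.inl ⟨sub_eq_zero.mp ((mul_eq_zero.mp wx).resolve_left Dx.ne'),
    sub_eq_zero.mp ((mul_eq_zero.mp wy).resolve_left Dy.ne')⟩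

theorem q_3_4_4_4 {m : ℝ} (hm : 0 ≤ m) : Q m .e3 .e4 .e4 .e4 := by
  intro t0 t1 t2 t3 a0 b0 a1 b1 a2 b2 a3 b3 h1 h2 h3 h4
  simp only [px, py, dx, dy] at h1 h2 h3 h4 ⊢
  have wx : (16*m^2 + 1552*m + 37637)*((0) + t1*(1) - ((-1) + t0*(1))) = 0 := by
    linear_combination (-16*m^2 - 1556*m - 37830)*h1 + (-4*m - 195)*h2 + (-4*m - 194)*h3 + (-1)*h4
  have Dx : (0:ℝ) < (16*m^2 + 1552*m + 37637) := by positivity
  have wy : (16*m^2 + 1552*m + 37637)*((-9) + t1*(-4*m - 194) - ((-4*m - 201) + t0*(4*m + 192))) = 0 := by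
    linear_combination (16*m^2 + 1548*m + 37442)*h1 + (4*m + 193)*h2 + (16*m^2 + 1552*m + 37636)*h3 + (4*m + 194)*h4
  have Dy : (0:ℝ) < (16*m^2 + 1552*m + 37637) := by positivity
  exact Or.inl ⟨sub_eq_zero.mp ((mul_eq_zero.mp wx).resolve_left Dx.ne'),
    sub_eq_zero.mp ((mul_eq_zero.mp wy).resolve_left Dy.ne')⟩

theorem q_3_7_11_15 {m : ℝ} (hm : 0 ≤ m) : Q m .e3 .e7 .e11 .e15 := by
  intro t0 t1 t2 t3 a0 b0 a1 b1 a2 b2 a3 b3 h1 h2 h3 h4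
  simp only [px, py, dx, dy] at h1 h2 h3 h4 ⊢
  exfalso
  have h : (368*m^3 + 54232*m^2 + 2663757*m + 43607817)*(1 - t0) + (48*m^2 + 5005*m + 130121) = 0 := by
    linear_combination (144*m^3 + 21192*m^2 + 1039540*m + 16996922)*h1 + (-108*m^2 - 10656*m - 262839)*h2 + (144*m^3 + 21156*m^2 + 1036029*m + 16911348)*h3 + (-144*m^3 - 21208*m^2 - 1041108*m - 17035343)*h4
  have h5 : (0:ℝ) ≤ (368*m^3 + 54232*m^2 + 2663757*m + 43607817)*(1 - t0) := mul_nonneg (by positivity) (by linarith)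
  have h6 : (0:ℝ) < (48*m^2 + 5005*m + 130121) := by positivity
  linarith

theorem q_3_7_12_14 {m : ℝ} (hm : 0 ≤ m) : Q m .e3 .e7 .e12 .e14 := by
  intro t0 t1 t2 t3 a0 b0 a1 b1 a2 b2 a3 b3 h1 h2 h3 h4
  simp only [px, py, dx, dy] at h1 h2 h3 h4 ⊢
  exfalso
  have h : (1620*m^4 + 319581*m^3 + 23640439*m^2 + 777185501*m + 9580802631)*(1 - t3) + (288*m^3 + 42318*m^2 + 2072810*m + 33845176) = 0 := by
    linear_combination (-324*m^3 - 47709*m^2 - 2341565*m - 38305600)*h1 + (-36*m^2 - 3521*m - 86080)*h2 + (-324*m^3 - 47700*m^2 - 2340548*m - 38277313)*h3 + (324*m^3 + 47745*m^2 + 2345073*m + 38391039)*h4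
  have h5 : (0:ℝ) ≤ (1620*m^4 + 319581*m^3 + 23640439*m^2 + 777185501*m + 9580802631)*(1 - t3) := mul_nonneg (by positivity) (by linarith)
  have h6 : (0:ℝ) < (288*m^3 + 42318*m^2 + 2072810*m + 33845176) := by positivity
  linarith

theorem q_3_7_12_15 {m : ℝ} (hm : 0 ≤ m) : Q m .e3 .e7 .e12 .e15 := by
  intro t0 t1 t2 t3 a0 b0 a1 b1 a2 b2 a3 b3 h1 h2 h3 h4
  simp only [px, py, dx, dy] at h1 h2 h3 h4 ⊢
  exfalso
  have h : (288*m^3 + 41949*m^2 + 2036114*m + 32932867)*t2 + (228*m^2 + 22354*m + 547886) = 0 := by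
    linear_combination (-144*m^3 - 21140*m^2 - 1034405*m - 16870147)*h1 + (16*m^2 + 1521*m + 36096)*h2 + (-144*m^3 - 21104*m^2 - 1030884*m - 16784067)*h3 + (144*m^3 + 21156*m^2 + 1035957*m + 16907776)*h4
  have h5 : (0:ℝ) ≤ (288*m^3 + 41949*m^2 + 2036114*m + 32932867)*t2 := mul_nonneg (by positivity) a2
  have h6 : (0:ℝ) < (228*m^2 + 22354*m + 547886) := by positivity
  linarith

theorem q_3_8_11_15 {m : ℝ} (hm : 0 ≤ m) : Q m .e3 .e8 .e11 .e15 := by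
  intro t0 t1 t2 t3 a0 b0 a1 b1 a2 b2 a3 b3 h1 h2 h3 h4
  simp only [px, py, dx, dy] at h1 h2 h3 h4 ⊢
  exfalso
  have h : (384*m^3 + 56112*m^2 + 2732976*m + 44368101)*(1 - t0) + (352*m^2 + 34640*m + 852261) = 0 := by
    linear_combination (64*m^3 + 9360*m^2 + 456284*m + 7414098)*h1 + (-48*m^2 - 4692*m - 114651)*h2 + (64*m^3 + 9344*m^2 + 454752*m + 7377444)*h3 + (-64*m^3 - 9312*m^2 - 451580*m - 7298835)*h4
  have h5 : (0:ℝ) ≤ (384*m^3 + 56112*m^2 + 2732976*m + 44368101)*(1 - t0) := mul_nonneg (by positivity) (by linarith)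
  have h6 : (0:ℝ) < (352*m^2 + 34640*m + 852261) := by positivity
  linarith

theorem q_3_8_12_14 {m : ℝ} (hm : 0 ≤ m) : Q m .e3 .e8 .e12 .e14 := by
  intro t0 t1 t2 t3 a0 b0 a1 b1 a2 b2 a3 b3 h1 h2 h3 h4
  simp only [px, py, dx, dy] at h1 h2 h3 h4 ⊢
  exfalso
  have h : (144*m^3 + 21104*m^2 + 1030892*m + 16784451)*(1 - t1) + (20*m^2 + 2006*m + 50287) = 0 := by
    linear_combination (36*m^2 + 3517*m + 85885)*h1 + (4*m + 193)*h2 + (9*m + 446)*h3 + (4*m + 193)*h4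
  have h5 : (0:ℝ) ≤ (144*m^3 + 21104*m^2 + 1030892*m + 16784451)*(1 - t1) := mul_nonneg (by positivity) (by linarith)
  have h6 : (0:ℝ) < (20*m^2 + 2006*m + 50287) := by positivity
  linarith

theorem q_3_8_12_15 {m : ℝ} (hm : 0 ≤ m) : Q m .e3 .e8 .e12 .e15 := by
  intro t0 t1 t2 t3 a0 b0 a1 b1 a2 b2 a3 b3 h1 h2 h3 h4
  simp only [px, py, dx, dy] at h1 h2 h3 h4 ⊢
  exfalso
  have h : (368*m^3 + 53872*m^2 + 2628608*m + 42749961)*t2 + (64*m^2 + 6148*m + 147594) = 0 := by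
    linear_combination (64*m^3 + 9392*m^2 + 459376*m + 7488759)*h1 + (48*m^2 + 4656*m + 112896)*h2 + (64*m^3 + 9376*m^2 + 457812*m + 7450551)*h3 + (-64*m^3 - 9344*m^2 - 454720*m - 7375872)*h4
  have h5 : (0:ℝ) ≤ (368*m^3 + 53872*m^2 + 2628608*m + 42749961)*t2 := mul_nonneg (by positivity) a2
  have h6 : (0:ℝ) < (64*m^2 + 6148*m + 147594) := by positivity
  linarith

theorem q_3_9_12_14 {m : ℝ} (hm : 0 ≤ m) : Q m .e3 .e9 .e12 .e14 := by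
  intro t0 t1 t2 t3 a0 b0 a1 b1 a2 b2 a3 b3 h1 h2 h3 h4
  simp only [px, py, dx, dy] at h1 h2 h3 h4 ⊢
  exfalso
  have h : (56*m^2 + 5518*m + 135919)*t1 + (20*m^2 + 2006*m + 50287) = 0 := by
    linear_combination (36*m^2 + 3517*m + 85885)*h1 + (4*m + 193)*h2 + (9*m + 446)*h3 + (4*m + 193)*h4
  have h5 : (0:ℝ) ≤ (56*m^2 + 5518*m + 135919)*t1 := mul_nonneg (by positivity) a1
  have h6 : (0:ℝ) < (20*m^2 + 2006*m + 50287) := by positivity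
  linarith

theorem q_4_4_4_4 {m : ℝ} (hm : 0 ≤ m) : Q m .e4 .e4 .e4 .e4 := by
  refine sing ?_
  have h : dx m .e4 ^ 2 + dy m .e4 ^ 2 = (1)^2 + (4*m + 194)^2 := by
    simp only [dx, dy] <;> ring
  rw [h]; positivity

theorem q_4_4_4_5 {m : ℝ} (hm : 0 ≤ m) : Q m .e4 .e4 .e4 .e5 := by
  intro t0 t1 t2 t3 a0 b0 a1 b1 a2 b2 a3 b3 h1 h2 h3 h4
  simp only [px, py, dx, dy] at h1 h2 h3 h4 ⊢
  have wx : (16*m^2 + 1552*m + 37637)*((0) + t1*(1) - ((0) + t0*(1))) = 0 := by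
    linear_combination (-4*m - 194)*h1 + (-1)*h2 + (-4*m - 194)*h3 + (-1)*h4
  have Dx : (0:ℝ) < (16*m^2 + 1552*m + 37637) := by positivity
  have wy : (16*m^2 + 1552*m + 37637)*((-9) + t1*(-4*m - 194) - ((-9) + t0*(-4*m - 194))) = 0 := by
    linear_combination (16*m^2 + 1552*m + 37636)*h1 + (4*m + 194)*h2 + (16*m^2 + 1552*m + 37636)*h3 + (4*m + 194)*h4
  have Dy : (0:ℝ) < (16*m^2 + 1552*m + 37637) := by positivity
  exact Or.inl ⟨sub_eq_zero.mp ((mul_eq_zero.mp wx).resolve_left Dx.ne'),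
    sub_eq_zero.mp ((mul_eq_zero.mp wy).resolve_left Dy.ne')⟩

theorem q_4_4_5_5 {m : ℝ} (hm : 0 ≤ m) : Q m .e4 .e4 .e5 .e5 := by
  intro t0 t1 t2 t3 a0 b0 a1 b1 a2 b2 a3 b3 h1 h2 h3 h4
  simp only [px, py, dx, dy] at h1 h2 h3 h4 ⊢
  have wx : (20*m^2 + 1966*m + 48307)*((0) + t1*(1) - ((0) + t0*(1))) = 0 := by
    linear_combination (-1)*h1 + (5*m + 249)*h2
  have Dx : (0:ℝ) < (20*m^2 + 1966*m + 48307) := by positivity
  have wy : (20*m^2 + 1966*m + 48307)*((-9) + t1*(-4*m - 194) - ((-9) + t0*(-4*m - 194))) = 0 := by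
    linear_combination (4*m + 194)*h1 + (-20*m^2 - 1966*m - 48306)*h2
  have Dy : (0:ℝ) < (20*m^2 + 1966*m + 48307) := by positivity
  exact Or.inl ⟨sub_eq_zero.mp ((mul_eq_zero.mp wx).resolve_left Dx.ne'),
    sub_eq_zero.mp ((mul_eq_zero.mp wy).resolve_left Dy.ne')⟩

theorem q_4_5_4_5 {m : ℝ} (hm : 0 ≤ m) : Q m .e4 .e5 .e4 .e5 := by
  intro t0 t1 t2 t3 a0 b0 a1 b1 a2 b2 a3 b3 h1 h2 h3 h4
  simp only [px, py, dx, dy] at h1 h2 h3 h4 ⊢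
  have wx : (2*m + 110)*((1) + t1*(5*m + 249) - ((0) + t0*(1))) = 0 := by
    linear_combination (-20*m^2 - 1962*m - 48112)*h1 + (-5*m - 248)*h2 + (-20*m^2 - 1966*m - 48305)*h3 + (20*m^2 + 1956*m + 47809)*h4
  have Dx : (0:ℝ) < (2*m + 110) := by positivity
  have wy : (2*m + 110)*((-4*m - 203) + t1*(1) - ((-9) + t0*(-4*m - 194))) = 0 := by
    linear_combination (-20*m^2 - 1970*m - 48500)*h1 + (-5*m - 250)*h2 + (-20*m^2 - 1974*m - 48695)*h3 + (20*m^2 + 1966*m + 48305)*h4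
  have Dy : (0:ℝ) < (2*m + 110) := by positivity
  exact Or.inl ⟨sub_eq_zero.mp ((mul_eq_zero.mp wx).resolve_left Dx.ne'),
    sub_eq_zero.mp ((mul_eq_zero.mp wy).resolve_left Dy.ne')⟩

theorem q_4_5_5_5 {m : ℝ} (hm : 0 ≤ m) : Q m .e4 .e5 .e5 .e5 := by
  intro t0 t1 t2 t3 a0 b0 a1 b1 a2 b2 a3 b3 h1 h2 h3 h4
  simp only [px, py, dx, dy] at h1 h2 h3 h4 ⊢
  have wx : (25*m^2 + 2490*m + 62002)*((1) + t1*(5*m + 249) - ((0) + t0*(1))) = 0 := by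
    linear_combination (5*m + 248)*h1 + (-25*m^2 - 2485*m - 61752)*h2 + (5*m + 249)*h3 + (-25*m^2 - 2490*m - 62001)*h4
  have Dx : (0:ℝ) < (25*m^2 + 2490*m + 62002) := by positivity
  have wy : (25*m^2 + 2490*m + 62002)*((-4*m - 203) + t1*(1) - ((-9) + t0*(-4*m - 194))) = 0 := by
    linear_combination (5*m + 250)*h1 + (-25*m^2 - 2495*m - 62250)*h2 + 1*h3 + (-5*m - 249)*h4
  have Dy : (0:ℝ) < (25*m^2 + 2490*m + 62002) := by positivity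
  exact Or.inl ⟨sub_eq_zero.mp ((mul_eq_zero.mp wx).resolve_left Dx.ne'),
    sub_eq_zero.mp ((mul_eq_zero.mp wy).resolve_left Dy.ne')⟩

theorem q_4_5_5_7 {m : ℝ} (hm : 0 ≤ m) : Q m .e4 .e5 .e5 .e7 := by
  intro t0 t1 t2 t3 a0 b0 a1 b1 a2 b2 a3 b3 h1 h2 h3 h4
  simp only [px, py, dx, dy] at h1 h2 h3 h4 ⊢
  exfalso
  have h : (900*m^4 + 178270*m^3 + 13241101*m^2 + 437085032*m + 5410249106)*t0 + (1745*m^3 + 260896*m^2 + 13002268*m + 215998380) = 0 := by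
    linear_combination (45*m^2 + 4476*m + 111302)*h1 + (-225*m^3 - 33585*m^2 - 1671034*m - 27714198)*h2 + (70*m^2 + 6966*m + 173304)*h3 + (14*m + 696)*h4
  have h5 : (0:ℝ) ≤ (900*m^4 + 178270*m^3 + 13241101*m^2 + 437085032*m + 5410249106)*t0 := mul_nonneg (by positivity) a0
  have h6 : (0:ℝ) < (1745*m^3 + 260896*m^2 + 13002268*m + 215998380) := by positivity
  linarith

theorem q_4_7_10_15 {m : ℝ} (hm : 0 ≤ m) : Q m .e4 .e7 .e10 .e15 := by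
  intro t0 t1 t2 t3 a0 b0 a1 b1 a2 b2 a3 b3 h1 h2 h3 h4
  simp only [px, py, dx, dy] at h1 h2 h3 h4 ⊢
  exfalso
  have h : (576*m^4 + 112784*m^3 + 8281100*m^2 + 270227982*m + 3306649490)*(1 - t2) + (80*m^3 + 11988*m^2 + 598627*m + 9961415) = 0 := by
    linear_combination (144*m^3 + 21212*m^2 + 1041493*m + 17044585)*h1 + (-88*m^2 - 8641*m - 212102)*h2 + (144*m^3 + 21176*m^2 + 1037972*m + 16958509)*h3 + (-144*m^3 - 21228*m^2 - 1043061*m - 17082998)*h4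
  have h5 : (0:ℝ) ≤ (576*m^4 + 112784*m^3 + 8281100*m^2 + 270227982*m + 3306649490)*(1 - t2) := mul_nonneg (by positivity) (by linarith)
  have h6 : (0:ℝ) < (80*m^3 + 11988*m^2 + 598627*m + 9961415) := by positivity
  linarith

theorem q_4_7_11_15 {m : ℝ} (hm : 0 ≤ m) : Q m .e4 .e7 .e11 .e15 := by
  intro t0 t1 t2 t3 a0 b0 a1 b1 a2 b2 a3 b3 h1 h2 h3 h4
  simp only [px, py, dx, dy] at h1 h2 h3 h4 ⊢
  exfalso
  have h : (80*m^3 + 12000*m^2 + 599717*m + 9985967)*t0 + (48*m^2 + 5005*m + 130121) = 0 := by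
    linear_combination (144*m^3 + 21192*m^2 + 1039540*m + 16996922)*h1 + (-108*m^2 - 10656*m - 262839)*h2 + (144*m^3 + 21156*m^2 + 1036029*m + 16911348)*h3 + (-144*m^3 - 21208*m^2 - 1041108*m - 17035343)*h4
  have h5 : (0:ℝ) ≤ (80*m^3 + 12000*m^2 + 599717*m + 9985967)*t0 := mul_nonneg (by positivity) a0
  have h6 : (0:ℝ) < (48*m^2 + 5005*m + 130121) := by positivity
  linarith

theorem q_4_7_12_14 {m : ℝ} (hm : 0 ≤ m) : Q m .e4 .e7 .e12 .e14 := by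
  intro t0 t1 t2 t3 a0 b0 a1 b1 a2 b2 a3 b3 h1 h2 h3 h4
  simp only [px, py, dx, dy] at h1 h2 h3 h4 ⊢
  exfalso
  have h : (1620*m^4 + 319581*m^3 + 23640349*m^2 + 777176559*m + 9580580523)*(1 - t3) + (936*m^3 + 137700*m^2 + 6751910*m + 110345124) = 0 := by
    linear_combination (-324*m^3 - 47709*m^2 - 2341529*m - 38303820)*h1 + (-36*m^2 - 3521*m - 86076)*h2 + (-324*m^3 - 47862*m^2 - 2356622*m - 38676033)*h3 + (324*m^3 + 47745*m^2 + 2345055*m + 38390151)*h4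
  have h5 : (0:ℝ) ≤ (1620*m^4 + 319581*m^3 + 23640349*m^2 + 777176559*m + 9580580523)*(1 - t3) := mul_nonneg (by positivity) (by linarith)
  have h6 : (0:ℝ) < (936*m^3 + 137700*m^2 + 6751910*m + 110345124) := by positivity
  linarith

theorem q_4_7_12_15 {m : ℝ} (hm : 0 ≤ m) : Q m .e4 .e7 .e12 .e15 := by
  intro t0 t1 t2 t3 a0 b0 a1 b1 a2 b2 a3 b3 h1 h2 h3 h4
  simp only [px, py, dx, dy] at h1 h2 h3 h4 ⊢
  exfalso
  have h : (936*m^3 + 138141*m^2 + 6795656*m + 111429975)*t2 + (12*m^2 + 1090*m + 24552) = 0 := by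
    linear_combination (-144*m^3 - 21212*m^2 - 1041493*m - 17044585)*h1 + (88*m^2 + 8641*m + 212102)*h2 + (-144*m^3 - 21176*m^2 - 1037972*m - 16958509)*h3 + (144*m^3 + 21228*m^2 + 1043061*m + 17082998)*h4
  have h5 : (0:ℝ) ≤ (936*m^3 + 138141*m^2 + 6795656*m + 111429975)*t2 := mul_nonneg (by positivity) a2
  have h6 : (0:ℝ) < (12*m^2 + 1090*m + 24552) := by positivity
  linarith

theorem q_4_8_11_15 {m : ℝ} (hm : 0 ≤ m) : Q m .e4 .e8 .e11 .e15 := by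
  intro t0 t1 t2 t3 a0 b0 a1 b1 a2 b2 a3 b3 h1 h2 h3 h4
  simp only [px, py, dx, dy] at h1 h2 h3 h4 ⊢
  exfalso
  have h : (256*m^3 + 37680*m^2 + 1848608*m + 30230259)*t0 + (352*m^2 + 34640*m + 852261) = 0 := by
    linear_combination (64*m^3 + 9360*m^2 + 456284*m + 7414098)*h1 + (-48*m^2 - 4692*m - 114651)*h2 + (64*m^3 + 9344*m^2 + 454752*m + 7377444)*h3 + (-64*m^3 - 9312*m^2 - 451580*m - 7298835)*h4
  have h5 : (0:ℝ) ≤ (256*m^3 + 37680*m^2 + 1848608*m + 30230259)*t0 := mul_nonneg (by positivity) a0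
  have h6 : (0:ℝ) < (352*m^2 + 34640*m + 852261) := by positivity
  linarith

theorem q_4_8_12_15 {m : ℝ} (hm : 0 ≤ m) : Q m .e4 .e8 .e12 .e15 := by
  intro t0 t1 t2 t3 a0 b0 a1 b1 a2 b2 a3 b3 h1 h2 h3 h4
  simp only [px, py, dx, dy] at h1 h2 h3 h4 ⊢
  exfalso
  have h : (80*m^3 + 11880*m^2 + 587986*m + 9699333)*t2 + (160*m^2 + 15676*m + 383928) = 0 := by
    linear_combination (64*m^3 + 9424*m^2 + 462552*m + 7567557)*h1 + (16*m^2 + 1576*m + 38802)*h2 + (64*m^3 + 9408*m^2 + 460988*m + 7529337)*h3 + (-64*m^3 - 9376*m^2 - 457848*m - 7452318)*h4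
  have h5 : (0:ℝ) ≤ (80*m^3 + 11880*m^2 + 587986*m + 9699333)*t2 := mul_nonneg (by positivity) a2
  have h6 : (0:ℝ) < (160*m^2 + 15676*m + 383928) := by positivity
  linarith

end Boat
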