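import Pool.Agent.helper91.SB.Def

/-! Squares inscribed in the 16-gon: classes of edge quadruples, part 3. -/

namespace Boat

theorem q_4_9_12_14 {m : ℝ} (hm : 0 ≤ m) : Q m .e4 .e9 .e12 .e14 := by
  intro t0 t1 t2 t3 a0 b0 a1 b1 a2 b2 a3 b3 h1 h2 h3 h4
  simp only [px, py, dx, dy] at h1 h2 h3 h4 ⊢
  exfalso
  have h : (16*m^2 + 1596*m + 39805)*(1 - t2) + (32*m^2 + 3080*m + 74061) = 0 := by
    linear_combination (16*m^2 + 1560*m + 38025)*h1 + (-4)*h2 + (-4*m - 197)*h3 + (-4)*h4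
  have h5 : (0:ℝ) ≤ (16*m^2 + 1596*m + 39805)*(1 - t2) := mul_nonneg (by positivity) (by linarith)
  have h6 : (0:ℝ) < (32*m^2 + 3080*m + 74061) := by positivity
  linarith

theorem q_4_9_12_15 {m : ℝ} (hm : 0 ≤ m) : Q m .e4 .e9 .e12 .e15 := by
  intro t0 t1 t2 t3 a0 b0 a1 b1 a2 b2 a3 b3 h1 h2 h3 h4
  simp only [px, py, dx, dy] at h1 h2 h3 h4 ⊢
  exfalso
  have h : (576*m^4 + 113088*m^3 + 8326080*m^2 + 272446240*m + 3343112399)*t1 + (80*m^3 + 12180*m^2 + 617402*m + 10420371) = 0 := by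
    linear_combination (144*m^3 + 21232*m^2 + 1043477*m + 17093785)*h1 + (16*m^2 + 1568*m + 38413)*h2 + (144*m^3 + 21196*m^2 + 1039951*m + 17007454)*h3 + (-144*m^3 - 21144*m^2 - 1034852*m - 16882463)*h4
  have h5 : (0:ℝ) ≤ (576*m^4 + 113088*m^3 + 8326080*m^2 + 272446240*m + 3343112399)*t1 := mul_nonneg (by positivity) a1
  have h6 : (0:ℝ) < (80*m^3 + 12180*m^2 + 617402*m + 10420371) := by positivity
  linarith

theorem q_5_5_5_5 {m : ℝ} (hm : 0 ≤ m) : Q m .e5 .e5 .e5 .e5 := by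
  refine sing ?_
  have h : dx m .e5 ^ 2 + dy m .e5 ^ 2 = (5*m + 249)^2 + (1)^2 := by
    simp only [dx, dy] <;> ring
  rw [h]; positivity

theorem q_5_5_5_6 {m : ℝ} (hm : 0 ≤ m) : Q m .e5 .e5 .e5 .e6 := by
  intro t0 t1 t2 t3 a0 b0 a1 b1 a2 b2 a3 b3 h1 h2 h3 h4
  simp only [px, py, dx, dy] at h1 h2 h3 h4 ⊢
  have wx : (25*m^2 + 2490*m + 62002)*((1) + t1*(5*m + 249) - ((1) + t0*(5*m + 249))) = 0 := by
    linear_combination (5*m + 249)*h1 + (-25*m^2 - 2490*m - 62001)*h2 + (5*m + 249)*h3 + (-25*m^2 - 2490*m - 62001)*h4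
  have Dx : (0:ℝ) < (25*m^2 + 2490*m + 62002) := by positivity
  have wy : (25*m^2 + 2490*m + 62002)*((-4*m - 203) + t1*(1) - ((-4*m - 203) + t0*(1))) = 0 := by
    linear_combination 1*h1 + (-5*m - 249)*h2 + 1*h3 + (-5*m - 249)*h4
  have Dy : (0:ℝ) < (25*m^2 + 2490*m + 62002) := by positivity
  exact Or.inl ⟨sub_eq_zero.mp ((mul_eq_zero.mp wx).resolve_left Dx.ne'),
    sub_eq_zero.mp ((mul_eq_zero.mp wy).resolve_left Dy.ne')⟩

theorem q_5_5_6_6 {m : ℝ} (hm : 0 ≤ m) : Q m .e5 .e5 .e6 .e6 := by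
  intro t0 t1 t2 t3 a0 b0 a1 b1 a2 b2 a3 b3 h1 h2 h3 h4
  simp only [px, py, dx, dy] at h1 h2 h3 h4 ⊢
  have wx : (20*m^2 + 1997*m + 49849)*((1) + t1*(5*m + 249) - ((1) + t0*(5*m + 249))) = 0 := by
    linear_combination (-20*m^2 - 2001*m - 50049)*h1 + (20*m^2 + 1996*m + 49800)*h2
  have Dx : (0:ℝ) < (20*m^2 + 1997*m + 49849) := by positivity
  have wy : (20*m^2 + 1997*m + 49849)*((-4*m - 203) + t1*(1) - ((-4*m - 203) + t0*(1))) = 0 := by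
    linear_combination (-4*m - 201)*h1 + (4*m + 200)*h2
  have Dy : (0:ℝ) < (20*m^2 + 1997*m + 49849) := by positivity
  exact Or.inl ⟨sub_eq_zero.mp ((mul_eq_zero.mp wx).resolve_left Dx.ne'),
    sub_eq_zero.mp ((mul_eq_zero.mp wy).resolve_left Dy.ne')⟩

theorem q_5_5_6_7 {m : ℝ} (hm : 0 ≤ m) : Q m .e5 .e5 .e6 .e7 := by
  intro t0 t1 t2 t3 a0 b0 a1 b1 a2 b2 a3 b3 h1 h2 h3 h4
  simp only [px, py, dx, dy] at h1 h2 h3 h4 ⊢
  exfalso
  have h : (900*m^4 + 179385*m^3 + 13407859*m^2 + 445398434*m + 5548399190)*(1 - t2) + (280*m^3 + 41878*m^2 + 2087798*m + 34694904) = 0 := by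
    linear_combination (-25*m^2 - 2504*m - 62698)*h1 + (-225*m^3 - 33515*m^2 - 1664082*m - 27541590)*h2 + (-14*m - 696)*h3 + (70*m^2 + 6966*m + 173304)*h4
  have h5 : (0:ℝ) ≤ (900*m^4 + 179385*m^3 + 13407859*m^2 + 445398434*m + 5548399190)*(1 - t2) := mul_nonneg (by positivity) (by linarith)
  have h6 : (0:ℝ) < (280*m^3 + 41878*m^2 + 2087798*m + 34694904) := by positivity
  linarith

theorem q_5_5_7_7 {m : ℝ} (hm : 0 ≤ m) : Q m .e5 .e5 .e7 .e7 := by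
  intro t0 t1 t2 t3 a0 b0 a1 b1 a2 b2 a3 b3 h1 h2 h3 h4
  simp only [px, py, dx, dy] at h1 h2 h3 h4 ⊢
  exfalso
  have h : (196*m^2 + 19488*m + 484416)*(1 - t0) + (504*m^3 + 75470*m^2 + 3766954*m + 62672712) = 0 := by
    linear_combination (-45*m^2 - 4476*m - 111302)*h1 + (-405*m^3 - 60399*m^2 - 3002490*m - 49751994)*h2 + (14*m + 696)*h3 + (126*m^2 + 12522*m + 311112)*h4
  have h5 : (0:ℝ) ≤ (196*m^2 + 19488*m + 484416)*(1 - t0) := mul_nonneg (by positivity) (by linarith)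
  have h6 : (0:ℝ) < (504*m^3 + 75470*m^2 + 3766954*m + 62672712) := by positivity
  linarith

theorem q_5_5_7_8 {m : ℝ} (hm : 0 ≤ m) : Q m .e5 .e5 .e7 .e8 := by
  intro t0 t1 t2 t3 a0 b0 a1 b1 a2 b2 a3 b3 h1 h2 h3 h4
  simp only [px, py, dx, dy] at h1 h2 h3 h4 ⊢
  exfalso
  have h : (775*m^3 + 115744*m^2 + 5762086*m + 95619264)*t3 + (280*m^3 + 42074*m^2 + 2107286*m + 35179320) = 0 := by
    linear_combination (-25*m^2 - 2490*m - 62002)*h1 + (-225*m^3 - 33585*m^2 - 1671048*m - 27714894)*h2 + (-14*m - 696)*h3 + (70*m^2 + 6966*m + 173304)*h4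
  have h5 : (0:ℝ) ≤ (775*m^3 + 115744*m^2 + 5762086*m + 95619264)*t3 := mul_nonneg (by positivity) a3
  have h6 : (0:ℝ) < (280*m^3 + 42074*m^2 + 2107286*m + 35179320) := by positivity
  linarith

theorem q_5_6_5_6 {m : ℝ} (hm : 0 ≤ m) : Q m .e5 .e6 .e5 .e6 := by
  intro t0 t1 t2 t3 a0 b0 a1 b1 a2 b2 a3 b3 h1 h2 h3 h4
  simp only [px, py, dx, dy] at h1 h2 h3 h4 ⊢
  have wx : (40*m^2 + 4000*m + 100002)*((5*m + 250) + t1*(4*m + 200) - ((1) + t0*(5*m + 249))) = 0 := by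
    linear_combination (-1)*h1 + (5*m + 249)*h2 + (20*m^2 + 2005*m + 50249)*h3 + (-20*m^2 - 1995*m - 49751)*h4
  have Dx : (0:ℝ) < (40*m^2 + 4000*m + 100002) := by positivity
  have wy : (40*m^2 + 4000*m + 100002)*((-4*m - 202) + t1*(4*m + 201) - ((-4*m - 203) + t0*(1))) = 0 := by
    linear_combination (8*m + 401)*h1 + (-40*m^2 - 3997*m - 99849)*h2 + (-20*m^2 - 1989*m - 49447)*h3 + (-20*m^2 - 2005*m - 50249)*h4
  have Dy : (0:ℝ) < (40*m^2 + 4000*m + 100002) := by positivity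
  exact Or.inl ⟨sub_eq_zero.mp ((mul_eq_zero.mp wx).resolve_left Dx.ne'),
    sub_eq_zero.mp ((mul_eq_zero.mp wy).resolve_left Dy.ne')⟩

theorem q_5_6_6_6 {m : ℝ} (hm : 0 ≤ m) : Q m .e5 .e6 .e6 .e6 := by
  intro t0 t1 t2 t3 a0 b0 a1 b1 a2 b2 a3 b3 h1 h2 h3 h4
  simp only [px, py, dx, dy] at h1 h2 h3 h4 ⊢
  have wx : (32*m^2 + 3208*m + 80401)*((5*m + 250) + t1*(4*m + 200) - ((1) + t0*(5*m + 249))) = 0 := by
    linear_combination (-4*m - 201)*h1 + (4*m + 200)*h2 + (16*m^2 + 1604*m + 40200)*h3 + (-16*m^2 - 1600*m - 40000)*h4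
  have Dx : (0:ℝ) < (32*m^2 + 3208*m + 80401) := by positivity
  have wy : (32*m^2 + 3208*m + 80401)*((-4*m - 202) + t1*(4*m + 201) - ((-4*m - 203) + t0*(1))) = 0 := by
    linear_combination (32*m^2 + 3212*m + 80601)*h1 + (-32*m^2 - 3204*m - 80200)*h2 + (16*m^2 + 1608*m + 40401)*h3 + (-16*m^2 - 1604*m - 40200)*h4
  have Dy : (0:ℝ) < (32*m^2 + 3208*m + 80401) := by positivity
  exact Or.inl ⟨sub_eq_zero.mp ((mul_eq_zero.mp wx).resolve_left Dx.ne'),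
    sub_eq_zero.mp ((mul_eq_zero.mp wy).resolve_left Dy.ne')⟩

theorem q_5_6_6_7 {m : ℝ} (hm : 0 ≤ m) : Q m .e5 .e6 .e6 .e7 := by
  intro t0 t1 t2 t3 a0 b0 a1 b1 a2 b2 a3 b3 h1 h2 h3 h4
  simp only [px, py, dx, dy] at h1 h2 h3 h4 ⊢
  exfalso
  have h : (720*m^4 + 143464*m^3 + 10719517*m^2 + 355971726*m + 4432793807)*t2 + (108*m^3 + 16275*m^2 + 817493*m + 13687144) = 0 := by
    linear_combination (180*m^3 + 26857*m^2 + 1335699*m + 22142455)*h1 + (9*m^2 + 878*m + 21407)*h2 + (180*m^3 + 26857*m^2 + 1335702*m + 22142607)*h3 + (36*m^2 + 3587*m + 89351)*h4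
  have h5 : (0:ℝ) ≤ (720*m^4 + 143464*m^3 + 10719517*m^2 + 355971726*m + 4432793807)*t2 := mul_nonneg (by positivity) a2
  have h6 : (0:ℝ) < (108*m^3 + 16275*m^2 + 817493*m + 13687144) := by positivity
  linarith

theorem q_5_6_7_7 {m : ℝ} (hm : 0 ≤ m) : Q m .e5 .e6 .e7 .e7 := by
  intro t0 t1 t2 t3 a0 b0 a1 b1 a2 b2 a3 b3 h1 h2 h3 h4
  simp only [px, py, dx, dy] at h1 h2 h3 h4 ⊢
  exfalso
  have h : (1620*m^4 + 322173*m^3 + 24026361*m^2 + 796338670*m + 9897655978)*t1 + (504*m^3 + 75470*m^2 + 3766954*m + 62672712) = 0 := by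
    linear_combination (-45*m^2 - 4462*m - 110606)*h1 + (-405*m^3 - 60273*m^2 - 2989968*m - 49440882)*h2 + (14*m + 696)*h3 + (126*m^2 + 12522*m + 311112)*h4
  have h5 : (0:ℝ) ≤ (1620*m^4 + 322173*m^3 + 24026361*m^2 + 796338670*m + 9897655978)*t1 := mul_nonneg (by positivity) a1
  have h6 : (0:ℝ) < (504*m^3 + 75470*m^2 + 3766954*m + 62672712) := by positivity
  linarith

theorem q_5_6_7_8 {m : ℝ} (hm : 0 ≤ m) : Q m .e5 .e6 .e7 .e8 := by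
  intro t0 t1 t2 t3 a0 b0 a1 b1 a2 b2 a3 b3 h1 h2 h3 h4
  simp only [px, py, dx, dy] at h1 h2 h3 h4 ⊢
  exfalso
  have h : (720*m^4 + 143148*m^3 + 10672751*m^2 + 353665110*m + 4394877954)*t1 + (379*m^3 + 55673*m^2 + 2725198*m + 44452392) = 0 := by
    linear_combination (-20*m^2 - 1982*m - 49110)*h1 + (-180*m^3 - 26778*m^2 - 1327944*m - 21952170)*h2 + (-155*m^2 - 15410*m - 383016)*h3 + (-99*m^2 - 9916*m - 248280)*h4
  have h5 : (0:ℝ) ≤ (720*m^4 + 143148*m^3 + 10672751*m^2 + 353665110*m + 4394877954)*t1 := mul_nonneg (by positivity) a1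
  have h6 : (0:ℝ) < (379*m^3 + 55673*m^2 + 2725198*m + 44452392) := by positivity
  linarith

theorem q_5_7_7_7 {m : ℝ} (hm : 0 ≤ m) : Q m .e5 .e7 .e7 .e7 := by
  intro t0 t1 t2 t3 a0 b0 a1 b1 a2 b2 a3 b3 h1 h2 h3 h4
  simp only [px, py, dx, dy] at h1 h2 h3 h4 ⊢
  exfalso
  have h : (14*m + 696)*(1 - t0) + (36*m^2 + 3601*m + 90047) = 0 := by
    linear_combination (-1)*h1 + (-9*m - 447)*h2
  have h5 : (0:ℝ) ≤ (14*m + 696)*(1 - t0) := mul_nonneg (by positivity) (by linarith)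
  have h6 : (0:ℝ) < (36*m^2 + 3601*m + 90047) := by positivity
  linarith

theorem q_5_7_7_8 {m : ℝ} (hm : 0 ≤ m) : Q m .e5 .e7 .e7 .e8 := by
  intro t0 t1 t2 t3 a0 b0 a1 b1 a2 b2 a3 b3 h1 h2 h3 h4
  simp only [px, py, dx, dy] at h1 h2 h3 h4 ⊢
  exfalso
  have h : (891*m^3 + 133652*m^2 + 6682382*m + 111364176)*(1 - t1) + (720*m^4 + 142636*m^3 + 10594772*m^2 + 349707926*m + 4327966170) = 0 := by
    linear_combination (-20*m^2 - 1982*m - 49110)*h1 + (-180*m^3 - 26778*m^2 - 1327944*m - 21952170)*h2 + (-155*m^2 - 15410*m - 383016)*h3 + (-99*m^2 - 9916*m - 248280)*h4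
  have h5 : (0:ℝ) ≤ (891*m^3 + 133652*m^2 + 6682382*m + 111364176)*(1 - t1) := mul_nonneg (by positivity) (by linarith)
  have h6 : (0:ℝ) < (720*m^4 + 142636*m^3 + 10594772*m^2 + 349707926*m + 4327966170) := by positivity
  linarith

theorem q_5_7_10_15 {m : ℝ} (hm : 0 ≤ m) : Q m .e5 .e7 .e10 .e15 := by
  intro t0 t1 t2 t3 a0 b0 a1 b1 a2 b2 a3 b3 h1 h2 h3 h4
  simp only [px, py, dx, dy] at h1 h2 h3 h4 ⊢
  exfalso
  have h : (101*m^2 + 10009*m + 247969)*(1 - t0) + (27*m^2 + 2621*m + 63581) = 0 := by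
    linear_combination (-36*m^2 - 3552*m - 87613)*h2 + (9*m + 446)*h3 + (-4*m - 197)*h4
  have h5 : (0:ℝ) ≤ (101*m^2 + 10009*m + 247969)*(1 - t0) := mul_nonneg (by positivity) (by linarith)
  have h6 : (0:ℝ) < (27*m^2 + 2621*m + 63581) := by positivity
  linarith

theorem q_6_6_6_6 {m : ℝ} (hm : 0 ≤ m) : Q m .e6 .e6 .e6 .e6 := by
  refine sing ?_
  have h : dx m .e6 ^ 2 + dy m .e6 ^ 2 = (4*m + 200)^2 + (4*m + 201)^2 := by
    simp only [dx, dy] <;> ring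
  rw [h]; positivity

theorem q_6_6_6_7 {m : ℝ} (hm : 0 ≤ m) : Q m .e6 .e6 .e6 .e7 := by
  intro t0 t1 t2 t3 a0 b0 a1 b1 a2 b2 a3 b3 h1 h2 h3 h4
  simp only [px, py, dx, dy] at h1 h2 h3 h4 ⊢
  have wx : (32*m^2 + 3208*m + 80401)*((5*m + 250) + t1*(4*m + 200) - ((5*m + 250) + t0*(4*m + 200))) = 0 := by
    linear_combination (16*m^2 + 1604*m + 40200)*h1 + (-16*m^2 - 1600*m - 40000)*h2 + (16*m^2 + 1604*m + 40200)*h3 + (-16*m^2 - 1600*m - 40000)*h4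
  have Dx : (0:ℝ) < (32*m^2 + 3208*m + 80401) := by positivity
  have wy : (32*m^2 + 3208*m + 80401)*((-4*m - 202) + t1*(4*m + 201) - ((-4*m - 202) + t0*(4*m + 201))) = 0 := by
    linear_combination (16*m^2 + 1608*m + 40401)*h1 + (-16*m^2 - 1604*m - 40200)*h2 + (16*m^2 + 1608*m + 40401)*h3 + (-16*m^2 - 1604*m - 40200)*h4
  have Dy : (0:ℝ) < (32*m^2 + 3208*m + 80401) := by positivity
  exact Or.inl ⟨sub_eq_zero.mp ((mul_eq_zero.mp wx).resolve_left Dx.ne'),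
    sub_eq_zero.mp ((mul_eq_zero.mp wy).resolve_left Dy.ne')⟩

theorem q_6_6_7_7 {m : ℝ} (hm : 0 ≤ m) : Q m .e6 .e6 .e7 .e7 := by
  intro t0 t1 t2 t3 a0 b0 a1 b1 a2 b2 a3 b3 h1 h2 h3 h4
  simp only [px, py, dx, dy] at h1 h2 h3 h4 ⊢
  have wx : (36*m^2 + 3601*m + 90047)*((5*m + 250) + t1*(4*m + 200) - ((5*m + 250) + t0*(4*m + 200))) = 0 := by
    linear_combination (-4*m - 200)*h1 + (-36*m^2 - 3588*m - 89400)*h2
  have Dx : (0:ℝ) < (36*m^2 + 3601*m + 90047) := by positivity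
  have wy : (36*m^2 + 3601*m + 90047)*((-4*m - 202) + t1*(4*m + 201) - ((-4*m - 202) + t0*(4*m + 201))) = 0 := by
    linear_combination (-4*m - 201)*h1 + (-36*m^2 - 3597*m - 89847)*h2
  have Dy : (0:ℝ) < (36*m^2 + 3601*m + 90047) := by positivity
  exact Or.inl ⟨sub_eq_zero.mp ((mul_eq_zero.mp wx).resolve_left Dx.ne'),
    sub_eq_zero.mp ((mul_eq_zero.mp wy).resolve_left Dy.ne')⟩

theorem q_6_7_6_7 {m : ℝ} (hm : 0 ≤ m) : Q m .e6 .e7 .e6 .e7 := by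
  intro t0 t1 t2 t3 a0 b0 a1 b1 a2 b2 a3 b3 h1 h2 h3 h4
  simp only [px, py, dx, dy] at h1 h2 h3 h4 ⊢
  have wx : (72*m^2 + 7168*m + 178398)*((9*m + 450) + t1*(-9*m - 447) - ((5*m + 250) + t0*(4*m + 200))) = 0 := by
    linear_combination (36*m^2 + 3601*m + 90048)*h1 + (-36*m^2 - 3592*m - 89600)*h2 + (36*m^2 + 3593*m + 89647)*h3 + (-108*m^2 - 10777*m - 268847)*h4
  have Dx : (0:ℝ) < (72*m^2 + 7168*m + 178398) := by positivity
  have wy : (72*m^2 + 7168*m + 178398)*((-1) + t1*(1) - ((-4*m - 202) + t0*(4*m + 201))) = 0 := by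
    linear_combination (36*m^2 + 3593*m + 89646)*h1 + (-36*m^2 - 3584*m - 89200)*h2 + (36*m^2 + 3593*m + 89645)*h3 + (-36*m^2 - 3593*m - 89647)*h4
  have Dy : (0:ℝ) < (72*m^2 + 7168*m + 178398) := by positivity
  exact Or.inl ⟨sub_eq_zero.mp ((mul_eq_zero.mp wx).resolve_left Dx.ne'),
    sub_eq_zero.mp ((mul_eq_zero.mp wy).resolve_left Dy.ne')⟩

theorem q_6_7_7_7 {m : ℝ} (hm : 0 ≤ m) : Q m .e6 .e7 .e7 .e7 := by
  intro t0 t1 t2 t3 a0 b0 a1 b1 a2 b2 a3 b3 h1 h2 h3 h4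
  simp only [px, py, dx, dy] at h1 h2 h3 h4 ⊢
  have wx : (81*m^2 + 8046*m + 199810)*((9*m + 450) + t1*(-9*m - 447) - ((5*m + 250) + t0*(4*m + 200))) = 0 := by
    linear_combination (-9*m - 448)*h1 + (-81*m^2 - 8055*m - 200256)*h2 + (-9*m - 447)*h3 + (-81*m^2 - 8046*m - 199809)*h4
  have Dx : (0:ℝ) < (81*m^2 + 8046*m + 199810) := by positivity
  have wy : (81*m^2 + 8046*m + 199810)*((-1) + t1*(1) - ((-4*m - 202) + t0*(4*m + 201))) = 0 := by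
    linear_combination (-9*m - 446)*h1 + (-81*m^2 - 8037*m - 199362)*h2 + 1*h3 + (9*m + 447)*h4
  have Dy : (0:ℝ) < (81*m^2 + 8046*m + 199810) := by positivity
  exact Or.inl ⟨sub_eq_zero.mp ((mul_eq_zero.mp wx).resolve_left Dx.ne'),
    sub_eq_zero.mp ((mul_eq_zero.mp wy).resolve_left Dy.ne')⟩

theorem q_7_7_7_7 {m : ℝ} (hm : 0 ≤ m) : Q m .e7 .e7 .e7 .e7 := by
  refine sing ?_
  have h : dx m .e7 ^ 2 + dy m .e7 ^ 2 = (9*m + 447)^2 + (1)^2 := by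
    simp only [dx, dy] <;> ring
  rw [h]; positivity

theorem q_7_7_7_8 {m : ℝ} (hm : 0 ≤ m) : Q m .e7 .e7 .e7 .e8 := by
  intro t0 t1 t2 t3 a0 b0 a1 b1 a2 b2 a3 b3 h1 h2 h3 h4
  simp only [px, py, dx, dy] at h1 h2 h3 h4 ⊢
  have wx : (81*m^2 + 8046*m + 199810)*((9*m + 450) + t1*(-9*m - 447) - ((9*m + 450) + t0*(-9*m - 447))) = 0 := by
    linear_combination (-9*m - 447)*h1 + (-81*m^2 - 8046*m - 199809)*h2 + (-9*m - 447)*h3 + (-81*m^2 - 8046*m - 199809)*h4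
  have Dx : (0:ℝ) < (81*m^2 + 8046*m + 199810) := by positivity
  have wy : (81*m^2 + 8046*m + 199810)*((-1) + t1*(1) - ((-1) + t0*(1))) = 0 := by
    linear_combination 1*h1 + (9*m + 447)*h2 + 1*h3 + (9*m + 447)*h4
  have Dy : (0:ℝ) < (81*m^2 + 8046*m + 199810) := by positivity
  exact Or.inl ⟨sub_eq_zero.mp ((mul_eq_zero.mp wx).resolve_left Dx.ne'),
    sub_eq_zero.mp ((mul_eq_zero.mp wy).resolve_left Dy.ne')⟩

theorem q_7_7_7_9 {m : ℝ} (hm : 0 ≤ m) : Q m .e7 .e7 .e7 .e9 := by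
  intro t0 t1 t2 t3 a0 b0 a1 b1 a2 b2 a3 b3 h1 h2 h3 h4
  simp only [px, py, dx, dy] at h1 h2 h3 h4 ⊢
  exfalso
  have h : (36*m^2 + 3561*m + 88058)*t3 + (31*m + 1536) = 0 := by
    linear_combination (-1)*h1 + (-9*m - 447)*h2
  have h5 : (0:ℝ) ≤ (36*m^2 + 3561*m + 88058)*t3 := mul_nonneg (by positivity) a3
  have h6 : (0:ℝ) < (31*m + 1536) := by positivity
  linarith

theorem q_7_7_8_8 {m : ℝ} (hm : 0 ≤ m) : Q m .e7 .e7 .e8 .e8 := by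
  intro t0 t1 t2 t3 a0 b0 a1 b1 a2 b2 a3 b3 h1 h2 h3 h4
  simp only [px, py, dx, dy] at h1 h2 h3 h4 ⊢
  have wx : (31*m + 1536)*((9*m + 450) + t1*(-9*m - 447) - ((9*m + 450) + t0*(-9*m - 447))) = 0 := by
    linear_combination (-27*m - 1341)*h1 + (36*m^2 + 3543*m + 87165)*h2
  have Dx : (0:ℝ) < (31*m + 1536) := by positivity
  have wy : (31*m + 1536)*((-1) + t1*(1) - ((-1) + t0*(1))) = 0 := by
    linear_combination 3*h1 + (-4*m - 195)*h2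
  have Dy : (0:ℝ) < (31*m + 1536) := by positivity
  exact Or.inl ⟨sub_eq_zero.mp ((mul_eq_zero.mp wx).resolve_left Dx.ne'),
    sub_eq_zero.mp ((mul_eq_zero.mp wy).resolve_left Dy.ne')⟩

theorem q_7_7_9_8 {m : ℝ} (hm : 0 ≤ m) : Q m .e7 .e7 .e9 .e8 := by
  intro t0 t1 t2 t3 a0 b0 a1 b1 a2 b2 a3 b3 h1 h2 h3 h4
  simp only [px, py, dx, dy] at h1 h2 h3 h4 ⊢
  exfalso
  have h : (1296*m^4 + 256860*m^3 + 19090633*m^2 + 630612802*m + 7811557668)*t2 + (961*m^2 + 95232*m + 2359296) = 0 := by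
    linear_combination (-243*m^2 - 24107*m - 597894)*h1 + (324*m^3 + 48258*m^2 + 2395891*m + 39649542)*h2 + (31*m + 1536)*h3 + (279*m^2 + 27681*m + 686592)*h4
  have h5 : (0:ℝ) ≤ (1296*m^4 + 256860*m^3 + 19090633*m^2 + 630612802*m + 7811557668)*t2 := mul_nonneg (by positivity) a2
  have h6 : (0:ℝ) < (961*m^2 + 95232*m + 2359296) := by positivity
  linarith

theorem q_7_8_7_8 {m : ℝ} (hm : 0 ≤ m) : Q m .e7 .e8 .e7 .e8 := by
  intro t0 t1 t2 t3 a0 b0 a1 b1 a2 b2 a3 b3 h1 h2 h3 h4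
  simp only [px, py, dx, dy] at h1 h2 h3 h4 ⊢
  have wx : (72*m^2 + 7086*m + 174324)*((3) + t1*(4*m + 195) - ((9*m + 450) + t0*(-9*m - 447))) = 0 := by
    linear_combination (-4*m - 192)*h1 + (-36*m^2 - 3516*m - 85824)*h2 + (23*m + 1146)*h3 + (-72*m^2 - 7055*m - 172794)*h4
  have Dx : (0:ℝ) < (72*m^2 + 7086*m + 174324) := by positivity
  have wy : (72*m^2 + 7086*m + 174324)*((0) + t1*(3) - ((-1) + t0*(1))) = 0 := by
    linear_combination (-4*m - 198)*h1 + (-36*m^2 - 3570*m - 88506)*h2 + (-31*m - 1542)*h3 + (-23*m - 1146)*h4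
  have Dy : (0:ℝ) < (72*m^2 + 7086*m + 174324) := by positivity
  exact Or.inl ⟨sub_eq_zero.mp ((mul_eq_zero.mp wx).resolve_left Dx.ne'),
    sub_eq_zero.mp ((mul_eq_zero.mp wy).resolve_left Dy.ne')⟩

theorem q_7_8_8_8 {m : ℝ} (hm : 0 ≤ m) : Q m .e7 .e8 .e8 .e8 := by
  intro t0 t1 t2 t3 a0 b0 a1 b1 a2 b2 a3 b3 h1 h2 h3 h4
  simp only [px, py, dx, dy] at h1 h2 h3 h4 ⊢
  have wx : (16*m^2 + 1560*m + 38034)*((3) + t1*(4*m + 195) - ((9*m + 450) + t0*(-9*m - 447))) = 0 := by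
    linear_combination (12*m + 576)*h1 + (-16*m^2 - 1548*m - 37440)*h2 + (12*m + 585)*h3 + (-16*m^2 - 1560*m - 38025)*h4
  have Dx : (0:ℝ) < (16*m^2 + 1560*m + 38034) := by positivity
  have wy : (16*m^2 + 1560*m + 38034)*((0) + t1*(3) - ((-1) + t0*(1))) = 0 := by
    linear_combination (12*m + 594)*h1 + (-16*m^2 - 1572*m - 38610)*h2 + 9*h3 + (-12*m - 585)*h4
  have Dy : (0:ℝ) < (16*m^2 + 1560*m + 38034) := by positivity
  exact Or.inl ⟨sub_eq_zero.mp ((mul_eq_zero.mp wx).resolve_left Dx.ne'),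
    sub_eq_zero.mp ((mul_eq_zero.mp wy).resolve_left Dy.ne')⟩

end Boat
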