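import Pool.Agent.helper91.SB.Def

/-! Squares inscribed in the 16-gon: classes of edge quadruples, part 4. -/

namespace Boat

theorem q_7_9_8_8 {m : ℝ} (hm : 0 ≤ m) : Q m .e7 .e9 .e8 .e8 := by
  intro t0 t1 t2 t3 a0 b0 a1 b1 a2 b2 a3 b3 h1 h2 h3 h4
  simp only [px, py, dx, dy] at h1 h2 h3 h4 ⊢
  exfalso
  have h : (576*m^4 + 113632*m^3 + 8406496*m^2 + 276408960*m + 3408208020)*t1 + (496*m^3 + 72936*m^2 + 3575214*m + 58420224) = 0 := by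
    linear_combination (108*m^2 + 10722*m + 266094)*h1 + (-144*m^3 - 21316*m^2 - 1051722*m - 17296110)*h2 + (93*m + 4608)*h3 + (-124*m^2 - 12189*m - 299520)*h4
  have h5 : (0:ℝ) ≤ (576*m^4 + 113632*m^3 + 8406496*m^2 + 276408960*m + 3408208020)*t1 := mul_nonneg (by positivity) a1
  have h6 : (0:ℝ) < (496*m^3 + 72936*m^2 + 3575214*m + 58420224) := by positivity
  linarith

theorem q_7_9_10_11 {m : ℝ} (hm : 0 ≤ m) : Q m .e7 .e9 .e10 .e11 := by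
  intro t0 t1 t2 t3 a0 b0 a1 b1 a2 b2 a3 b3 h1 h2 h3 h4
  simp only [px, py, dx, dy] at h1 h2 h3 h4 ⊢
  exfalso
  have h : (56*m^2 + 5601*m + 140023)*t0 + (24*m^2 + 2147*m + 47539) = 0 := by
    linear_combination (16*m^2 + 1564*m + 38215)*h2 + (16*m^2 + 1560*m + 38024)*h3 + (16*m^2 + 1552*m + 37627)*h4
  have h5 : (0:ℝ) ≤ (56*m^2 + 5601*m + 140023)*t0 := mul_nonneg (by positivity) a0
  have h6 : (0:ℝ) < (24*m^2 + 2147*m + 47539) := by positivity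
  linarith

theorem q_7_9_10_12 {m : ℝ} (hm : 0 ≤ m) : Q m .e7 .e9 .e10 .e12 := by
  intro t0 t1 t2 t3 a0 b0 a1 b1 a2 b2 a3 b3 h1 h2 h3 h4
  simp only [px, py, dx, dy] at h1 h2 h3 h4 ⊢
  exfalso
  have h : (153*m^2 + 15137*m + 374390)*t1 + (126*m^2 + 12531*m + 311561) = 0 := by
    linear_combination (81*m^2 + 8010*m + 198022)*h2 + (81*m^2 + 8028*m + 198915)*h3 + (81*m^2 + 8019*m + 198469)*h4
  have h5 : (0:ℝ) ≤ (153*m^2 + 15137*m + 374390)*t1 := mul_nonneg (by positivity) a1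
  have h6 : (0:ℝ) < (126*m^2 + 12531*m + 311561) := by positivity
  linarith

theorem q_8_8_8_8 {m : ℝ} (hm : 0 ≤ m) : Q m .e8 .e8 .e8 .e8 := by
  refine sing ?_
  have h : dx m .e8 ^ 2 + dy m .e8 ^ 2 = (4*m + 195)^2 + (3)^2 := by
    simp only [dx, dy] <;> ring
  rw [h]; positivity

theorem q_8_8_8_9 {m : ℝ} (hm : 0 ≤ m) : Q m .e8 .e8 .e8 .e9 := by
  intro t0 t1 t2 t3 a0 b0 a1 b1 a2 b2 a3 b3 h1 h2 h3 h4
  simp only [px, py, dx, dy] at h1 h2 h3 h4 ⊢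
  have wx : (16*m^2 + 1560*m + 38034)*((3) + t1*(4*m + 195) - ((3) + t0*(4*m + 195))) = 0 := by
    linear_combination (12*m + 585)*h1 + (-16*m^2 - 1560*m - 38025)*h2 + (12*m + 585)*h3 + (-16*m^2 - 1560*m - 38025)*h4
  have Dx : (0:ℝ) < (16*m^2 + 1560*m + 38034) := by positivity
  have wy : (16*m^2 + 1560*m + 38034)*((0) + t1*(3) - ((0) + t0*(3))) = 0 := by
    linear_combination 9*h1 + (-12*m - 585)*h2 + 9*h3 + (-12*m - 585)*h4
  have Dy : (0:ℝ) < (16*m^2 + 1560*m + 38034) := by positivity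
  exact Or.inl ⟨sub_eq_zero.mp ((mul_eq_zero.mp wx).resolve_left Dx.ne'),
    sub_eq_zero.mp ((mul_eq_zero.mp wy).resolve_left Dy.ne')⟩

theorem q_8_8_9_9 {m : ℝ} (hm : 0 ≤ m) : Q m .e8 .e8 .e9 .e9 := by
  intro t0 t1 t2 t3 a0 b0 a1 b1 a2 b2 a3 b3 h1 h2 h3 h4
  simp only [px, py, dx, dy] at h1 h2 h3 h4 ⊢
  have wx : (16*m^2 + 1568*m + 38418)*((3) + t1*(4*m + 195) - ((3) + t0*(4*m + 195))) = 0 := by
    linear_combination (-16*m^2 - 1568*m - 38415)*h1 + (-4*m - 195)*h2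
  have Dx : (0:ℝ) < (16*m^2 + 1568*m + 38418) := by positivity
  have wy : (16*m^2 + 1568*m + 38418)*((0) + t1*(3) - ((0) + t0*(3))) = 0 := by
    linear_combination (-12*m - 591)*h1 + (-3)*h2
  have Dy : (0:ℝ) < (16*m^2 + 1568*m + 38418) := by positivity
  exact Or.inl ⟨sub_eq_zero.mp ((mul_eq_zero.mp wx).resolve_left Dx.ne'),
    sub_eq_zero.mp ((mul_eq_zero.mp wy).resolve_left Dy.ne')⟩

theorem q_8_8_9_11 {m : ℝ} (hm : 0 ≤ m) : Q m .e8 .e8 .e9 .e11 := by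
  intro t0 t1 t2 t3 a0 b0 a1 b1 a2 b2 a3 b3 h1 h2 h3 h4
  simp only [px, py, dx, dy] at h1 h2 h3 h4 ⊢
  exfalso
  have h : (64*m^4 + 12560*m^3 + 924288*m^2 + 30228720*m + 370715967)*(1 - t1) + (32*m^3 + 4720*m^2 + 232074*m + 3803679) = 0 := by
    linear_combination (16*m^3 + 2368*m^2 + 116803*m + 1920159)*h1 + (4*m^2 + 395*m + 9747)*h2 + (16*m^3 + 2360*m^2 + 116019*m + 1900953)*h3 + (4*m^2 + 401*m + 10044)*h4
  have h5 : (0:ℝ) ≤ (64*m^4 + 12560*m^3 + 924288*m^2 + 30228720*m + 370715967)*(1 - t1) := mul_nonneg (by positivity) (by linarith)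
  have h6 : (0:ℝ) < (32*m^3 + 4720*m^2 + 232074*m + 3803679) := by positivity
  linarith

theorem q_8_9_8_9 {m : ℝ} (hm : 0 ≤ m) : Q m .e8 .e9 .e8 .e9 := by
  intro t0 t1 t2 t3 a0 b0 a1 b1 a2 b2 a3 b3 h1 h2 h3 h4
  simp only [px, py, dx, dy] at h1 h2 h3 h4 ⊢
  have wx : 4*((4*m + 198) + t1*(-1) - ((3) + t0*(4*m + 195))) = 0 := by
    linear_combination (-3)*h1 + (4*m + 195)*h2 + (4*m + 194)*h3 + (4*m + 196)*h4
  have Dx : (0:ℝ) < 4 := by positivity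
  have wy : (4*m + 198)*((3) + t1*(4*m + 197) - ((0) + t0*(3))) = 0 := by
    linear_combination (3*m + 147)*h1 + (-4*m^2 - 391*m - 9555)*h2 + (-4*m^2 - 386*m - 9309)*h3 + (-4*m^2 - 392*m - 9603)*h4
  have Dy : (0:ℝ) < (4*m + 198) := by positivity
  exact Or.inl ⟨sub_eq_zero.mp ((mul_eq_zero.mp wx).resolve_left Dx.ne'),
    sub_eq_zero.mp ((mul_eq_zero.mp wy).resolve_left Dy.ne')⟩

theorem q_8_9_9_9 {m : ℝ} (hm : 0 ≤ m) : Q m .e8 .e9 .e9 .e9 := by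
  intro t0 t1 t2 t3 a0 b0 a1 b1 a2 b2 a3 b3 h1 h2 h3 h4
  simp only [px, py, dx, dy] at h1 h2 h3 h4 ⊢
  have wx : (16*m^2 + 1576*m + 38810)*((4*m + 198) + t1*(-1) - ((3) + t0*(4*m + 195))) = 0 := by
    linear_combination (-16*m^2 - 1580*m - 39006)*h1 + (-4*m - 198)*h2 + (-4*m - 197)*h3 + (-1)*h4
  have Dx : (0:ℝ) < (16*m^2 + 1576*m + 38810) := by positivity
  have wy : (16*m^2 + 1576*m + 38810)*((3) + t1*(4*m + 197) - ((0) + t0*(3))) = 0 := by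
    linear_combination (16*m^2 + 1572*m + 38612)*h1 + (4*m + 196)*h2 + (16*m^2 + 1576*m + 38809)*h3 + (4*m + 197)*h4
  have Dy : (0:ℝ) < (16*m^2 + 1576*m + 38810) := by positivity
  exact Or.inl ⟨sub_eq_zero.mp ((mul_eq_zero.mp wx).resolve_left Dx.ne'),
    sub_eq_zero.mp ((mul_eq_zero.mp wy).resolve_left Dy.ne')⟩

theorem q_8_9_9_11 {m : ℝ} (hm : 0 ≤ m) : Q m .e8 .e9 .e9 .e11 := by
  intro t0 t1 t2 t3 a0 b0 a1 b1 a2 b2 a3 b3 h1 h2 h3 h4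
  simp only [px, py, dx, dy] at h1 h2 h3 h4 ⊢
  exfalso
  have h : (64*m^4 + 12592*m^3 + 929000*m^2 + 30459956*m + 374497785)*t1 + (32*m^3 + 4720*m^2 + 232074*m + 3803679) = 0 := by
    linear_combination (16*m^3 + 2368*m^2 + 116803*m + 1920159)*h1 + (4*m^2 + 395*m + 9747)*h2 + (16*m^3 + 2360*m^2 + 116019*m + 1900953)*h3 + (4*m^2 + 401*m + 10044)*h4
  have h5 : (0:ℝ) ≤ (64*m^4 + 12592*m^3 + 929000*m^2 + 30459956*m + 374497785)*t1 := mul_nonneg (by positivity) a1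
  have h6 : (0:ℝ) < (32*m^3 + 4720*m^2 + 232074*m + 3803679) := by positivity
  linarith

theorem q_8_9_10_11 {m : ℝ} (hm : 0 ≤ m) : Q m .e8 .e9 .e10 .e11 := by
  intro t0 t1 t2 t3 a0 b0 a1 b1 a2 b2 a3 b3 h1 h2 h3 h4
  simp only [px, py, dx, dy] at h1 h2 h3 h4 ⊢
  exfalso
  have h : (80*m^2 + 7792*m + 189723)*(1 - t3) + (36*m + 1767) = 0 := by
    linear_combination (16*m^2 + 1560*m + 38022)*h2 + (16*m^2 + 1556*m + 37827)*h3 + (16*m^2 + 1568*m + 38415)*h4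
  have h5 : (0:ℝ) ≤ (80*m^2 + 7792*m + 189723)*(1 - t3) := mul_nonneg (by positivity) (by linarith)
  have h6 : (0:ℝ) < (36*m + 1767) := by positivity
  linarith

theorem q_8_9_10_12 {m : ℝ} (hm : 0 ≤ m) : Q m .e8 .e9 .e10 .e12 := by
  intro t0 t1 t2 t3 a0 b0 a1 b1 a2 b2 a3 b3 h1 h2 h3 h4
  simp only [px, py, dx, dy] at h1 h2 h3 h4 ⊢
  exfalso
  have h : (56*m^2 + 5541*m + 137058)*t3 + (36*m + 1767) = 0 := by
    linear_combination (16*m^2 + 1560*m + 38022)*h2 + (16*m^2 + 1556*m + 37827)*h3 + (16*m^2 + 1568*m + 38415)*h4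
  have h5 : (0:ℝ) ≤ (56*m^2 + 5541*m + 137058)*t3 := mul_nonneg (by positivity) a3
  have h6 : (0:ℝ) < (36*m + 1767) := by positivity
  linarith

theorem q_9_9_9_9 {m : ℝ} (hm : 0 ≤ m) : Q m .e9 .e9 .e9 .e9 := by
  refine sing ?_
  have h : dx m .e9 ^ 2 + dy m .e9 ^ 2 = (1)^2 + (4*m + 197)^2 := by
    simp only [dx, dy] <;> ring
  rw [h]; positivity

theorem q_9_9_9_10 {m : ℝ} (hm : 0 ≤ m) : Q m .e9 .e9 .e9 .e10 := by
  intro t0 t1 t2 t3 a0 b0 a1 b1 a2 b2 a3 b3 h1 h2 h3 h4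
  simp only [px, py, dx, dy] at h1 h2 h3 h4 ⊢
  have wx : (16*m^2 + 1576*m + 38810)*((4*m + 198) + t1*(-1) - ((4*m + 198) + t0*(-1))) = 0 := by
    linear_combination (-4*m - 197)*h1 + (-1)*h2 + (-4*m - 197)*h3 + (-1)*h4
  have Dx : (0:ℝ) < (16*m^2 + 1576*m + 38810) := by positivity
  have wy : (16*m^2 + 1576*m + 38810)*((3) + t1*(4*m + 197) - ((3) + t0*(4*m + 197))) = 0 := by
    linear_combination (16*m^2 + 1576*m + 38809)*h1 + (4*m + 197)*h2 + (16*m^2 + 1576*m + 38809)*h3 + (4*m + 197)*h4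
  have Dy : (0:ℝ) < (16*m^2 + 1576*m + 38810) := by positivity
  exact Or.inl ⟨sub_eq_zero.mp ((mul_eq_zero.mp wx).resolve_left Dx.ne'),
    sub_eq_zero.mp ((mul_eq_zero.mp wy).resolve_left Dy.ne')⟩

theorem q_9_9_10_10 {m : ℝ} (hm : 0 ≤ m) : Q m .e9 .e9 .e10 .e10 := by
  intro t0 t1 t2 t3 a0 b0 a1 b1 a2 b2 a3 b3 h1 h2 h3 h4
  simp only [px, py, dx, dy] at h1 h2 h3 h4 ⊢
  have wx : (4*m + 197)*((4*m + 198) + t1*(-1) - ((4*m + 198) + t0*(-1))) = 0 := by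
    linear_combination 1*h2
  have Dx : (0:ℝ) < (4*m + 197) := by positivity
  have wy : 1*((3) + t1*(4*m + 197) - ((3) + t0*(4*m + 197))) = 0 := by
    linear_combination (-1)*h2
  have Dy : (0:ℝ) < 1 := by positivity
  exact Or.inl ⟨sub_eq_zero.mp ((mul_eq_zero.mp wx).resolve_left Dx.ne'),
    sub_eq_zero.mp ((mul_eq_zero.mp wy).resolve_left Dy.ne')⟩

theorem q_9_10_9_10 {m : ℝ} (hm : 0 ≤ m) : Q m .e9 .e10 .e9 .e10 := by
  intro t0 t1 t2 t3 a0 b0 a1 b1 a2 b2 a3 b3 h1 h2 h3 h4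
  simp only [px, py, dx, dy] at h1 h2 h3 h4 ⊢
  have wx : 2*((4*m + 197) + t1*(-4*m - 194) - ((4*m + 198) + t0*(-1))) = 0 := by
    linear_combination (-4*m - 197)*h1 + (-1)*h2 + (-4*m - 197)*h3 + (4*m + 195)*h4
  have Dx : (0:ℝ) < 2 := by positivity
  have wy : 2*((4*m + 200) + t1*(0) - ((3) + t0*(4*m + 197))) = 0 := by
    linear_combination (-4*m - 197)*h1 + (-1)*h2 + (-4*m - 197)*h3 + (4*m + 197)*h4
  have Dy : (0:ℝ) < 2 := by positivity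
  exact Or.inl ⟨sub_eq_zero.mp ((mul_eq_zero.mp wx).resolve_left Dx.ne'),
    sub_eq_zero.mp ((mul_eq_zero.mp wy).resolve_left Dy.ne')⟩

theorem q_9_10_10_10 {m : ℝ} (hm : 0 ≤ m) : Q m .e9 .e10 .e10 .e10 := by
  intro t0 t1 t2 t3 a0 b0 a1 b1 a2 b2 a3 b3 h1 h2 h3 h4
  simp only [px, py, dx, dy] at h1 h2 h3 h4 ⊢
  have wx : 1*((4*m + 197) + t1*(-4*m - 194) - ((4*m + 198) + t0*(-1))) = 0 := by
    linear_combination (-1)*h2 + (-1)*h4
  have Dx : (0:ℝ) < 1 := by positivity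
  have wy : 1*((4*m + 200) + t1*(0) - ((3) + t0*(4*m + 197))) = 0 := by
    linear_combination (-1)*h2
  have Dy : (0:ℝ) < 1 := by positivity
  exact Or.inl ⟨sub_eq_zero.mp ((mul_eq_zero.mp wx).resolve_left Dx.ne'),
    sub_eq_zero.mp ((mul_eq_zero.mp wy).resolve_left Dy.ne')⟩

theorem q_9_12_14_15 {m : ℝ} (hm : 0 ≤ m) : Q m .e9 .e12 .e14 .e15 := by
  intro t0 t1 t2 t3 a0 b0 a1 b1 a2 b2 a3 b3 h1 h2 h3 h4
  simp only [px, py, dx, dy] at h1 h2 h3 h4 ⊢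
  exfalso
  have h : (144*m^3 + 21304*m^2 + 1050591*m + 17269507)*(1 - t3) + (68*m^2 + 6729*m + 166476) = 0 := by
    linear_combination (36*m^2 + 3558*m + 87914)*h1 + (-4*m - 197)*h3 + (-5*m - 249)*h4
  have h5 : (0:ℝ) ≤ (144*m^3 + 21304*m^2 + 1050591*m + 17269507)*(1 - t3) := mul_nonneg (by positivity) (by linarith)
  have h6 : (0:ℝ) < (68*m^2 + 6729*m + 166476) := by positivity
  linarith

theorem q_10_10_10_10 {m : ℝ} (hm : 0 ≤ m) : Q m .e10 .e10 .e10 .e10 := by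
  refine sing ?_
  have h : dx m .e10 ^ 2 + dy m .e10 ^ 2 = (4*m + 194)^2 + (0)^2 := by
    simp only [dx, dy] <;> ring
  rw [h]; positivity

theorem q_10_10_10_11 {m : ℝ} (hm : 0 ≤ m) : Q m .e10 .e10 .e10 .e11 := by
  intro t0 t1 t2 t3 a0 b0 a1 b1 a2 b2 a3 b3 h1 h2 h3 h4
  simp only [px, py, dx, dy] at h1 h2 h3 h4 ⊢
  have wx : 1*((4*m + 197) + t1*(-4*m - 194) - ((4*m + 197) + t0*(-4*m - 194))) = 0 := by
    linear_combination (-1)*h2 + (-1)*h4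
  have Dx : (0:ℝ) < 1 := by positivity
  have wy : 1*((4*m + 200) + t1*(0) - ((4*m + 200) + t0*(0))) = 0 := by
    linear_combination 0
  have Dy : (0:ℝ) < 1 := by positivity
  exact Or.inl ⟨sub_eq_zero.mp ((mul_eq_zero.mp wx).resolve_left Dx.ne'),
    sub_eq_zero.mp ((mul_eq_zero.mp wy).resolve_left Dy.ne')⟩

theorem q_10_10_11_11 {m : ℝ} (hm : 0 ≤ m) : Q m .e10 .e10 .e11 .e11 := by
  intro t0 t1 t2 t3 a0 b0 a1 b1 a2 b2 a3 b3 h1 h2 h3 h4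
  simp only [px, py, dx, dy] at h1 h2 h3 h4 ⊢
  have wx : (4*m + 194)*((4*m + 197) + t1*(-4*m - 194) - ((4*m + 197) + t0*(-4*m - 194))) = 0 := by
    linear_combination (-4*m - 194)*h1 + 3*h2
  have Dx : (0:ℝ) < (4*m + 194) := by positivity
  have wy : 1*((4*m + 200) + t1*(0) - ((4*m + 200) + t0*(0))) = 0 := by
    linear_combination 0
  have Dy : (0:ℝ) < 1 := by positivity
  exact Or.inl ⟨sub_eq_zero.mp ((mul_eq_zero.mp wx).resolve_left Dx.ne'),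
    sub_eq_zero.mp ((mul_eq_zero.mp wy).resolve_left Dy.ne')⟩

theorem q_10_11_10_11 {m : ℝ} (hm : 0 ≤ m) : Q m .e10 .e11 .e10 .e11 := by
  intro t0 t1 t2 t3 a0 b0 a1 b1 a2 b2 a3 b3 h1 h2 h3 h4
  simp only [px, py, dx, dy] at h1 h2 h3 h4 ⊢
  have wx : 6*((3) + t1*(-3) - ((4*m + 197) + t0*(-4*m - 194))) = 0 := by
    linear_combination (4*m + 191)*h2 + (4*m + 194)*h3 + (4*m + 188)*h4
  have Dx : (0:ℝ) < 6 := by positivity
  have wy : 6*((4*m + 200) + t1*(-4*m - 194) - ((4*m + 200) + t0*(0))) = 0 := by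
    linear_combination (-4*m - 197)*h2 + (-4*m - 194)*h3 + (-4*m - 194)*h4
  have Dy : (0:ℝ) < 6 := by positivity
  exact Or.inl ⟨sub_eq_zero.mp ((mul_eq_zero.mp wx).resolve_left Dx.ne'),
    sub_eq_zero.mp ((mul_eq_zero.mp wy).resolve_left Dy.ne')⟩

theorem q_10_11_11_11 {m : ℝ} (hm : 0 ≤ m) : Q m .e10 .e11 .e11 .e11 := by
  intro t0 t1 t2 t3 a0 b0 a1 b1 a2 b2 a3 b3 h1 h2 h3 h4
  simp only [px, py, dx, dy] at h1 h2 h3 h4 ⊢
  have wx : (16*m^2 + 1552*m + 37645)*((3) + t1*(-3) - ((4*m + 197) + t0*(-4*m - 194))) = 0 := by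
    linear_combination (-16*m^2 - 1540*m - 37054)*h1 + (12*m + 573)*h2 + (12*m + 582)*h3 + (-9)*h4
  have Dx : (0:ℝ) < (16*m^2 + 1552*m + 37645) := by positivity
  have wy : (16*m^2 + 1552*m + 37645)*((4*m + 200) + t1*(-4*m - 194) - ((4*m + 200) + t0*(0))) = 0 := by
    linear_combination (16*m^2 + 1564*m + 38218)*h1 + (-12*m - 591)*h2 + (16*m^2 + 1552*m + 37636)*h3 + (-12*m - 582)*h4
  have Dy : (0:ℝ) < (16*m^2 + 1552*m + 37645) := by positivity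
  exact Or.inl ⟨sub_eq_zero.mp ((mul_eq_zero.mp wx).resolve_left Dx.ne'),
    sub_eq_zero.mp ((mul_eq_zero.mp wy).resolve_left Dy.ne')⟩

theorem q_10_12_11_11 {m : ℝ} (hm : 0 ≤ m) : Q m .e10 .e12 .e11 .e11 := by
  intro t0 t1 t2 t3 a0 b0 a1 b1 a2 b2 a3 b3 h1 h2 h3 h4
  simp only [px, py, dx, dy] at h1 h2 h3 h4 ⊢
  exfalso
  have h : (576*m^4 + 112784*m^3 + 8281428*m^2 + 270260154*m + 3307438294)*(1 - t0) + (496*m^3 + 72576*m^2 + 3540003*m + 57559205) = 0 := by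
    linear_combination (144*m^3 + 21088*m^2 + 1029352*m + 16747438)*h1 + (-108*m^2 - 10578*m - 258981)*h2 + (-124*m^2 - 12130*m - 296626)*h3 + (93*m + 4587)*h4
  have h5 : (0:ℝ) ≤ (576*m^4 + 112784*m^3 + 8281428*m^2 + 270260154*m + 3307438294)*(1 - t0) := mul_nonneg (by positivity) (by linarith)
  have h6 : (0:ℝ) < (496*m^3 + 72576*m^2 + 3540003*m + 57559205) := by positivity
  linarith

theorem q_10_12_12_11 {m : ℝ} (hm : 0 ≤ m) : Q m .e10 .e12 .e12 .e11 := by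
  intro t0 t1 t2 t3 a0 b0 a1 b1 a2 b2 a3 b3 h1 h2 h3 h4
  simp only [px, py, dx, dy] at h1 h2 h3 h4 ⊢
  exfalso
  have h : (1296*m^4 + 254988*m^3 + 18812802*m^2 + 616868196*m + 7584905106)*(1 - t0) + (961*m^2 + 94798*m + 2337841) = 0 := by
    linear_combination (324*m^3 + 47754*m^2 + 2346013*m + 38415515)*h1 + (36*m^2 + 3526*m + 86327)*h2 + (-31*m - 1529)*h3 + (279*m^2 + 27556*m + 680405)*h4
  have h5 : (0:ℝ) ≤ (1296*m^4 + 254988*m^3 + 18812802*m^2 + 616868196*m + 7584905106)*(1 - t0) := mul_nonneg (by positivity) (by linarith)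
  have h6 : (0:ℝ) < (961*m^2 + 94798*m + 2337841) := by positivity
  linarith

theorem q_10_12_12_12 {m : ℝ} (hm : 0 ≤ m) : Q m .e10 .e12 .e12 .e12 := by
  intro t0 t1 t2 t3 a0 b0 a1 b1 a2 b2 a3 b3 h1 h2 h3 h4
  simp only [px, py, dx, dy] at h1 h2 h3 h4 ⊢
  exfalso
  have h : (36*m^2 + 3526*m + 86330)*(1 - t0) + (31*m + 1529) = 0 := by
    linear_combination (9*m + 445)*h1 + 1*h2
  have h5 : (0:ℝ) ≤ (36*m^2 + 3526*m + 86330)*(1 - t0) := mul_nonneg (by positivity) (by linarith)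
  have h6 : (0:ℝ) < (31*m + 1529) := by positivity
  linarith

theorem q_11_11_11_11 {m : ℝ} (hm : 0 ≤ m) : Q m .e11 .e11 .e11 .e11 := by
  refine sing ?_
  have h : dx m .e11 ^ 2 + dy m .e11 ^ 2 = (3)^2 + (4*m + 194)^2 := by
    simp only [dx, dy] <;> ring
  rw [h]; positivity

theorem q_11_11_11_12 {m : ℝ} (hm : 0 ≤ m) : Q m .e11 .e11 .e11 .e12 := by
  intro t0 t1 t2 t3 a0 b0 a1 b1 a2 b2 a3 b3 h1 h2 h3 h4
  simp only [px, py, dx, dy] at h1 h2 h3 h4 ⊢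
  have wx : (16*m^2 + 1552*m + 37645)*((3) + t1*(-3) - ((3) + t0*(-3))) = 0 := by
    linear_combination (12*m + 582)*h1 + (-9)*h2 + (12*m + 582)*h3 + (-9)*h4
  have Dx : (0:ℝ) < (16*m^2 + 1552*m + 37645) := by positivity
  have wy : (16*m^2 + 1552*m + 37645)*((4*m + 200) + t1*(-4*m - 194) - ((4*m + 200) + t0*(-4*m - 194))) = 0 := by
    linear_combination (16*m^2 + 1552*m + 37636)*h1 + (-12*m - 582)*h2 + (16*m^2 + 1552*m + 37636)*h3 + (-12*m - 582)*h4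
  have Dy : (0:ℝ) < (16*m^2 + 1552*m + 37645) := by positivity
  exact Or.inl ⟨sub_eq_zero.mp ((mul_eq_zero.mp wx).resolve_left Dx.ne'),
    sub_eq_zero.mp ((mul_eq_zero.mp wy).resolve_left Dy.ne')⟩

end Boat
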