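import Pool.Agent.helper91.SB.Def

/-! Squares inscribed in the 16-gon: classes of edge quadruples, part 5. -/

namespace Boat

theorem q_11_11_12_12 {m : ℝ} (hm : 0 ≤ m) : Q m .e11 .e11 .e12 .e12 := by
  intro t0 t1 t2 t3 a0 b0 a1 b1 a2 b2 a3 b3 h1 h2 h3 h4
  simp only [px, py, dx, dy] at h1 h2 h3 h4 ⊢
  have wx : (31*m + 1529)*((3) + t1*(-3) - ((3) + t0*(-3))) = 0 := by
    linear_combination (-27*m - 1335)*h1 + (-3)*h2
  have Dx : (0:ℝ) < (31*m + 1529) := by positivity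
  have wy : (31*m + 1529)*((4*m + 200) + t1*(-4*m - 194) - ((4*m + 200) + t0*(-4*m - 194))) = 0 := by
    linear_combination (-36*m^2 - 3526*m - 86330)*h1 + (-4*m - 194)*h2
  have Dy : (0:ℝ) < (31*m + 1529) := by positivity
  exact Or.inl ⟨sub_eq_zero.mp ((mul_eq_zero.mp wx).resolve_left Dx.ne'),
    sub_eq_zero.mp ((mul_eq_zero.mp wy).resolve_left Dy.ne')⟩

theorem q_11_12_11_12 {m : ℝ} (hm : 0 ≤ m) : Q m .e11 .e12 .e11 .e12 := by
  intro t0 t1 t2 t3 a0 b0 a1 b1 a2 b2 a3 b3 h1 h2 h3 h4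
  simp only [px, py, dx, dy] at h1 h2 h3 h4 ⊢
  have wx : (72*m^2 + 7052*m + 172654)*((0) + t1*(-1) - ((3) + t0*(-3))) = 0 := by
    linear_combination (-36*m^2 - 3530*m - 86524)*h1 + (27*m + 1338)*h2 + (23*m + 1141)*h3 + (31*m + 1535)*h4
  have Dx : (0:ℝ) < (72*m^2 + 7052*m + 172654) := by positivity
  have wy : (72*m^2 + 7052*m + 172654)*((6) + t1*(9*m + 445) - ((4*m + 200) + t0*(-4*m - 194))) = 0 := by
    linear_combination (36*m^2 + 3522*m + 86136)*h1 + (-27*m - 1332)*h2 + (72*m^2 + 7021*m + 171131)*h3 + (-23*m - 1141)*h4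
  have Dy : (0:ℝ) < (72*m^2 + 7052*m + 172654) := by positivity
  exact Or.inl ⟨sub_eq_zero.mp ((mul_eq_zero.mp wx).resolve_left Dx.ne'),
    sub_eq_zero.mp ((mul_eq_zero.mp wy).resolve_left Dy.ne')⟩

theorem q_11_12_12_12 {m : ℝ} (hm : 0 ≤ m) : Q m .e11 .e12 .e12 .e12 := by
  intro t0 t1 t2 t3 a0 b0 a1 b1 a2 b2 a3 b3 h1 h2 h3 h4
  simp only [px, py, dx, dy] at h1 h2 h3 h4 ⊢
  have wx : (81*m^2 + 8010*m + 198026)*((0) + t1*(-1) - ((3) + t0*(-3))) = 0 := by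
    linear_combination (-81*m^2 - 8019*m - 198470)*h1 + (-9*m - 446)*h2 + (-9*m - 445)*h3 + (-1)*h4
  have Dx : (0:ℝ) < (81*m^2 + 8010*m + 198026) := by positivity
  have wy : (81*m^2 + 8010*m + 198026)*((6) + t1*(9*m + 445) - ((4*m + 200) + t0*(-4*m - 194))) = 0 := by
    linear_combination (81*m^2 + 8001*m + 197580)*h1 + (9*m + 444)*h2 + (81*m^2 + 8010*m + 198025)*h3 + (9*m + 445)*h4
  have Dy : (0:ℝ) < (81*m^2 + 8010*m + 198026) := by positivity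
  exact Or.inl ⟨sub_eq_zero.mp ((mul_eq_zero.mp wx).resolve_left Dx.ne'),
    sub_eq_zero.mp ((mul_eq_zero.mp wy).resolve_left Dy.ne')⟩

theorem q_11_12_12_14 {m : ℝ} (hm : 0 ≤ m) : Q m .e11 .e12 .e12 .e14 := by
  intro t0 t1 t2 t3 a0 b0 a1 b1 a2 b2 a3 b3 h1 h2 h3 h4
  simp only [px, py, dx, dy] at h1 h2 h3 h4 ⊢
  exfalso
  have h : (243*m^2 + 24061*m + 595607)*(1 - t0) + (324*m^3 + 48240*m^2 + 2394104*m + 39605200) = 0 := by
    linear_combination (81*m^2 + 8010*m + 198025)*h1 + (9*m + 445)*h2 + (-1)*h3 + (9*m + 445)*h4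
  have h5 : (0:ℝ) ≤ (243*m^2 + 24061*m + 595607)*(1 - t0) := mul_nonneg (by positivity) (by linarith)
  have h6 : (0:ℝ) < (324*m^3 + 48240*m^2 + 2394104*m + 39605200) := by positivity
  linarith

theorem q_11_12_13_14 {m : ℝ} (hm : 0 ≤ m) : Q m .e11 .e12 .e13 .e14 := by
  intro t0 t1 t2 t3 a0 b0 a1 b1 a2 b2 a3 b3 h1 h2 h3 h4
  simp only [px, py, dx, dy] at h1 h2 h3 h4 ⊢
  exfalso
  have h : (144*m^3 + 21376*m^2 + 1057769*m + 17448399)*(1 - t2) + (47*m^2 + 4484*m + 106808) = 0 := by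
    linear_combination (36*m^2 + 3522*m + 86133)*h1 + (31*m + 1532)*h2 + (27*m + 1335)*h3 + (31*m + 1532)*h4
  have h5 : (0:ℝ) ≤ (144*m^3 + 21376*m^2 + 1057769*m + 17448399)*(1 - t2) := mul_nonneg (by positivity) (by linarith)
  have h6 : (0:ℝ) < (47*m^2 + 4484*m + 106808) := by positivity
  linarith

theorem q_11_12_14_14 {m : ℝ} (hm : 0 ≤ m) : Q m .e11 .e12 .e14 .e14 := by
  intro t0 t1 t2 t3 a0 b0 a1 b1 a2 b2 a3 b3 h1 h2 h3 h4
  simp only [px, py, dx, dy] at h1 h2 h3 h4 ⊢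
  exfalso
  have h : (31*m + 1532)*(1 - t0) + (4*m + 200) = 0 := by
    linear_combination (9*m + 445)*h1 + (-1)*h3
  have h5 : (0:ℝ) ≤ (31*m + 1532)*(1 - t0) := mul_nonneg (by positivity) (by linarith)
  have h6 : (0:ℝ) < (4*m + 200) := by positivity
  linarith

theorem q_12_12_12_12 {m : ℝ} (hm : 0 ≤ m) : Q m .e12 .e12 .e12 .e12 := by
  refine sing ?_
  have h : dx m .e12 ^ 2 + dy m .e12 ^ 2 = (1)^2 + (9*m + 445)^2 := by
    simp only [dx, dy] <;> ring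
  rw [h]; positivity

theorem q_12_12_12_13 {m : ℝ} (hm : 0 ≤ m) : Q m .e12 .e12 .e12 .e13 := by
  intro t0 t1 t2 t3 a0 b0 a1 b1 a2 b2 a3 b3 h1 h2 h3 h4
  simp only [px, py, dx, dy] at h1 h2 h3 h4 ⊢
  have wx : (81*m^2 + 8010*m + 198026)*((0) + t1*(-1) - ((0) + t0*(-1))) = 0 := by
    linear_combination (-9*m - 445)*h1 + (-1)*h2 + (-9*m - 445)*h3 + (-1)*h4
  have Dx : (0:ℝ) < (81*m^2 + 8010*m + 198026) := by positivity
  have wy : (81*m^2 + 8010*m + 198026)*((6) + t1*(9*m + 445) - ((6) + t0*(9*m + 445))) = 0 := by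
    linear_combination (81*m^2 + 8010*m + 198025)*h1 + (9*m + 445)*h2 + (81*m^2 + 8010*m + 198025)*h3 + (9*m + 445)*h4
  have Dy : (0:ℝ) < (81*m^2 + 8010*m + 198026) := by positivity
  exact Or.inl ⟨sub_eq_zero.mp ((mul_eq_zero.mp wx).resolve_left Dx.ne'),
    sub_eq_zero.mp ((mul_eq_zero.mp wy).resolve_left Dy.ne')⟩

theorem q_12_12_12_14 {m : ℝ} (hm : 0 ≤ m) : Q m .e12 .e12 .e12 .e14 := by
  intro t0 t1 t2 t3 a0 b0 a1 b1 a2 b2 a3 b3 h1 h2 h3 h4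
  simp only [px, py, dx, dy] at h1 h2 h3 h4 ⊢
  exfalso
  have h : (5*m + 249)*t3 + (36*m^2 + 3575*m + 88756) = 0 := by
    linear_combination (9*m + 445)*h1 + 1*h2
  have h5 : (0:ℝ) ≤ (5*m + 249)*t3 := mul_nonneg (by positivity) a3
  have h6 : (0:ℝ) < (36*m^2 + 3575*m + 88756) := by positivity
  linarith

theorem q_12_12_13_13 {m : ℝ} (hm : 0 ≤ m) : Q m .e12 .e12 .e13 .e13 := by
  intro t0 t1 t2 t3 a0 b0 a1 b1 a2 b2 a3 b3 h1 h2 h3 h4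
  simp only [px, py, dx, dy] at h1 h2 h3 h4 ⊢
  have wx : (36*m^2 + 3575*m + 88756)*((0) + t1*(-1) - ((0) + t0*(-1))) = 0 := by
    linear_combination (-4*m - 201)*h1 + (4*m + 199)*h2
  have Dx : (0:ℝ) < (36*m^2 + 3575*m + 88756) := by positivity
  have wy : (36*m^2 + 3575*m + 88756)*((6) + t1*(9*m + 445) - ((6) + t0*(9*m + 445))) = 0 := by
    linear_combination (36*m^2 + 3589*m + 89445)*h1 + (-36*m^2 - 3571*m - 88555)*h2
  have Dy : (0:ℝ) < (36*m^2 + 3575*m + 88756) := by positivity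
  exact Or.inl ⟨sub_eq_zero.mp ((mul_eq_zero.mp wx).resolve_left Dx.ne'),
    sub_eq_zero.mp ((mul_eq_zero.mp wy).resolve_left Dy.ne')⟩

theorem q_12_12_13_14 {m : ℝ} (hm : 0 ≤ m) : Q m .e12 .e12 .e13 .e14 := by
  intro t0 t1 t2 t3 a0 b0 a1 b1 a2 b2 a3 b3 h1 h2 h3 h4
  simp only [px, py, dx, dy] at h1 h2 h3 h4 ⊢
  exfalso
  have h : (324*m^3 + 48123*m^2 + 2382519*m + 39318418)*(1 - t2) + (36*m^2 + 3575*m + 88756) = 0 := by
    linear_combination (81*m^2 + 8001*m + 197581)*h1 + (-1)*h2 + (-9*m - 445)*h3 + (-1)*h4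
  have h5 : (0:ℝ) ≤ (324*m^3 + 48123*m^2 + 2382519*m + 39318418)*(1 - t2) := mul_nonneg (by positivity) (by linarith)
  have h6 : (0:ℝ) < (36*m^2 + 3575*m + 88756) := by positivity
  linarith

theorem q_12_12_14_14 {m : ℝ} (hm : 0 ≤ m) : Q m .e12 .e12 .e14 .e14 := by
  intro t0 t1 t2 t3 a0 b0 a1 b1 a2 b2 a3 b3 h1 h2 h3 h4
  simp only [px, py, dx, dy] at h1 h2 h3 h4 ⊢
  exfalso
  have h : 1*(1 - t0) + (4*m + 199) = 0 := by
    linear_combination (9*m + 445)*h1 + (-1)*h3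
  have h5 : (0:ℝ) ≤ 1*(1 - t0) := mul_nonneg (by positivity) (by linarith)
  have h6 : (0:ℝ) < (4*m + 199) := by positivity
  linarith

theorem q_12_13_12_13 {m : ℝ} (hm : 0 ≤ m) : Q m .e12 .e13 .e12 .e13 := by
  intro t0 t1 t2 t3 a0 b0 a1 b1 a2 b2 a3 b3 h1 h2 h3 h4
  simp only [px, py, dx, dy] at h1 h2 h3 h4 ⊢
  have wx : (72*m^2 + 7170*m + 178492)*((-1) + t1*(-4*m - 199) - ((0) + t0*(-1))) = 0 := by
    linear_combination (-18*m - 890)*h1 + (-2)*h2 + (36*m^2 + 3567*m + 88354)*h3 + (-36*m^2 - 3567*m - 88358)*h4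
  have Dx : (0:ℝ) < (72*m^2 + 7170*m + 178492) := by positivity
  have wy : (72*m^2 + 7170*m + 178492)*((9*m + 451) + t1*(-4*m - 201) - ((6) + t0*(9*m + 445))) = 0 := by
    linear_combination (72*m^2 + 7160*m + 178000)*h1 + (8*m + 400)*h2 + (108*m^2 + 10753*m + 267646)*h3 + (-36*m^2 - 3567*m - 88354)*h4
  have Dy : (0:ℝ) < (72*m^2 + 7170*m + 178492) := by positivity
  exact Or.inl ⟨sub_eq_zero.mp ((mul_eq_zero.mp wx).resolve_left Dx.ne'),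
    sub_eq_zero.mp ((mul_eq_zero.mp wy).resolve_left Dy.ne')⟩

theorem q_12_13_13_13 {m : ℝ} (hm : 0 ≤ m) : Q m .e12 .e13 .e13 .e13 := by
  intro t0 t1 t2 t3 a0 b0 a1 b1 a2 b2 a3 b3 h1 h2 h3 h4
  simp only [px, py, dx, dy] at h1 h2 h3 h4 ⊢
  have wx : (32*m^2 + 3200*m + 80002)*((-1) + t1*(-4*m - 199) - ((0) + t0*(-1))) = 0 := by
    linear_combination (-8*m - 402)*h1 + (8*m + 398)*h2 + (16*m^2 + 1600*m + 39999)*h3 + (-16*m^2 - 1592*m - 39601)*h4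
  have Dx : (0:ℝ) < (32*m^2 + 3200*m + 80002) := by positivity
  have wy : (32*m^2 + 3200*m + 80002)*((9*m + 451) + t1*(-4*m - 201) - ((6) + t0*(9*m + 445))) = 0 := by
    linear_combination (32*m^2 + 3208*m + 80400)*h1 + (-32*m^2 - 3192*m - 79600)*h2 + (16*m^2 + 1608*m + 40401)*h3 + (-16*m^2 - 1600*m - 39999)*h4
  have Dy : (0:ℝ) < (32*m^2 + 3200*m + 80002) := by positivity
  exact Or.inl ⟨sub_eq_zero.mp ((mul_eq_zero.mp wx).resolve_left Dx.ne'),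
    sub_eq_zero.mp ((mul_eq_zero.mp wy).resolve_left Dy.ne')⟩

theorem q_12_13_13_14 {m : ℝ} (hm : 0 ≤ m) : Q m .e12 .e13 .e13 .e14 := by
  intro t0 t1 t2 t3 a0 b0 a1 b1 a2 b2 a3 b3 h1 h2 h3 h4
  simp only [px, py, dx, dy] at h1 h2 h3 h4 ⊢
  exfalso
  have h : (144*m^3 + 21432*m^2 + 1063249*m + 17582442)*(1 - t1) + (72*m^2 + 7150*m + 177512) = 0 := by
    linear_combination (36*m^2 + 3585*m + 89244)*h1 + (-36*m^2 - 3567*m - 88356)*h2 + (-2)*h3 + (-36*m^2 - 3567*m - 88356)*h4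
  have h5 : (0:ℝ) ≤ (144*m^3 + 21432*m^2 + 1063249*m + 17582442)*(1 - t1) := mul_nonneg (by positivity) (by linarith)
  have h6 : (0:ℝ) < (72*m^2 + 7150*m + 177512) := by positivity
  linarith

theorem q_12_13_14_14 {m : ℝ} (hm : 0 ≤ m) : Q m .e12 .e13 .e14 .e14 := by
  intro t0 t1 t2 t3 a0 b0 a1 b1 a2 b2 a3 b3 h1 h2 h3 h4
  simp only [px, py, dx, dy] at h1 h2 h3 h4 ⊢
  exfalso
  have h : (36*m^2 + 3571*m + 88557)*t1 + (4*m + 199) = 0 := by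
    linear_combination (9*m + 444)*h1 + (-1)*h3
  have h5 : (0:ℝ) ≤ (36*m^2 + 3571*m + 88557)*t1 := mul_nonneg (by positivity) a1
  have h6 : (0:ℝ) < (4*m + 199) := by positivity
  linarith

theorem q_12_14_14_15 {m : ℝ} (hm : 0 ≤ m) : Q m .e12 .e14 .e14 .e15 := by
  intro t0 t1 t2 t3 a0 b0 a1 b1 a2 b2 a3 b3 h1 h2 h3 h4
  simp only [px, py, dx, dy] at h1 h2 h3 h4 ⊢
  exfalso
  have h : (36*m^2 + 3548*m + 87415)*(1 - t3) + (32*m + 1590) = 0 := by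
    linear_combination (9*m + 446)*h1 + (-1)*h4
  have h5 : (0:ℝ) ≤ (36*m^2 + 3548*m + 87415)*(1 - t3) := mul_nonneg (by positivity) (by linarith)
  have h6 : (0:ℝ) < (32*m + 1590) := by positivity
  linarith

theorem q_13_13_13_13 {m : ℝ} (hm : 0 ≤ m) : Q m .e13 .e13 .e13 .e13 := by
  refine sing ?_
  have h : dx m .e13 ^ 2 + dy m .e13 ^ 2 = (4*m + 199)^2 + (4*m + 201)^2 := by
    simp only [dx, dy] <;> ring
  rw [h]; positivity

theorem q_13_13_13_14 {m : ℝ} (hm : 0 ≤ m) : Q m .e13 .e13 .e13 .e14 := by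
  intro t0 t1 t2 t3 a0 b0 a1 b1 a2 b2 a3 b3 h1 h2 h3 h4
  simp only [px, py, dx, dy] at h1 h2 h3 h4 ⊢
  have wx : (32*m^2 + 3200*m + 80002)*((-1) + t1*(-4*m - 199) - ((-1) + t0*(-4*m - 199))) = 0 := by
    linear_combination (16*m^2 + 1600*m + 39999)*h1 + (-16*m^2 - 1592*m - 39601)*h2 + (16*m^2 + 1600*m + 39999)*h3 + (-16*m^2 - 1592*m - 39601)*h4
  have Dx : (0:ℝ) < (32*m^2 + 3200*m + 80002) := by positivity
  have wy : (32*m^2 + 3200*m + 80002)*((9*m + 451) + t1*(-4*m - 201) - ((9*m + 451) + t0*(-4*m - 201))) = 0 := by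
    linear_combination (16*m^2 + 1608*m + 40401)*h1 + (-16*m^2 - 1600*m - 39999)*h2 + (16*m^2 + 1608*m + 40401)*h3 + (-16*m^2 - 1600*m - 39999)*h4
  have Dy : (0:ℝ) < (32*m^2 + 3200*m + 80002) := by positivity
  exact Or.inl ⟨sub_eq_zero.mp ((mul_eq_zero.mp wx).resolve_left Dx.ne'),
    sub_eq_zero.mp ((mul_eq_zero.mp wy).resolve_left Dy.ne')⟩

theorem q_13_13_14_14 {m : ℝ} (hm : 0 ≤ m) : Q m .e13 .e13 .e14 .e14 := by
  intro t0 t1 t2 t3 a0 b0 a1 b1 a2 b2 a3 b3 h1 h2 h3 h4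
  simp only [px, py, dx, dy] at h1 h2 h3 h4 ⊢
  have wx : 1*((-1) + t1*(-4*m - 199) - ((-1) + t0*(-4*m - 199))) = 0 := by
    linear_combination (-1)*h1
  have Dx : (0:ℝ) < 1 := by positivity
  have wy : (4*m + 199)*((9*m + 451) + t1*(-4*m - 201) - ((9*m + 451) + t0*(-4*m - 201))) = 0 := by
    linear_combination (-4*m - 201)*h1
  have Dy : (0:ℝ) < (4*m + 199) := by positivity
  exact Or.inl ⟨sub_eq_zero.mp ((mul_eq_zero.mp wx).resolve_left Dx.ne'),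
    sub_eq_zero.mp ((mul_eq_zero.mp wy).resolve_left Dy.ne')⟩

theorem q_13_14_13_14 {m : ℝ} (hm : 0 ≤ m) : Q m .e13 .e14 .e13 .e14 := by
  intro t0 t1 t2 t3 a0 b0 a1 b1 a2 b2 a3 b3 h1 h2 h3 h4
  simp only [px, py, dx, dy] at h1 h2 h3 h4 ⊢
  have wx : (8*m + 402)*((-4*m - 200) + t1*(0) - ((-1) + t0*(-4*m - 199))) = 0 := by
    linear_combination (-4*m - 201)*h1 + (4*m + 199)*h2 + (4*m + 199)*h3 + (4*m + 199)*h4
  have Dx : (0:ℝ) < (8*m + 402) := by positivity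
  have wy : (8*m + 402)*((5*m + 250) + t1*(-5*m - 249) - ((9*m + 451) + t0*(-4*m - 201))) = 0 := by
    linear_combination (4*m + 201)*h1 + (-4*m - 199)*h2 + (4*m + 203)*h3 + (-4*m - 199)*h4
  have Dy : (0:ℝ) < (8*m + 402) := by positivity
  exact Or.inl ⟨sub_eq_zero.mp ((mul_eq_zero.mp wx).resolve_left Dx.ne'),
    sub_eq_zero.mp ((mul_eq_zero.mp wy).resolve_left Dy.ne')⟩

theorem q_13_14_14_14 {m : ℝ} (hm : 0 ≤ m) : Q m .e13 .e14 .e14 .e14 := by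
  intro t0 t1 t2 t3 a0 b0 a1 b1 a2 b2 a3 b3 h1 h2 h3 h4
  simp only [px, py, dx, dy] at h1 h2 h3 h4 ⊢
  have wx : 1*((-4*m - 200) + t1*(0) - ((-1) + t0*(-4*m - 199))) = 0 := by
    linear_combination (-1)*h1
  have Dx : (0:ℝ) < 1 := by positivity
  have wy : 1*((5*m + 250) + t1*(-5*m - 249) - ((9*m + 451) + t0*(-4*m - 201))) = 0 := by
    linear_combination 1*h1 + 1*h3
  have Dy : (0:ℝ) < 1 := by positivity
  exact Or.inl ⟨sub_eq_zero.mp ((mul_eq_zero.mp wx).resolve_left Dx.ne'),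
    sub_eq_zero.mp ((mul_eq_zero.mp wy).resolve_left Dy.ne')⟩

theorem q_14_14_14_14 {m : ℝ} (hm : 0 ≤ m) : Q m .e14 .e14 .e14 .e14 := by
  refine sing ?_
  have h : dx m .e14 ^ 2 + dy m .e14 ^ 2 = (0)^2 + (5*m + 249)^2 := by
    simp only [dx, dy] <;> ring
  rw [h]; positivity

theorem q_14_14_14_15 {m : ℝ} (hm : 0 ≤ m) : Q m .e14 .e14 .e14 .e15 := by
  intro t0 t1 t2 t3 a0 b0 a1 b1 a2 b2 a3 b3 h1 h2 h3 h4
  simp only [px, py, dx, dy] at h1 h2 h3 h4 ⊢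
  have wx : 1*((-4*m - 200) + t1*(0) - ((-4*m - 200) + t0*(0))) = 0 := by
    linear_combination 0
  have Dx : (0:ℝ) < 1 := by positivity
  have wy : 1*((5*m + 250) + t1*(-5*m - 249) - ((5*m + 250) + t0*(-5*m - 249))) = 0 := by
    linear_combination 1*h1 + 1*h3
  have Dy : (0:ℝ) < 1 := by positivity
  exact Or.inl ⟨sub_eq_zero.mp ((mul_eq_zero.mp wx).resolve_left Dx.ne'),
    sub_eq_zero.mp ((mul_eq_zero.mp wy).resolve_left Dy.ne')⟩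

theorem q_14_14_15_15 {m : ℝ} (hm : 0 ≤ m) : Q m .e14 .e14 .e15 .e15 := by
  intro t0 t1 t2 t3 a0 b0 a1 b1 a2 b2 a3 b3 h1 h2 h3 h4
  simp only [px, py, dx, dy] at h1 h2 h3 h4 ⊢
  have wx : 1*((-4*m - 200) + t1*(0) - ((-4*m - 200) + t0*(0))) = 0 := by
    linear_combination 0
  have Dx : (0:ℝ) < 1 := by positivity
  have wy : (4*m + 196)*((5*m + 250) + t1*(-5*m - 249) - ((5*m + 250) + t0*(-5*m - 249))) = 0 := by
    linear_combination (-1)*h1 + (-4*m - 196)*h2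
  have Dy : (0:ℝ) < (4*m + 196) := by positivity
  exact Or.inl ⟨sub_eq_zero.mp ((mul_eq_zero.mp wx).resolve_left Dx.ne'),
    sub_eq_zero.mp ((mul_eq_zero.mp wy).resolve_left Dy.ne')⟩

theorem q_14_15_14_15 {m : ℝ} (hm : 0 ≤ m) : Q m .e14 .e15 .e14 .e15 := by
  intro t0 t1 t2 t3 a0 b0 a1 b1 a2 b2 a3 b3 h1 h2 h3 h4
  simp only [px, py, dx, dy] at h1 h2 h3 h4 ⊢
  have wx : 2*((-4*m - 200) + t1*(4*m + 196) - ((-4*m - 200) + t0*(0))) = 0 := by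
    linear_combination (-4*m - 197)*h1 + (-4*m - 196)*h3 + (4*m + 196)*h4
  have Dx : (0:ℝ) < 2 := by positivity
  have wy : 2*((1) + t1*(-1) - ((5*m + 250) + t0*(-5*m - 249))) = 0 := by
    linear_combination (-4*m - 195)*h1 + (-4*m - 194)*h3 + (4*m + 196)*h4
  have Dy : (0:ℝ) < 2 := by positivity
  exact Or.inl ⟨sub_eq_zero.mp ((mul_eq_zero.mp wx).resolve_left Dx.ne'),
    sub_eq_zero.mp ((mul_eq_zero.mp wy).resolve_left Dy.ne')⟩

theorem q_14_15_15_15 {m : ℝ} (hm : 0 ≤ m) : Q m .e14 .e15 .e15 .e15 := by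
  intro t0 t1 t2 t3 a0 b0 a1 b1 a2 b2 a3 b3 h1 h2 h3 h4
  simp only [px, py, dx, dy] at h1 h2 h3 h4 ⊢
  have wx : (16*m^2 + 1568*m + 38417)*((-4*m - 200) + t1*(4*m + 196) - ((-4*m - 200) + t0*(0))) = 0 := by
    linear_combination (-4*m - 197)*h1 + (-16*m^2 - 1572*m - 38612)*h2 + (-4*m - 196)*h3 + (-16*m^2 - 1568*m - 38416)*h4
  have Dx : (0:ℝ) < (16*m^2 + 1568*m + 38417) := by positivity
  have wy : (16*m^2 + 1568*m + 38417)*((1) + t1*(-1) - ((5*m + 250) + t0*(-5*m - 249))) = 0 := by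
    linear_combination (-4*m - 195)*h1 + (-16*m^2 - 1564*m - 38220)*h2 + 1*h3 + (4*m + 196)*h4
  have Dy : (0:ℝ) < (16*m^2 + 1568*m + 38417) := by positivity
  exact Or.inl ⟨sub_eq_zero.mp ((mul_eq_zero.mp wx).resolve_left Dx.ne'),
    sub_eq_zero.mp ((mul_eq_zero.mp wy).resolve_left Dy.ne')⟩

theorem q_15_15_15_15 {m : ℝ} (hm : 0 ≤ m) : Q m .e15 .e15 .e15 .e15 := by
  refine sing ?_
  have h : dx m .e15 ^ 2 + dy m .e15 ^ 2 = (4*m + 196)^2 + (1)^2 := by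
    simp only [dx, dy] <;> ring
  rw [h]; positivity

end Boat
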