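import Pool.Agent.helper91.SB.Level2

/-!
# The area of the inner domain of the 16-gon
-/

namespace Boat

open Set Hex MeasureTheory

/-- an open axis-parallel rectangle -/
def rect (a b c d : ℝ) : Set ℂ := {z | (a < z.re ∧ z.re < b) ∧ c < z.im ∧ z.im < d}

theorem rect_eq (a b c d : ℝ) :
    rect a b c d = Complex.measurableEquivRealProd ⁻¹' (Ioo a b ×ˢ Ioo c d) := rfl

theorem rect_meas (a b c d : ℝ) : MeasurableSet (rect a b c d) := by
  rw [rect_eq]
  exact Complex.measurableEquivRealProd.measurable (measurableSet_Ioo.prod measurableSet_Ioo)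

theorem rect_vol (a b c d : ℝ) (hab : a ≤ b) :
    volume (rect a b c d) = ENNReal.ofReal ((b - a) * (d - c)) := by
  rw [rect_eq, Complex.volume_preserving_equiv_real_prod.measure_preimage_equiv,
    Measure.volume_eq_prod, Measure.prod_prod, Real.volume_Ioo, Real.volume_Ioo,
    ← ENNReal.ofReal_mul (by linarith)]

theorem in0 {m : ℝ} (hm : 0 ≤ m) {z : ℂ} (hx : 3 < z.re ∧ z.re < 4*m + 197)
    (hy : 3 < z.im ∧ z.im < 4*m + 200) : gg m z < 1 := by
  obtain ⟨hx1, hx2⟩ := hx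
  obtain ⟨hy1, hy2⟩ := hy
  have hx : 0 ≤ z.re := by linarith
  have hy : 0 ≤ z.im := by linarith
  rw [gg_q2 hm hx hy, pg_lt_one hm]
  generalize z.re = x at *
  generalize z.im = y at *
  refine ⟨⟨?_, ?_⟩, ?_, ?_⟩
  · have e : F m .e8 x y = (3) + (4*m + 195) * (y - (3)) + (3) * ((4*m + 197) - x) := by
      simp only [F, px, py, dx, dy]; ring
    have h0 : (0:ℝ) ≤ (3) := by positivity
    have h1 : 0 < (4*m + 195) * (y - (3)) := mul_pos (by positivity) (by linarith)
    have h2 : 0 < (3) * ((4*m + 197) - x) := mul_pos (by positivity) (by linarith)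
    rw [e]; linarith
  · have e : F m .e9 x y = (0) + (1) * ((4*m + 200) - y) + (4*m + 197) * ((4*m + 197) - x) := by
      simp only [F, px, py, dx, dy]; ring
    have h0 : (0:ℝ) ≤ (0) := by positivity
    have h1 : 0 < (1) * ((4*m + 200) - y) := mul_pos (by positivity) (by linarith)
    have h2 : 0 < (4*m + 197) * ((4*m + 197) - x) := mul_pos (by positivity) (by linarith)
    rw [e]; linarith
  · have e : F m .e10 x y = (0) + (4*m + 194) * ((4*m + 200) - y) + (0) * (x - (3)) := by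
      simp only [F, px, py, dx, dy]; ring
    have h0 : (0:ℝ) ≤ (0) := by positivity
    have h1 : 0 < (4*m + 194) * ((4*m + 200) - y) := mul_pos (by positivity) (by linarith)
    have h2 : 0 ≤ (0) * (x - (3)) := mul_nonneg (by positivity) (by linarith)
    rw [e]; linarith
  · have e : F m .e11 x y = (0) + (3) * ((4*m + 200) - y) + (4*m + 194) * (x - (3)) := by
      simp only [F, px, py, dx, dy]; ring
    have h0 : (0:ℝ) ≤ (0) := by positivity
    have h1 : 0 < (3) * ((4*m + 200) - y) := mul_pos (by positivity) (by linarith)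
    have h2 : 0 < (4*m + 194) * (x - (3)) := mul_pos (by positivity) (by linarith)
    rw [e]; linarith

theorem in1 {m : ℝ} (hm : 0 ≤ m) {z : ℂ} (hx : -4*m - 200 < z.re ∧ z.re < -1)
    (hy : 1 < z.im ∧ z.im < 5*m + 250) : gg m z < 1 := by
  obtain ⟨hx1, hx2⟩ := hx
  obtain ⟨hy1, hy2⟩ := hy
  have hx : z.re ≤ 0 := by linarith
  have hy : 0 ≤ z.im := by linarith
  rw [gg_q3 hm hx hy, pg_lt_one hm]
  generalize z.re = x at *
  generalize z.im = y at *
  refine ⟨⟨?_, ?_⟩, ?_, ?_⟩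
  · have e : F m .e12 x y = (4*m + 201) + (1) * ((5*m + 250) - y) + (9*m + 445) * ((-1) - x) := by
      simp only [F, px, py, dx, dy]; ring
    have h0 : (0:ℝ) ≤ (4*m + 201) := by positivity
    have h1 : 0 < (1) * ((5*m + 250) - y) := mul_pos (by positivity) (by linarith)
    have h2 : 0 < (9*m + 445) * ((-1) - x) := mul_pos (by positivity) (by linarith)
    rw [e]; linarith
  · have e : F m .e13 x y = (0) + (4*m + 199) * ((5*m + 250) - y) + (4*m + 201) * (x - (-4*m - 200)) := by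
      simp only [F, px, py, dx, dy]; ring
    have h0 : (0:ℝ) ≤ (0) := by positivity
    have h1 : 0 < (4*m + 199) * ((5*m + 250) - y) := mul_pos (by positivity) (by linarith)
    have h2 : 0 < (4*m + 201) * (x - (-4*m - 200)) := mul_pos (by positivity) (by linarith)
    rw [e]; linarith
  · have e : F m .e14 x y = (0) + (0) * (y - (1)) + (5*m + 249) * (x - (-4*m - 200)) := by
      simp only [F, px, py, dx, dy]; ring
    have h0 : (0:ℝ) ≤ (0) := by positivity
    have h1 : 0 ≤ (0) * (y - (1)) := mul_nonneg (by positivity) (by linarith)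
    have h2 : 0 < (5*m + 249) * (x - (-4*m - 200)) := mul_pos (by positivity) (by linarith)
    rw [e]; linarith
  · have e : F m .e15 x y = (0) + (4*m + 196) * (y - (1)) + (1) * (x - (-4*m - 200)) := by
      simp only [F, px, py, dx, dy]; ring
    have h0 : (0:ℝ) ≤ (0) := by positivity
    have h1 : 0 < (4*m + 196) * (y - (1)) := mul_pos (by positivity) (by linarith)
    have h2 : 0 < (1) * (x - (-4*m - 200)) := mul_pos (by positivity) (by linarith)
    rw [e]; linarith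

theorem in2 {m : ℝ} (hm : 0 ≤ m) {z : ℂ} (hx : -2*m - 100 < z.re ∧ z.re < -1)
    (hy : 5*m + 250 < z.im ∧ z.im < 7*m + 350) : gg m z < 1 := by
  obtain ⟨hx1, hx2⟩ := hx
  obtain ⟨hy1, hy2⟩ := hy
  have hx : z.re ≤ 0 := by linarith
  have hy : 0 ≤ z.im := by linarith
  rw [gg_q3 hm hx hy, pg_lt_one hm]
  generalize z.re = x at *
  generalize z.im = y at *
  refine ⟨⟨?_, ?_⟩, ?_, ?_⟩
  · have e : F m .e12 x y = (2*m + 101) + (1) * ((7*m + 350) - y) + (9*m + 445) * ((-1) - x) := by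
      simp only [F, px, py, dx, dy]; ring
    have h0 : (0:ℝ) ≤ (2*m + 101) := by positivity
    have h1 : 0 < (1) * ((7*m + 350) - y) := mul_pos (by positivity) (by linarith)
    have h2 : 0 < (9*m + 445) * ((-1) - x) := mul_pos (by positivity) (by linarith)
    rw [e]; linarith
  · have e : F m .e13 x y = (4*m + 200) + (4*m + 199) * ((7*m + 350) - y) + (4*m + 201) * (x - (-2*m - 100)) := by
      simp only [F, px, py, dx, dy]; ring
    have h0 : (0:ℝ) ≤ (4*m + 200) := by positivity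
    have h1 : 0 < (4*m + 199) * ((7*m + 350) - y) := mul_pos (by positivity) (by linarith)
    have h2 : 0 < (4*m + 201) * (x - (-2*m - 100)) := mul_pos (by positivity) (by linarith)
    rw [e]; linarith
  · have e : F m .e14 x y = (10*m^2 + 998*m + 24900) + (0) * (y - (5*m + 250)) + (5*m + 249) * (x - (-2*m - 100)) := by
      simp only [F, px, py, dx, dy]; ring
    have h0 : (0:ℝ) ≤ (10*m^2 + 998*m + 24900) := by positivity
    have h1 : 0 ≤ (0) * (y - (5*m + 250)) := mul_nonneg (by positivity) (by linarith)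
    have h2 : 0 < (5*m + 249) * (x - (-2*m - 100)) := mul_pos (by positivity) (by linarith)
    rw [e]; linarith
  · have e : F m .e15 x y = (20*m^2 + 1978*m + 48904) + (4*m + 196) * (y - (5*m + 250)) + (1) * (x - (-2*m - 100)) := by
      simp only [F, px, py, dx, dy]; ring
    have h0 : (0:ℝ) ≤ (20*m^2 + 1978*m + 48904) := by positivity
    have h1 : 0 < (4*m + 196) * (y - (5*m + 250)) := mul_pos (by positivity) (by linarith)
    have h2 : 0 < (1) * (x - (-2*m - 100)) := mul_pos (by positivity) (by linarith)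
    rw [e]; linarith

theorem in3 {m : ℝ} (hm : 0 ≤ m) {z : ℂ} (hx : -4*m - 200 < z.re ∧ z.re < -1)
    (hy : -4*m - 200 < z.im ∧ z.im < -1) : gg m z < 1 := by
  obtain ⟨hx1, hx2⟩ := hx
  obtain ⟨hy1, hy2⟩ := hy
  have hx : z.re ≤ 0 := by linarith
  have hy : z.im ≤ 0 := by linarith
  rw [gg_q0 hm hx hy, pg_lt_one hm]
  generalize z.re = x at *
  generalize z.im = y at *
  refine ⟨⟨?_, ?_⟩, ?_, ?_⟩
  · have e : F m .e0 x y = (m + 50) + (5*m + 246) * ((-1) - y) + (1) * (x - (-4*m - 200)) := by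
      simp only [F, px, py, dx, dy]; ring
    have h0 : (0:ℝ) ≤ (m + 50) := by positivity
    have h1 : 0 < (5*m + 246) * ((-1) - y) := mul_pos (by positivity) (by linarith)
    have h2 : 0 < (1) * (x - (-4*m - 200)) := mul_pos (by positivity) (by linarith)
    rw [e]; linarith
  · have e : F m .e1 x y = (0) + (m + 50) * (y - (-4*m - 200)) + (4*m + 199) * (x - (-4*m - 200)) := by
      simp only [F, px, py, dx, dy]; ring
    have h0 : (0:ℝ) ≤ (0) := by positivity
    have h1 : 0 < (m + 50) * (y - (-4*m - 200)) := mul_pos (by positivity) (by linarith)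
    have h2 : 0 < (4*m + 199) * (x - (-4*m - 200)) := mul_pos (by positivity) (by linarith)
    rw [e]; linarith
  · have e : F m .e2 x y = (0) + (4*m + 199) * (y - (-4*m - 200)) + (1) * (x - (-4*m - 200)) := by
      simp only [F, px, py, dx, dy]; ring
    have h0 : (0:ℝ) ≤ (0) := by positivity
    have h1 : 0 < (4*m + 199) * (y - (-4*m - 200)) := mul_pos (by positivity) (by linarith)
    have h2 : 0 < (1) * (x - (-4*m - 200)) := mul_pos (by positivity) (by linarith)
    rw [e]; linarith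
  · have e : F m .e3 x y = (1) + (1) * (y - (-4*m - 200)) + (4*m + 192) * ((-1) - x) := by
      simp only [F, px, py, dx, dy]; ring
    have h0 : (0:ℝ) ≤ (1) := by positivity
    have h1 : 0 < (1) * (y - (-4*m - 200)) := mul_pos (by positivity) (by linarith)
    have h2 : 0 < (4*m + 192) * ((-1) - x) := mul_pos (by positivity) (by linarith)
    rw [e]; linarith

theorem in4 {m : ℝ} (hm : 0 ≤ m) {z : ℂ} (hx : 1 < z.re ∧ z.re < 5*m + 250)
    (hy : -4*m - 202 < z.im ∧ z.im < -1) : gg m z < 1 := by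
  obtain ⟨hx1, hx2⟩ := hx
  obtain ⟨hy1, hy2⟩ := hy
  have hx : 0 ≤ z.re := by linarith
  have hy : z.im ≤ 0 := by linarith
  rw [gg_q1 hm hx hy, pg_lt_one hm]
  generalize z.re = x at *
  generalize z.im = y at *
  refine ⟨⟨?_, ?_⟩, ?_, ?_⟩
  · have e : F m .e4 x y = (1) + (1) * (y - (-4*m - 202)) + (4*m + 194) * (x - (1)) := by
      simp only [F, px, py, dx, dy]; ring
    have h0 : (0:ℝ) ≤ (1) := by positivity
    have h1 : 0 < (1) * (y - (-4*m - 202)) := mul_pos (by positivity) (by linarith)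
    have h2 : 0 < (4*m + 194) * (x - (1)) := mul_pos (by positivity) (by linarith)
    rw [e]; linarith
  · have e : F m .e5 x y = (0) + (5*m + 249) * (y - (-4*m - 202)) + (1) * ((5*m + 250) - x) := by
      simp only [F, px, py, dx, dy]; ring
    have h0 : (0:ℝ) ≤ (0) := by positivity
    have h1 : 0 < (5*m + 249) * (y - (-4*m - 202)) := mul_pos (by positivity) (by linarith)
    have h2 : 0 < (1) * ((5*m + 250) - x) := mul_pos (by positivity) (by linarith)
    rw [e]; linarith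
  · have e : F m .e6 x y = (0) + (4*m + 200) * (y - (-4*m - 202)) + (4*m + 201) * ((5*m + 250) - x) := by
      simp only [F, px, py, dx, dy]; ring
    have h0 : (0:ℝ) ≤ (0) := by positivity
    have h1 : 0 < (4*m + 200) * (y - (-4*m - 202)) := mul_pos (by positivity) (by linarith)
    have h2 : 0 < (4*m + 201) * ((5*m + 250) - x) := mul_pos (by positivity) (by linarith)
    rw [e]; linarith
  · have e : F m .e7 x y = (4*m + 200) + (9*m + 447) * ((-1) - y) + (1) * ((5*m + 250) - x) := by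
      simp only [F, px, py, dx, dy]; ring
    have h0 : (0:ℝ) ≤ (4*m + 200) := by positivity
    have h1 : 0 < (9*m + 447) * ((-1) - y) := mul_pos (by positivity) (by linarith)
    have h2 : 0 < (1) * ((5*m + 250) - x) := mul_pos (by positivity) (by linarith)
    rw [e]; linarith

theorem in5 {m : ℝ} (hm : 0 ≤ m) {z : ℂ} (hx : 5*m + 250 < z.re ∧ z.re < 7*m + 350)
    (hy : -2*m - 100 < z.im ∧ z.im < -1) : gg m z < 1 := by
  obtain ⟨hx1, hx2⟩ := hx
  obtain ⟨hy1, hy2⟩ := hy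
  have hx : 0 ≤ z.re := by linarith
  have hy : z.im ≤ 0 := by linarith
  rw [gg_q1 hm hx hy, pg_lt_one hm]
  generalize z.re = x at *
  generalize z.im = y at *
  refine ⟨⟨?_, ?_⟩, ?_, ?_⟩
  · have e : F m .e4 x y = (20*m^2 + 1968*m + 48409) + (1) * (y - (-2*m - 100)) + (4*m + 194) * (x - (5*m + 250)) := by
      simp only [F, px, py, dx, dy]; ring
    have h0 : (0:ℝ) ≤ (20*m^2 + 1968*m + 48409) := by positivity
    have h1 : 0 < (1) * (y - (-2*m - 100)) := mul_pos (by positivity) (by linarith)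
    have h2 : 0 < (4*m + 194) * (x - (5*m + 250)) := mul_pos (by positivity) (by linarith)
    rw [e]; linarith
  · have e : F m .e5 x y = (10*m^2 + 1006*m + 25298) + (5*m + 249) * (y - (-2*m - 100)) + (1) * ((7*m + 350) - x) := by
      simp only [F, px, py, dx, dy]; ring
    have h0 : (0:ℝ) ≤ (10*m^2 + 1006*m + 25298) := by positivity
    have h1 : 0 < (5*m + 249) * (y - (-2*m - 100)) := mul_pos (by positivity) (by linarith)
    have h2 : 0 < (1) * ((7*m + 350) - x) := mul_pos (by positivity) (by linarith)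
    rw [e]; linarith
  · have e : F m .e6 x y = (6*m + 300) + (4*m + 200) * (y - (-2*m - 100)) + (4*m + 201) * ((7*m + 350) - x) := by
      simp only [F, px, py, dx, dy]; ring
    have h0 : (0:ℝ) ≤ (6*m + 300) := by positivity
    have h1 : 0 < (4*m + 200) * (y - (-2*m - 100)) := mul_pos (by positivity) (by linarith)
    have h2 : 0 < (4*m + 201) * ((7*m + 350) - x) := mul_pos (by positivity) (by linarith)
    rw [e]; linarith
  · have e : F m .e7 x y = (2*m + 100) + (9*m + 447) * ((-1) - y) + (1) * ((7*m + 350) - x) := by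
      simp only [F, px, py, dx, dy]; ring
    have h0 : (0:ℝ) ≤ (2*m + 100) := by positivity
    have h1 : 0 < (9*m + 447) * ((-1) - y) := mul_pos (by positivity) (by linarith)
    have h2 : 0 < (1) * ((7*m + 350) - x) := mul_pos (by positivity) (by linarith)
    rw [e]; linarith

/-- the six rectangles inside the 16-gon -/
def rc (m κ : ℝ) : Fin 6 → Set ℂ := ![
  rect (κ * (3)) (κ * (4*m + 197)) (κ * (3)) (κ * (4*m + 200)),
  rect (κ * (-4*m - 200)) (κ * (-1)) (κ * (1)) (κ * (5*m + 250)),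
  rect (κ * (-2*m - 100)) (κ * (-1)) (κ * (5*m + 250)) (κ * (7*m + 350)),
  rect (κ * (-4*m - 200)) (κ * (-1)) (κ * (-4*m - 200)) (κ * (-1)),
  rect (κ * (1)) (κ * (5*m + 250)) (κ * (-4*m - 202)) (κ * (-1)),
  rect (κ * (5*m + 250)) (κ * (7*m + 350)) (κ * (-2*m - 100)) (κ * (-1))]

theorem rect_scaled {κ a b c d : ℝ} (hκ : 0 < κ) {z : ℂ}
    (hz : z ∈ rect (κ * a) (κ * b) (κ * c) (κ * d)) :
    (a < (((κ⁻¹ : ℝ) : ℂ) * z).re ∧ (((κ⁻¹ : ℝ) : ℂ) * z).re < b) ∧
      (c < (((κ⁻¹ : ℝ) : ℂ) * z).im ∧ (((κ⁻¹ : ℝ) : ℂ) * z).im < d) := by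
  obtain ⟨⟨h1, h2⟩, h3, h4⟩ := hz
  rw [Complex.re_ofReal_mul, Complex.im_ofReal_mul]
  refine ⟨⟨?_, ?_⟩, ?_, ?_⟩
  · rw [lt_inv_mul_iff₀ hκ]; exact h1
  · rw [inv_mul_lt_iff₀ hκ]; exact h2
  · rw [lt_inv_mul_iff₀ hκ]; exact h3
  · rw [inv_mul_lt_iff₀ hκ]; exact h4

theorem rc_sub {m κ : ℝ} (hm : 0 ≤ m) (hκ : 0 < κ) (k : Fin 6) {z : ℂ} (hz : z ∈ rc m κ k) :
    gg m (((κ⁻¹ : ℝ) : ℂ) * z) < 1 := by
  fin_cases k
  · obtain ⟨hx, hy⟩ := rect_scaled hκ hz
    exact in0 hm hx hy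
  · obtain ⟨hx, hy⟩ := rect_scaled hκ hz
    exact in1 hm hx hy
  · obtain ⟨hx, hy⟩ := rect_scaled hκ hz
    exact in2 hm hx hy
  · obtain ⟨hx, hy⟩ := rect_scaled hκ hz
    exact in3 hm hx hy
  · obtain ⟨hx, hy⟩ := rect_scaled hκ hz
    exact in4 hm hx hy
  · obtain ⟨hx, hy⟩ := rect_scaled hκ hz
    exact in5 hm hx hy

theorem rc_meas (m κ : ℝ) (k : Fin 6) : MeasurableSet (rc m κ k) := by
  fin_cases k <;> exact rect_meas _ _ _ _

theorem sep_x {a b c d a' b' c' d' : ℝ} (h : b ≤ a') : Disjoint (rect a b c d) (rect a' b' c' d') :=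
  Set.disjoint_left.mpr fun _ hz hz' => absurd (hz.1.2.trans_le h) (not_lt.mpr hz'.1.1.le)

theorem sep_y {a b c d a' b' c' d' : ℝ} (h : d ≤ c') : Disjoint (rect a b c d) (rect a' b' c' d') :=
  Set.disjoint_left.mpr fun _ hz hz' => absurd (hz.2.2.trans_le h) (not_lt.mpr hz'.2.1.le)

theorem dj01 {m κ : ℝ} (hm : 0 ≤ m) (hκ : 0 < κ) : Disjoint (rc m κ 0) (rc m κ 1) :=
  (sep_x (mul_le_mul_of_nonneg_left (by linarith) hκ.le)).symm

theorem dj02 {m κ : ℝ} (hm : 0 ≤ m) (hκ : 0 < κ) : Disjoint (rc m κ 0) (rc m κ 2) :=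
  (sep_x (mul_le_mul_of_nonneg_left (by linarith) hκ.le)).symm

theorem dj03 {m κ : ℝ} (hm : 0 ≤ m) (hκ : 0 < κ) : Disjoint (rc m κ 0) (rc m κ 3) :=
  (sep_x (mul_le_mul_of_nonneg_left (by linarith) hκ.le)).symm

theorem dj04 {m κ : ℝ} (hm : 0 ≤ m) (hκ : 0 < κ) : Disjoint (rc m κ 0) (rc m κ 4) :=
  (sep_y (mul_le_mul_of_nonneg_left (by linarith) hκ.le)).symm

theorem dj05 {m κ : ℝ} (hm : 0 ≤ m) (hκ : 0 < κ) : Disjoint (rc m κ 0) (rc m κ 5) :=
  sep_x (mul_le_mul_of_nonneg_left (by linarith) hκ.le)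

theorem dj12 {m κ : ℝ} (hm : 0 ≤ m) (hκ : 0 < κ) : Disjoint (rc m κ 1) (rc m κ 2) :=
  sep_y (mul_le_mul_of_nonneg_left (by linarith) hκ.le)

theorem dj13 {m κ : ℝ} (hm : 0 ≤ m) (hκ : 0 < κ) : Disjoint (rc m κ 1) (rc m κ 3) :=
  (sep_y (mul_le_mul_of_nonneg_left (by linarith) hκ.le)).symm

theorem dj14 {m κ : ℝ} (hm : 0 ≤ m) (hκ : 0 < κ) : Disjoint (rc m κ 1) (rc m κ 4) :=
  sep_x (mul_le_mul_of_nonneg_left (by linarith) hκ.le)

theorem dj15 {m κ : ℝ} (hm : 0 ≤ m) (hκ : 0 < κ) : Disjoint (rc m κ 1) (rc m κ 5) :=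
  sep_x (mul_le_mul_of_nonneg_left (by linarith) hκ.le)

theorem dj23 {m κ : ℝ} (hm : 0 ≤ m) (hκ : 0 < κ) : Disjoint (rc m κ 2) (rc m κ 3) :=
  (sep_y (mul_le_mul_of_nonneg_left (by linarith) hκ.le)).symm

theorem dj24 {m κ : ℝ} (hm : 0 ≤ m) (hκ : 0 < κ) : Disjoint (rc m κ 2) (rc m κ 4) :=
  sep_x (mul_le_mul_of_nonneg_left (by linarith) hκ.le)

theorem dj25 {m κ : ℝ} (hm : 0 ≤ m) (hκ : 0 < κ) : Disjoint (rc m κ 2) (rc m κ 5) :=
  sep_x (mul_le_mul_of_nonneg_left (by linarith) hκ.le)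

theorem dj34 {m κ : ℝ} (hm : 0 ≤ m) (hκ : 0 < κ) : Disjoint (rc m κ 3) (rc m κ 4) :=
  sep_x (mul_le_mul_of_nonneg_left (by linarith) hκ.le)

theorem dj35 {m κ : ℝ} (hm : 0 ≤ m) (hκ : 0 < κ) : Disjoint (rc m κ 3) (rc m κ 5) :=
  sep_x (mul_le_mul_of_nonneg_left (by linarith) hκ.le)

theorem dj45 {m κ : ℝ} (hm : 0 ≤ m) (hκ : 0 < κ) : Disjoint (rc m κ 4) (rc m κ 5) :=
  sep_x (mul_le_mul_of_nonneg_left (by linarith) hκ.le)

theorem rc_disj {m κ : ℝ} (hm : 0 ≤ m) (hκ : 0 < κ) : Pairwise (Function.onFun Disjoint (rc m κ)) := by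
  intro i j hij
  fin_cases i <;> fin_cases j
  · exact absurd rfl hij
  · exact dj01 hm hκ
  · exact dj02 hm hκ
  · exact dj03 hm hκ
  · exact dj04 hm hκ
  · exact dj05 hm hκ
  · exact (dj01 hm hκ).symm
  · exact absurd rfl hij
  · exact dj12 hm hκ
  · exact dj13 hm hκ
  · exact dj14 hm hκ
  · exact dj15 hm hκ
  · exact (dj02 hm hκ).symm
  · exact (dj12 hm hκ).symm
  · exact absurd rfl hij
  · exact dj23 hm hκ
  · exact dj24 hm hκ
  · exact dj25 hm hκ
  · exact (dj03 hm hκ).symm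
  · exact (dj13 hm hκ).symm
  · exact (dj23 hm hκ).symm
  · exact absurd rfl hij
  · exact dj34 hm hκ
  · exact dj35 hm hκ
  · exact (dj04 hm hκ).symm
  · exact (dj14 hm hκ).symm
  · exact (dj24 hm hκ).symm
  · exact (dj34 hm hκ).symm
  · exact absurd rfl hij
  · exact dj45 hm hκ
  · exact (dj05 hm hκ).symm
  · exact (dj15 hm hκ).symm
  · exact (dj25 hm hκ).symm
  · exact (dj35 hm hκ).symm
  · exact (dj45 hm hκ).symm
  · exact absurd rfl hij

theorem rc_vol {m κ : ℝ} (hm : 0 ≤ m) (hκ : 0 < κ) (k : Fin 6) : volume (rc m κ k) =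
    ENNReal.ofReal (κ ^ 2 * (![(4*m + 194) * (4*m + 197), (4*m + 199) * (5*m + 249), (2*m + 99) * (2*m + 100), (4*m + 199) * (4*m + 199), (5*m + 249) * (4*m + 201), (2*m + 100) * (2*m + 99)] k)) := by
  fin_cases k
  · refine (rect_vol _ _ _ _ (mul_le_mul_of_nonneg_left (by linarith) hκ.le)).trans ?_
    congr 1
    show _ = κ ^ 2 * ((4*m + 194) * (4*m + 197))
    ring
  · refine (rect_vol _ _ _ _ (mul_le_mul_of_nonneg_left (by linarith) hκ.le)).trans ?_
    congr 1
    show _ = κ ^ 2 * ((4*m + 199) * (5*m + 249))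
    ring
  · refine (rect_vol _ _ _ _ (mul_le_mul_of_nonneg_left (by linarith) hκ.le)).trans ?_
    congr 1
    show _ = κ ^ 2 * ((2*m + 99) * (2*m + 100))
    ring
  · refine (rect_vol _ _ _ _ (mul_le_mul_of_nonneg_left (by linarith) hκ.le)).trans ?_
    congr 1
    show _ = κ ^ 2 * ((4*m + 199) * (4*m + 199))
    ring
  · refine (rect_vol _ _ _ _ (mul_le_mul_of_nonneg_left (by linarith) hκ.le)).trans ?_
    congr 1
    show _ = κ ^ 2 * ((5*m + 249) * (4*m + 201))
    ring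
  · refine (rect_vol _ _ _ _ (mul_le_mul_of_nonneg_left (by linarith) hκ.le)).trans ?_
    congr 1
    show _ = κ ^ 2 * ((2*m + 100) * (2*m + 99))
    ring

theorem union_vol {m κ : ℝ} (hm : 0 ≤ m) (hκ : 0 < κ) :
    volume (⋃ k, rc m κ k) = ENNReal.ofReal (κ ^ 2 * (80*m^2 + 7944*m + 197219)) := by
  rw [measure_iUnion (rc_disj hm hκ) (rc_meas m κ), tsum_fintype]
  simp only [rc_vol hm hκ]
  rw [← ENNReal.ofReal_sum_of_nonneg]
  · congr 1
    simp only [Fin.sum_univ_succ, Fin.sum_univ_zero]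
    simp
    ring
  · intro k _
    refine mul_nonneg (by positivity) ?_
    fin_cases k
    · show 0 ≤ (4*m + 194) * (4*m + 197)
      positivity
    · show 0 ≤ (4*m + 199) * (5*m + 249)
      positivity
    · show 0 ≤ (2*m + 99) * (2*m + 100)
      positivity
    · show 0 ≤ (4*m + 199) * (4*m + 199)
      positivity
    · show 0 ≤ (5*m + 249) * (4*m + 201)
      positivity
    · show 0 ≤ (2*m + 100) * (2*m + 99)
      positivity

/-- the inner domain is star-shaped, hence connected -/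
theorem lt_preconnected {g : ℂ → ℝ} (h : StarGauge g) : IsPreconnected {z | g z < 1} := by
  refine isPreconnected_of_forall 0 fun z hz => ⟨segment ℝ 0 z, ?_, left_mem_segment ℝ 0 z,
    right_mem_segment ℝ 0 z, (convex_segment 0 z).isPreconnected⟩
  rw [segment_eq_image']
  rintro _ ⟨t, ⟨h0, h1⟩, rfl⟩
  have hz' : g z < 1 := hz
  show g (0 + t • (z - 0)) < 1
  rw [zero_add, sub_zero, Complex.real_smul, h.hom t z h0]
  by_cases hg : g z ≤ 0
  · exact lt_of_le_of_lt (mul_nonpos_of_nonneg_of_nonpos h0 hg) one_pos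
  · push Not at hg
    calc t * g z ≤ 1 * g z := mul_le_mul_of_nonneg_right h1 hg.le
      _ < 1 := by rw [one_mul]; exact hz'

end Boat
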