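import Pool.Agent.helper91.SB.All
import Pool.Agent.helper91.SB.Level2

/-!
# 16-gons with a large inner domain and a single, small inscribed square
-/

namespace Boat

open Set Metric Complex Hex

/-- the centre of the inscribed square -/
noncomputable def Zc (m : ℝ) : ℂ := ⟨zx m, zy m⟩

/-- half a diagonal of the inscribed square -/
noncomputable def Vc (m : ℝ) : ℂ := ⟨vx m, vy m⟩

theorem square_cases {m : ℝ} (hm : 0 ≤ m) {z v : ℂ} (h0 : gg m (z + v) = 1)
    (h1 : gg m (z + I * v) = 1) (h2 : gg m (z - v) = 1) (h3 : gg m (z - I * v) = 1) :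
    v = 0 ∨ (z = Zc m ∧ (v = Vc m ∨ v = I * Vc m ∨ v = -Vc m ∨ v = -(I * Vc m))) := by
  obtain ⟨i, t0, a0, b0, x0, y0⟩ := (gg_eq_one hm _).mp h0
  obtain ⟨j, t1, a1, b1, x1, y1⟩ := (gg_eq_one hm _).mp h1
  obtain ⟨k, t2, a2, b2, x2, y2⟩ := (gg_eq_one hm _).mp h2
  obtain ⟨l, t3, a3, b3, x3, y3⟩ := (gg_eq_one hm _).mp h3
  simp only [add_re, add_im, sub_re, sub_im, mul_re, mul_im, I_re, I_im, zero_mul, one_mul,
    zero_sub, zero_add] at x0 x1 x2 x3 y0 y1 y2 y3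
  have H := allQ hm i j k l t0 t1 t2 t3 a0 b0 a1 b1 a2 b2 a3 b3
    (by rw [← x0, ← x1, ← x2, ← x3]; ring) (by rw [← y0, ← y1, ← y2, ← y3]; ring)
    (by rw [← x0, ← x3, ← y0, ← y1]; ring) (by rw [← x0, ← x1, ← y0, ← y3]; ring)
  rw [← x0, ← x1, ← y0, ← y1] at H
  rcases H with ⟨k1, k2⟩ | ⟨k1, k2, k3, k4⟩ | ⟨k1, k2, k3, k4⟩ | ⟨k1, k2, k3, k4⟩ | ⟨k1, k2, k3, k4⟩
  · left
    apply Complex.ext
    · show v.re = 0
      linarith
    · show v.im = 0
      linarith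
  · right
    refine ⟨Complex.ext ?_ ?_, Or.inl (Complex.ext ?_ ?_)⟩
    · show z.re = zx m
      linarith
    · show z.im = zy m
      linarith
    · show v.re = vx m
      linarith
    · show v.im = vy m
      linarith
  · right
    refine ⟨Complex.ext ?_ ?_, Or.inr (Or.inl (Complex.ext ?_ ?_))⟩
    · show z.re = zx m
      linarith
    · show z.im = zy m
      linarith
    · simp only [Vc, mul_re, I_re, I_im, zero_mul, one_mul, zero_sub]
      linarith
    · simp only [Vc, mul_im, I_re, I_im, zero_mul, one_mul, zero_add]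
      linarith
  · right
    refine ⟨Complex.ext ?_ ?_, Or.inr (Or.inr (Or.inl (Complex.ext ?_ ?_)))⟩
    · show z.re = zx m
      linarith
    · show z.im = zy m
      linarith
    · simp only [Vc, neg_re]
      linarith
    · simp only [Vc, neg_im]
      linarith
  · right
    refine ⟨Complex.ext ?_ ?_, Or.inr (Or.inr (Or.inr (Complex.ext ?_ ?_)))⟩
    · show z.re = zx m
      linarith
    · show z.im = zy m
      linarith
    · simp only [Vc, neg_re, mul_re, I_re, I_im, zero_mul, one_mul, zero_sub]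
      linarith
    · simp only [Vc, neg_im, mul_im, I_re, I_im, zero_mul, one_mul, zero_add]
      linarith

theorem on_div {m : ℝ} (hm : 0 ≤ m) (e : Ed) (p : ℝ) (h0 : 0 ≤ p) (h1 : p ≤ den m) {x y : ℝ}
    (hx : x * den m = px m e * den m + p * dx m e) (hy : y * den m = py m e * den m + p * dy m e) :
    On m e x y := by
  have hD := den_pos hm
  refine ⟨p / den m, div_nonneg h0 hD.le, (div_le_one hD).mpr h1, ?_, ?_⟩
  · rw [div_mul_eq_mul_div, ← mul_left_inj' hD.ne', add_mul, div_mul_cancel₀ _ hD.ne']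
    exact hx
  · rw [div_mul_eq_mul_div, ← mul_left_inj' hD.ne', add_mul, div_mul_cancel₀ _ hD.ne']
    exact hy

theorem zx_den {m : ℝ} (hm : 0 ≤ m) : zx m * den m = -(147*m^2 + 14299*m + 347577) :=
  div_mul_cancel₀ _ (den_pos hm).ne'

theorem zy_den {m : ℝ} (hm : 0 ≤ m) : zy m * den m = -(735*m^2 + 72743*m + 1799871) :=
  div_mul_cancel₀ _ (den_pos hm).ne'

theorem vx_den {m : ℝ} (hm : 0 ≤ m) : vx m * den m = -(7938*m^3 + 1176861*m^2 + 58160179*m + 958104483) :=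
  div_mul_cancel₀ _ (den_pos hm).ne'

theorem vy_den {m : ℝ} (hm : 0 ≤ m) : vy m * den m = -(147*m^2 + 14749*m + 369831) :=
  div_mul_cancel₀ _ (den_pos hm).ne'

theorem mem0 {m : ℝ} (hm : 0 ≤ m) : gg m (Zc m + Vc m) = 1 := by
  rw [gg_eq_one hm]
  refine ⟨.e0, on_div hm .e0 (882*m^2 + 87492*m + 2169702) (by positivity) ?_ ?_ ?_⟩
  · simp only [den]; rw [← sub_nonneg]; ring_nf; positivity
  · simp only [Zc, Vc, add_re, add_mul, zx_den hm, vx_den hm]
    simp only [px, dx, den]; ring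
  · simp only [Zc, Vc, add_im, add_mul, zy_den hm, vy_den hm]
    simp only [py, dy, den]; ring

theorem mem1 {m : ℝ} (hm : 0 ≤ m) : gg m (Zc m + I * Vc m) = 1 := by
  rw [gg_eq_one hm]
  refine ⟨.e4, on_div hm .e4 (450*m + 22254) (by positivity) ?_ ?_ ?_⟩
  · simp only [den]; rw [← sub_nonneg]; ring_nf; positivity
  · simp only [Zc, Vc, add_re, mul_re, I_re, I_im, zero_mul, one_mul, zero_sub, add_mul, neg_mul,
      zx_den hm, vy_den hm]
    simp only [px, dx, den]; ring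
  · simp only [Zc, Vc, add_im, mul_im, I_re, I_im, zero_mul, one_mul, zero_add, add_mul,
      zy_den hm, vx_den hm]
    simp only [py, dy, den]; ring

theorem mem2 {m : ℝ} (hm : 0 ≤ m) : gg m (Zc m - Vc m) = 1 := by
  rw [gg_eq_one hm]
  refine ⟨.e7, on_div hm .e7 (882*m^3 + 130056*m^2 + 6392740*m + 104746302) (by positivity) ?_ ?_ ?_⟩
  · simp only [den]; rw [← sub_nonneg]; ring_nf; positivity
  · simp only [Zc, Vc, sub_re, sub_mul, zx_den hm, vx_den hm]
    simp only [px, dx, den]; ring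
  · simp only [Zc, Vc, sub_im, sub_mul, zy_den hm, vy_den hm]
    simp only [py, dy, den]; ring

theorem mem3 {m : ℝ} (hm : 0 ≤ m) : gg m (Zc m - I * Vc m) = 1 := by
  rw [gg_eq_one hm]
  refine ⟨.e12, on_div hm .e12 (294*m^2 + 29048*m + 717408) (by positivity) ?_ ?_ ?_⟩
  · simp only [den]; rw [← sub_nonneg]; ring_nf; positivity
  · simp only [Zc, Vc, sub_re, mul_re, I_re, I_im, zero_mul, one_mul, zero_sub, sub_mul, neg_mul,
      zx_den hm, vy_den hm]
    simp only [px, dx, den]; ring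
  · simp only [Zc, Vc, sub_im, mul_im, I_re, I_im, zero_mul, one_mul, zero_add, sub_mul,
      zy_den hm, vx_den hm]
    simp only [py, dy, den]; ring

theorem Vc_ne {m : ℝ} (hm : 0 ≤ m) : Vc m ≠ 0 := by
  intro h
  have h1 : vx m = 0 := congrArg Complex.re h
  have h2 := vx_den hm
  rw [h1, zero_mul] at h2
  have : 0 < 7938*m^3 + 1176861*m^2 + 58160179*m + 958104483 := by positivity
  linarith

theorem Vc_norm {m : ℝ} (hm : 0 ≤ m) : ‖Vc m‖ ≤ 10 := by
  have hD := den_pos hm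
  have h1 : ‖Vc m‖ ^ 2 ≤ 10 ^ 2 := by
    rw [← Complex.normSq_eq_norm_sq, Complex.normSq_apply]
    show vx m * vx m + vy m * vy m ≤ 10 ^ 2
    have h2 : (vx m * vx m + vy m * vy m) * (den m) ^ 2 ≤ 10 ^ 2 * (den m) ^ 2 := by
      have e : (vx m * vx m + vy m * vy m) * (den m) ^ 2 =
          (vx m * den m) ^ 2 + (vy m * den m) ^ 2 := by ring
      rw [e, vx_den hm, vy_den hm]
      simp only [den]
      rw [← sub_nonneg]
      ring_nf
      positivity
    exact le_of_mul_le_mul_right h2 (by positivity)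
  exact (sq_le_sq₀ (norm_nonneg _) (by norm_num)).mp h1

/-- rescaling a star gauge -/
theorem star_scale {g : ℂ → ℝ} (h : StarGauge g) {κ : ℝ} (hκ : 0 < κ) :
    StarGauge fun z => g z / κ := by
  refine ⟨h.cont.div_const κ, fun r z hr => ?_, fun z hz => div_pos (h.pos z hz) hκ⟩
  simp only [h.hom r z hr]
  ring

theorem gg_scale {m κ : ℝ} (hm : 0 ≤ m) (hκ : 0 < κ) (z : ℂ) :
    gg m z / κ = gg m (((κ⁻¹ : ℝ) : ℂ) * z) := by
  rw [(gg_star hm).hom _ _ (inv_nonneg.mpr hκ.le)]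
  field_simp

/-- the edges in cyclic order -/
def ed : Fin 16 → Ed :=
  ![.e0, .e1, .e2, .e3, .e4, .e5, .e6, .e7, .e8, .e9, .e10, .e11, .e12, .e13, .e14, .e15]

/-- the vertices of the rescaled 16-gon -/
noncomputable def vert (m κ : ℝ) (i : Fin 16) : ℂ := (κ : ℂ) * ⟨px m (ed i), py m (ed i)⟩

theorem ed_next (i : Fin 16) : ed (i + 1) = nx (ed i) := by
  fin_cases i <;> rfl

theorem ed_surj (e : Ed) : ∃ i : Fin 16, ed i = e := by
  cases e
  · exact ⟨0, rfl⟩
  · exact ⟨1, rfl⟩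
  · exact ⟨2, rfl⟩
  · exact ⟨3, rfl⟩
  · exact ⟨4, rfl⟩
  · exact ⟨5, rfl⟩
  · exact ⟨6, rfl⟩
  · exact ⟨7, rfl⟩
  · exact ⟨8, rfl⟩
  · exact ⟨9, rfl⟩
  · exact ⟨10, rfl⟩
  · exact ⟨11, rfl⟩
  · exact ⟨12, rfl⟩
  · exact ⟨13, rfl⟩
  · exact ⟨14, rfl⟩
  · exact ⟨15, rfl⟩

theorem vert_next (m κ : ℝ) (i : Fin 16) :
    vert m κ (i + 1) - vert m κ i = (κ : ℂ) * ⟨dx m (ed i), dy m (ed i)⟩ := by
  rw [vert, vert, ed_next, ← mul_sub]
  congr 1
  apply Complex.ext
  · simp only [sub_re, dx_eq]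
  · simp only [sub_im, dy_eq]

theorem level_eq {m κ : ℝ} (hm : 0 ≤ m) (hκ : 0 < κ) :
    {z | gg m z / κ = 1} = ⋃ i : Fin 16, segment ℝ (vert m κ i) (vert m κ (i + 1)) := by
  have hκ' : (κ : ℂ) ≠ 0 := by exact_mod_cast hκ.ne'
  ext z
  simp only [mem_ofPred_eq, mem_iUnion, segment_eq_image', mem_image, mem_Icc]
  rw [gg_scale hm hκ, gg_eq_one hm]
  have key : ∀ (i : Fin 16) (t : ℝ), vert m κ i + t • (vert m κ (i + 1) - vert m κ i) =
      (κ : ℂ) * ⟨px m (ed i) + t * dx m (ed i), py m (ed i) + t * dy m (ed i)⟩ := by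
    intro i t
    rw [vert_next]
    apply Complex.ext
    · simp only [vert, add_re, mul_re, ofReal_re, ofReal_im, smul_re,
        smul_eq_mul, zero_mul, sub_zero]
      ring
    · simp only [vert, add_im, ofReal_re, ofReal_im, smul_im,
        smul_eq_mul, zero_mul, mul_im, add_zero]
      ring
  constructor
  · rintro ⟨e, t, h0, h1, hx, hy⟩
    obtain ⟨i, rfl⟩ := ed_surj e
    refine ⟨i, t, ⟨h0, h1⟩, ?_⟩
    rw [key]
    have : (⟨px m (ed i) + t * dx m (ed i), py m (ed i) + t * dy m (ed i)⟩ : ℂ) =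
        ((κ⁻¹ : ℝ) : ℂ) * z := by
      apply Complex.ext
      · exact hx.symm
      · exact hy.symm
    rw [this, ← mul_assoc]
    push_cast
    rw [mul_inv_cancel₀ hκ', one_mul]
  · rintro ⟨i, t, ⟨h0, h1⟩, hz⟩
    rw [key] at hz
    have : ((κ⁻¹ : ℝ) : ℂ) * z =
        ⟨px m (ed i) + t * dx m (ed i), py m (ed i) + t * dy m (ed i)⟩ := by
      rw [← hz, ← mul_assoc]
      push_cast
      rw [inv_mul_cancel₀ hκ', one_mul]
    refine ⟨ed i, t, h0, h1, ?_, ?_⟩
    · rw [this]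
    · rw [this]

theorem norm_le_abs (x y : ℝ) : ‖(⟨x, y⟩ : ℂ)‖ ≤ |x| + |y| := by
  simpa using Complex.norm_le_abs_re_add_abs_im (⟨x, y⟩ : ℂ)

/-- an upper bound for the length of an edge -/
def len (m : ℝ) : Ed → ℝ
  | .e0 => 5 * m + 247
  | .e1 => 5 * m + 249
  | .e2 => 4 * m + 200
  | .e3 => 4 * m + 193
  | .e4 => 4 * m + 195
  | .e5 => 5 * m + 250
  | .e6 => 8 * m + 401
  | .e7 => 9 * m + 448
  | .e8 => 4 * m + 198
  | .e9 => 4 * m + 198
  | .e10 => 4 * m + 194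
  | .e11 => 4 * m + 197
  | .e12 => 9 * m + 446
  | .e13 => 8 * m + 400
  | .e14 => 5 * m + 249
  | .e15 => 4 * m + 197

theorem abs_add_abs_le {x y c : ℝ} (h1 : x + y ≤ c) (h2 : x - y ≤ c) (h3 : -x + y ≤ c)
    (h4 : -x - y ≤ c) : |x| + |y| ≤ c := by
  rcases abs_cases x with ⟨h, _⟩ | ⟨h, _⟩ <;> rcases abs_cases y with ⟨h', _⟩ | ⟨h', _⟩ <;>
    rw [h, h'] <;> linarith

theorem edge_len {m : ℝ} (hm : 0 ≤ m) (e : Ed) : ‖(⟨dx m e, dy m e⟩ : ℂ)‖ ≤ len m e := by
  refine (norm_le_abs _ _).trans ?_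
  cases e <;> simp only [dx, dy, len] <;> apply abs_add_abs_le <;> linarith

theorem perimeter {m : ℝ} (hm : 0 ≤ m) :
    ∑ i : Fin 16, ‖vert m (2 * (m + 50))⁻¹ (i + 1) - vert m (2 * (m + 50))⁻¹ i‖ ≤ 43 := by
  have hn : 0 < 2 * (m + 50) := by linarith
  have h1 : ∀ i : Fin 16, ‖vert m (2 * (m + 50))⁻¹ (i + 1) - vert m (2 * (m + 50))⁻¹ i‖ ≤
      (2 * (m + 50))⁻¹ * len m (ed i) := by
    intro i
    rw [vert_next, norm_mul, Complex.norm_real, Real.norm_of_nonneg (inv_nonneg.mpr hn.le)]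
    exact mul_le_mul_of_nonneg_left (edge_len hm _) (inv_nonneg.mpr hn.le)
  refine (Finset.sum_le_sum fun i _ => h1 i).trans ?_
  rw [← Finset.mul_sum, inv_mul_le_iff₀ hn]
  have h2 : ∑ i : Fin 16, len m (ed i) = 86 * m + 4262 := by
    simp only [Fin.sum_univ_succ, Fin.sum_univ_zero, ed]
    simp [len]
    ring
  rw [h2]
  linarith

theorem vert_dist {m : ℝ} (hm : 0 ≤ m) (i j : Fin 16) :
    dist (vert m (2 * (m + 50))⁻¹ i) (vert m (2 * (m + 50))⁻¹ j) ≤ 7 := by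
  have hn : 0 < 2 * (m + 50) := by linarith
  rw [dist_eq_norm, vert, vert, ← mul_sub, norm_mul, Complex.norm_real,
    Real.norm_of_nonneg (inv_nonneg.mpr hn.le), inv_mul_le_iff₀ hn]
  have h1 : ‖(⟨px m (ed i), py m (ed i)⟩ : ℂ) - ⟨px m (ed j), py m (ed j)⟩‖ ^ 2 ≤
      (2 * (m + 50) * 7) ^ 2 := by
    rw [← Complex.normSq_eq_norm_sq, Complex.normSq_apply]
    show (px m (ed i) - px m (ed j)) * (px m (ed i) - px m (ed j)) +
      (py m (ed i) - py m (ed j)) * (py m (ed i) - py m (ed j)) ≤ (2 * (m + 50) * 7) ^ 2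
    generalize ed i = e
    generalize ed j = e'
    cases e <;> cases e' <;> simp only [px, py] <;> rw [← sub_nonneg] <;> ring_nf <;> positivity
  exact (sq_le_sq₀ (norm_nonneg _) (by positivity)).mp h1

theorem diam_le {m : ℝ} (hm : 0 ≤ m) :
    Metric.diam (⋃ i : Fin 16, segment ℝ (vert m (2 * (m + 50))⁻¹ i)
      (vert m (2 * (m + 50))⁻¹ (i + 1))) ≤ 7 := by
  have hfin : (Set.range (vert m (2 * (m + 50))⁻¹)).Finite := Set.finite_range _
  have hsub : (⋃ i : Fin 16, segment ℝ (vert m (2 * (m + 50))⁻¹ i)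
      (vert m (2 * (m + 50))⁻¹ (i + 1))) ⊆ convexHull ℝ (Set.range (vert m (2 * (m + 50))⁻¹)) := by
    refine iUnion_subset fun i => ?_
    exact segment_subset_convexHull (mem_range_self _) (mem_range_self _)
  have hb : Bornology.IsBounded (convexHull ℝ (Set.range (vert m (2 * (m + 50))⁻¹))) :=
    isBounded_convexHull.mpr hfin.isBounded
  refine (Metric.diam_mono hsub hb).trans ?_
  rw [convexHull_diam]
  refine Metric.diam_le_of_forall_dist_le (by norm_num) ?_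
  rintro _ ⟨i, rfl⟩ _ ⟨j, rfl⟩
  exact vert_dist hm i j

end Boat
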