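import Pool.Agent.helper91.SB.Final
import Pool.Agent.helper91.SB.Area

/-!
# 16-gons enclosing more than half the area of a circle of equal diameter, with a single, small inscribed square
-/

namespace Boat

open Set Metric Complex Hex MeasureTheory

/-- the inner domain has large area -/
theorem area_lt {m κ : ℝ} (hm : 0 ≤ m) (hκ : κ = (2 * (m + 50))⁻¹) {c : ℂ} (hc : gg m c / κ < 1) {D : ℝ}
    (hD0 : 0 ≤ D) (hD : D ≤ 7) :
    ENNReal.ofReal (Real.pi / 8 * D ^ 2) < volume (connectedComponentIn ({z | gg m z / κ = 1}ᶜ) c) := by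
  have hn : 0 < 2 * (m + 50) := by linarith
  have hκ0 : 0 < κ := hκ ▸ inv_pos.mpr hn
  have hS := star_scale (gg_star hm) hκ0
  have hsub : {z | gg m z / κ < 1} ⊆ connectedComponentIn ({z | gg m z / κ = 1}ᶜ) c := by
    refine (lt_preconnected hS).subset_connectedComponentIn hc ?_
    intro z hz
    simp only [mem_compl_iff, mem_ofPred_eq]
    exact (show gg m z / κ < 1 from hz).ne
  have hrc : (⋃ k, rc m κ k) ⊆ {z | gg m z / κ < 1} := by
    refine iUnion_subset fun k z hz => ?_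
    show gg m z / κ < 1
    rw [gg_scale hm hκ0]
    exact rc_sub hm hκ0 k hz
  refine lt_of_lt_of_le ?_ (measure_mono (hrc.trans hsub))
  rw [union_vol hm hκ0]
  have hpi := Real.pi_lt_d2
  have hpi0 := Real.pi_pos
  have hD2 : D ^ 2 ≤ 49 := by nlinarith
  have h1 : Real.pi / 8 * D ^ 2 < 3.15 / 8 * 49 := by
    calc Real.pi / 8 * D ^ 2 ≤ Real.pi / 8 * 49 := mul_le_mul_of_nonneg_left hD2 (by positivity)
      _ < 3.15 / 8 * 49 := by
        have : Real.pi / 8 < 3.15 / 8 := by linarith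
        exact mul_lt_mul_of_pos_right this (by norm_num)
  have h2 : (3.15 : ℝ) / 8 * 49 ≤ κ ^ 2 * (80*m^2 + 7944*m + 197219) := by
    rw [hκ, inv_pow, le_inv_mul_iff₀ (by positivity)]
    nlinarith
  refine (ENNReal.ofReal_lt_ofReal_iff (by positivity)).mpr (h1.trans_le h2)

/-- the inner domain is a sublevel set -/
theorem component_eq {g : ℂ → ℝ} (h : StarGauge g) {c : ℂ} (hc : g c < 1) :
    connectedComponentIn ({z | g z = 1}ᶜ) c = {z | g z < 1} := by
  refine Subset.antisymm (h.component_subset hc) ?_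
  refine (lt_preconnected h).subset_connectedComponentIn hc ?_
  intro z hz
  simp only [mem_compl_iff, mem_ofPred_eq]
  exact (show g z < 1 from hz).ne

/-- the inner domain is star-shaped -/
theorem star_component {g : ℂ → ℝ} (h : StarGauge g) {c : ℂ} (hc : g c < 1) :
    StarConvex ℝ 0 (connectedComponentIn ({z | g z = 1}ᶜ) c) := by
  rw [component_eq h hc]
  intro z hz a b ha hb hab
  have hz' : g z < 1 := hz
  show g (a • 0 + b • z) < 1
  rw [smul_zero, zero_add, Complex.real_smul, h.hom b z hb]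
  by_cases hg : g z ≤ 0
  · exact lt_of_le_of_lt (mul_nonpos_of_nonneg_of_nonpos hb hg) one_pos
  · push Not at hg
    calc b * g z ≤ 1 * g z := mul_le_mul_of_nonneg_right (by linarith) hg.le
      _ < 1 := by rw [one_mul]; exact hz'

theorem main {ε : ℝ} (hε : 0 < ε) : ∃ P : Fin 16 → ℂ, ∃ K : Set ℂ,
    K = (⋃ i : Fin 16, segment ℝ (P i) (P (i + 1))) ∧
    (∃ γ : Circle → ℂ, Continuous γ ∧ Function.Injective γ ∧ Set.range γ = K) ∧
    IsCompact K ∧ IsConnected K ∧ ¬ IsConnected Kᶜ ∧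
    Metric.diam K ≤ 7 ∧ ∑ i : Fin 16, ‖P (i + 1) - P i‖ ≤ 43 ∧
    (∃ c : ℂ, Metric.closedBall c 1 ⊆ connectedComponentIn Kᶜ c ∧
      Bornology.IsBounded (connectedComponentIn Kᶜ c) ∧
      StarConvex ℝ 0 (connectedComponentIn Kᶜ c) ∧
      ENNReal.ofReal (Real.pi / 8 * Metric.diam K ^ 2) < volume (connectedComponentIn Kᶜ c)) ∧
    (∃ z₀ v₀ : ℂ, v₀ ≠ 0 ∧ ‖v₀‖ < ε ∧
      z₀ + v₀ ∈ K ∧ z₀ + Complex.I * v₀ ∈ K ∧ z₀ - v₀ ∈ K ∧ z₀ - Complex.I * v₀ ∈ K ∧
      ∀ z v : ℂ, v ≠ 0 → z + v ∈ K → z + Complex.I * v ∈ K → z - v ∈ K → z - Complex.I * v ∈ K →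
        z = z₀ ∧ (v = v₀ ∨ v = Complex.I * v₀ ∨ v = -v₀ ∨ v = -(Complex.I * v₀))) := by
  set m : ℝ := 10 / ε with hmdef
  have hm : 0 ≤ m := by positivity
  have hn : 0 < 2 * (m + 50) := by linarith
  set κ : ℝ := (2 * (m + 50))⁻¹ with hκdef
  have hκ : 0 < κ := inv_pos.mpr hn
  have hκi : κ⁻¹ = 2 * (m + 50) := inv_inv _
  have hκ' : (κ : ℂ) ≠ 0 := by exact_mod_cast hκ.ne'
  have hS := star_scale (gg_star hm) hκ
  have hdisc : ∀ z ∈ closedBall ((κ : ℂ) * (⟨3 * (m + 50), -(2 * (m + 50) + 1)⟩ : ℂ)) 1,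
      gg m z / κ < 1 := by
    intro z hz
    rw [gg_scale hm hκ]
    apply disc_lt hm
    rw [mem_closedBall_iff_norm] at hz ⊢
    have e : ((κ⁻¹ : ℝ) : ℂ) * z - (⟨3 * (m + 50), -(2 * (m + 50) + 1)⟩ : ℂ) =
        ((κ⁻¹ : ℝ) : ℂ) * (z - (κ : ℂ) * (⟨3 * (m + 50), -(2 * (m + 50) + 1)⟩ : ℂ)) := by
      rw [mul_sub, ← mul_assoc]
      push_cast
      rw [inv_mul_cancel₀ hκ', one_mul]
    rw [e, norm_mul, Complex.norm_real, Real.norm_of_nonneg (inv_nonneg.mpr hκ.le), hκi]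
    calc 2 * (m + 50) * ‖z - (κ : ℂ) * (⟨3 * (m + 50), -(2 * (m + 50) + 1)⟩ : ℂ)‖
        ≤ 2 * (m + 50) * 1 := mul_le_mul_of_nonneg_left hz hn.le
      _ = 2 * (m + 50) := mul_one _
  obtain ⟨hj, hc, hcon, hcc, hb, hbd⟩ := hS.facts zero_le_one hdisc
  have hmem : ∀ w : ℂ, gg m w = 1 → (κ : ℂ) * w ∈ {z | gg m z / κ = 1} := by
    intro w hw
    simp only [mem_ofPred_eq]
    rw [gg_scale hm hκ, ← mul_assoc]
    push_cast
    rw [inv_mul_cancel₀ hκ', one_mul]
    exact hw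
  have hdiam : Metric.diam {z | gg m z / κ = 1} ≤ 7 := by
    rw [level_eq hm hκ]; exact diam_le hm
  refine ⟨vert m κ, {z | gg m z / κ = 1}, level_eq hm hκ, hj, hc, hcon, hcc, hdiam, perimeter hm,
    ⟨_, hb, hbd, star_component hS (hdisc _ (mem_closedBall_self zero_le_one)), area_lt hm hκdef (hdisc _ (mem_closedBall_self zero_le_one)) Metric.diam_nonneg hdiam⟩,
    (κ : ℂ) * Zc m, (κ : ℂ) * Vc m, mul_ne_zero hκ' (Vc_ne hm), ?_, ?_, ?_, ?_, ?_, ?_⟩
  · rw [norm_mul, Complex.norm_real, Real.norm_of_nonneg hκ.le]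
    refine lt_of_le_of_lt (mul_le_mul_of_nonneg_left (Vc_norm hm) hκ.le) ?_
    rw [hκdef, inv_mul_lt_iff₀ hn, hmdef]
    have : (2 * (10 / ε + 50)) * ε = 20 + 100 * ε := by field_simp; ring
    linarith
  · rw [← mul_add]; exact hmem _ (mem0 hm)
  · rw [mul_left_comm, ← mul_add]; exact hmem _ (mem1 hm)
  · rw [← mul_sub]; exact hmem _ (mem2 hm)
  · rw [mul_left_comm, ← mul_sub]; exact hmem _ (mem3 hm)
  · intro z v hv h0 h1 h2 h3
    simp only [mem_ofPred_eq] at h0 h1 h2 h3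
    rw [gg_scale hm hκ] at h0 h1 h2 h3
    have hsq := square_cases hm (z := ((κ⁻¹ : ℝ) : ℂ) * z) (v := ((κ⁻¹ : ℝ) : ℂ) * v)
      (by rw [← mul_add]; exact h0)
      (by rw [mul_left_comm, ← mul_add]; exact h1)
      (by rw [← mul_sub]; exact h2)
      (by rw [mul_left_comm, ← mul_sub]; exact h3)
    have hκi' : ((κ⁻¹ : ℝ) : ℂ) ≠ 0 := by exact_mod_cast (inv_pos.mpr hκ).ne'
    have back : ∀ w u : ℂ, ((κ⁻¹ : ℝ) : ℂ) * w = u → w = (κ : ℂ) * u := by
      rintro w u rfl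
      rw [← mul_assoc]
      push_cast
      rw [mul_inv_cancel₀ hκ', one_mul]
    rcases hsq with hsq | ⟨hz, hsq⟩
    · exact absurd ((mul_eq_zero.mp hsq).resolve_left hκi') hv
    · refine ⟨back _ _ hz, ?_⟩
      rcases hsq with h | h | h | h
      · exact Or.inl (back _ _ h)
      · right; left
        rw [back _ _ h]; ring
      · right; right; left
        rw [back _ _ h]; ring
      · right; right; right
        rw [back _ _ h]; ring

end Boat
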